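import Pool.Agent.Lib.MP_663568_e.EDefs

/-!
Row E01: the bracket lemma without relations, with the exact obstruction.
-/

set_option autoImplicit false
open Finset

namespace Pool.Agent.Lib.MP_663568_nt.E

open Katai Nul T3

open Classical in
/-- case B: a relation between `θ` and `lam` -/
private lemma bracket_caseB' {β : Type} [Fintype β] (Z : ℝ) (K₁ : ℕ)
    (θ : β → ℝ) (lam : ℝ) (m : ℕ) (hm : 1 ≤ m) (hmK : m ≤ K₁) (k : β → ℤ)
    (hk : ∀ j, |k j| ≤ (K₁ : ℤ)) (w : ℤ) (hrel : (m : ℝ) * lam + ∑ j, (k j : ℝ) * θ j = w)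
    (δ' : ℝ) (R : ℕ)
    (hR : ∀ (c : ℝ) (v : β → ℝ), (∀ j, |v j| ≤ K₁ * Z + K₁) → v ≠ 0 →
      (((Icc 1 R).filter (fun s : ℕ => ∃ z : ℤ, c + ∑ j, v j * Int.fract ((s : ℝ) * θ j) = z)).card
        : ℝ) ≤ δ' * R)
    (c : ℝ) (ζ : β → ℝ) (hζ : ∀ j, |ζ j| ≤ Z)
    (hirr : ¬ ∀ j, (m : ℝ) * ζ j = k j) (_hZ : 0 ≤ Z) (hδ' : 0 ≤ δ') :
      (((Icc 1 R).filter (fun r : ℕ => ∃ z : ℤ,
        c + lam * r + ∑ j, ζ j * Int.fract ((r : ℝ) * θ j) = z)).card : ℝ) ≤
        ((K₁ : ℝ) + 1) ^ (Fintype.card β + 1) * (δ' * R + 1) := by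
  have hmpos : (0 : ℝ) < m := by exact_mod_cast hm
  set v : β → ℝ := fun j => (m : ℝ) * ζ j - k j with hv
  have hvb : ∀ j, |v j| ≤ K₁ * Z + K₁ := by
    intro j
    calc |v j| ≤ |(m : ℝ) * ζ j| + |(k j : ℝ)| := abs_sub _ _
      _ ≤ K₁ * Z + K₁ := by
        apply add_le_add
        · rw [abs_mul, abs_of_pos hmpos]
          apply mul_le_mul _ (hζ j) (abs_nonneg _) (by positivity)
          exact_mod_cast hmK
        · exact_mod_cast hk j
  have hv0 : v ≠ 0 := by
    intro h0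
    refine hirr fun j => ?_
    have := congrFun h0 j
    simp only [hv, Pi.zero_apply] at this
    linarith
  -- constants
  set cc : ℕ → (β → ℕ) → ℝ := fun ρ g =>
    c + lam * ρ + ∑ j, ζ j * ((ρ : ℝ) * θ j - ((⌊(ρ : ℝ) * θ j⌋ : ℝ) + (g j : ℝ))) with hcc
  set F : Finset (ℕ × (β → ℕ)) :=
    (range m) ×ˢ (Fintype.piFinset (fun _ : β => range (m + 1))) with hF
  set S : ℕ × (β → ℕ) → Finset ℕ := fun p =>
    (insert 0 ((Icc 1 R).filter (fun s : ℕ => ∃ z : ℤ,
      cc p.1 p.2 + ∑ j, v j * Int.fract ((s : ℝ) * θ j) = z))).image (fun s => m * s + p.1) with hS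
  have hsub : ((Icc 1 R).filter (fun r : ℕ => ∃ z : ℤ,
        c + lam * r + ∑ j, ζ j * Int.fract ((r : ℝ) * θ j) = z)) ⊆ F.biUnion S := by
    intro r hr
    rw [mem_filter, mem_Icc] at hr
    obtain ⟨⟨hr1, hr2⟩, z, hz⟩ := hr
    rw [mem_biUnion]
    set ρ := r % m with hρ
    set s := r / m with hs
    have hrs : m * s + ρ = r := Nat.div_add_mod r m
    have hrsR : (r : ℝ) = m * s + ρ := by rw [← hrs]; push_cast; ring
    have hρm : ρ < m := Nat.mod_lt _ hm
    set x : β → ℝ := fun j => Int.fract ((s : ℝ) * θ j) with hx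
    set f : β → ℤ := fun j => ⌊(m : ℝ) * x j + (ρ : ℝ) * θ j⌋ with hf
    have hx0 : ∀ j, 0 ≤ x j := fun j => Int.fract_nonneg _
    have hx1 : ∀ j, x j < 1 := fun j => Int.fract_lt_one _
    have hfl : ∀ j, ⌊(ρ : ℝ) * θ j⌋ ≤ f j := by
      intro j
      apply Int.floor_le_floor
      have := hx0 j
      have : 0 ≤ (m : ℝ) * x j := by positivity
      linarith
    have hfu : ∀ j, f j ≤ ⌊(ρ : ℝ) * θ j⌋ + m := by
      intro j
      have h1 : f j ≤ ⌊(ρ : ℝ) * θ j + (m : ℤ)⌋ := by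
        apply Int.floor_le_floor
        have := hx1 j
        push_cast
        nlinarith
      rwa [Int.floor_add_intCast] at h1
    have hfrac : ∀ j, Int.fract ((r : ℝ) * θ j) = (m : ℝ) * x j + (ρ : ℝ) * θ j - f j := by
      intro j
      have e1 : (r : ℝ) * θ j =
          ((m : ℝ) * x j + (ρ : ℝ) * θ j) + ((m * ⌊(s : ℝ) * θ j⌋ : ℤ) : ℝ) := by
        rw [hrsR, hx]
        simp only [Int.fract]
        push_cast
        ring
      rw [e1, Int.fract_add_intCast]
      rw [Int.fract]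
    set g : β → ℕ := fun j => (f j - ⌊(ρ : ℝ) * θ j⌋).toNat with hg
    have hgf : ∀ j, (g j : ℝ) = (f j : ℝ) - (⌊(ρ : ℝ) * θ j⌋ : ℝ) := by
      intro j
      have h1 : ((g j : ℕ) : ℤ) = f j - ⌊(ρ : ℝ) * θ j⌋ := by
        simp only [hg]
        exact Int.toNat_of_nonneg (by linarith [hfl j])
      exact_mod_cast h1
    refine ⟨(ρ, g), ?_, ?_⟩
    · rw [hF, mem_product]
      refine ⟨mem_range.2 hρm, ?_⟩
      rw [Fintype.mem_piFinset]
      intro j
      rw [mem_range]
      simp only [hg]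
      have := hfu j
      have := hfl j
      omega
    · simp only [hS]
      rw [mem_image]
      refine ⟨s, ?_, hrs⟩
      rw [mem_insert]
      by_cases hs0 : s = 0
      · exact Or.inl hs0
      · right
        rw [mem_filter, mem_Icc]
        refine ⟨⟨Nat.one_le_iff_ne_zero.2 hs0, (Nat.div_le_self r m).trans hr2⟩, ?_⟩
        refine ⟨z - w * s + ∑ j, k j * ⌊(s : ℝ) * θ j⌋, ?_⟩
        push_cast
        rw [← hz]
        simp only [hfrac]
        have e3 : ∀ j, (k j : ℝ) * (⌊(s : ℝ) * θ j⌋ : ℝ) = (k j : ℝ) * ((s : ℝ) * θ j) - k j * x j := by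
          intro j
          rw [hx]
          simp only [Int.fract]
          ring
        have e4 : ∑ j, (k j : ℝ) * (⌊(s : ℝ) * θ j⌋ : ℝ) =
            (s : ℝ) * (w - m * lam) - ∑ j, (k j : ℝ) * x j := by
          rw [Finset.sum_congr rfl (fun j _ => e3 j), Finset.sum_sub_distrib]
          congr 1
          have : (w : ℝ) - m * lam = ∑ j, (k j : ℝ) * θ j := by linarith
          rw [this, Finset.mul_sum]
          apply Finset.sum_congr rfl
          intro j _
          ring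
        rw [e4]
        have e5 : ∑ j, v j * Int.fract ((s : ℝ) * θ j) =
            ∑ j, (m : ℝ) * ζ j * x j - ∑ j, (k j : ℝ) * x j := by
          rw [← Finset.sum_sub_distrib]
          apply Finset.sum_congr rfl
          intro j _
          simp only [hv, hx]
          ring
        rw [e5]
        have e6 : cc ρ g = c + lam * ρ + ∑ j, ζ j * ((ρ : ℝ) * θ j - (f j : ℝ)) := by
          simp only [hcc]
          congr 1
          apply Finset.sum_congr rfl
          intro j _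
          rw [hgf j]
          ring
        rw [e6]
        have e7 : ∑ j, ζ j * ((m : ℝ) * x j + (ρ : ℝ) * θ j - (f j : ℝ)) =
            ∑ j, (m : ℝ) * ζ j * x j + ∑ j, ζ j * ((ρ : ℝ) * θ j - (f j : ℝ)) := by
          rw [← Finset.sum_add_distrib]
          apply Finset.sum_congr rfl
          intro j _
          ring
        rw [e7, hrsR]
        ring
  have hcard : F.card = m * (m + 1) ^ (Fintype.card β) := by
    rw [hF, card_product, card_range, Fintype.card_piFinset]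
    simp
  have hSc : ∀ p ∈ F, ((S p).card : ℝ) ≤ δ' * R + 1 := by
    intro p _
    have h1 : (S p).card ≤ ((Icc 1 R).filter (fun s : ℕ => ∃ z : ℤ,
      cc p.1 p.2 + ∑ j, v j * Int.fract ((s : ℝ) * θ j) = z)).card + 1 :=
      card_image_le.trans (card_insert_le _ _)
    have h2 := hR (cc p.1 p.2) v hvb hv0
    calc ((S p).card : ℝ) ≤ (((Icc 1 R).filter (fun s : ℕ => ∃ z : ℤ,
      cc p.1 p.2 + ∑ j, v j * Int.fract ((s : ℝ) * θ j) = z)).card : ℝ) + 1 := by exact_mod_cast h1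
      _ ≤ δ' * R + 1 := by linarith
  calc (((Icc 1 R).filter (fun r : ℕ => ∃ z : ℤ,
        c + lam * r + ∑ j, ζ j * Int.fract ((r : ℝ) * θ j) = z)).card : ℝ)
      ≤ ((F.biUnion S).card : ℝ) := by exact_mod_cast card_le_card hsub
    _ ≤ ∑ p ∈ F, ((S p).card : ℝ) := by exact_mod_cast card_biUnion_le
    _ ≤ ∑ _p ∈ F, (δ' * R + 1) := Finset.sum_le_sum hSc
    _ = (m : ℝ) * (m + 1) ^ (Fintype.card β) * (δ' * R + 1) := by
        rw [Finset.sum_const, hcard, nsmul_eq_mul]
        push_cast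
        ring
    _ ≤ ((K₁ : ℝ) + 1) ^ (Fintype.card β + 1) * (δ' * R + 1) := by
        apply mul_le_mul_of_nonneg_right _ (by positivity)
        rw [pow_succ, mul_comm]
        have h1 : (m : ℝ) ≤ K₁ := by exact_mod_cast hmK
        apply mul_le_mul
        · exact pow_le_pow_left₀ (by positivity) (by linarith) _
        · linarith
        · positivity
        · positivity

/-- Refinement of `T3.bracket_count` (file `MP_663568_t3/TBracket.lean`).  RECIPE: copy the proof of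
`bracket_count`.  Case A (`NR K₁ (fun o : Option β => o.elim lam θ)`) is `T3.bracket_caseA`,
unchanged.  In case B there is a relation `m * lam + ∑ j, k j * θ j = w` with `1 ≤ m ≤ K₁`,
`|k j| ≤ K₁`; the proof of `T3.bracket_caseB` uses its hypothesis `hirr` only to show that the
vector `v j = m * ζ j - k j` is not zero; here `v = 0` is excluded by the hypothesis `hbad` (take
`K = max K₁ K₂`).  So copy `bracket_caseB` as a private lemma with the hypothesis `v ≠ 0` instead of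
`hirr`. -/
theorem bracket_rel {β : Type} [Fintype β] (Z : ℝ) (hZ : 0 ≤ Z) (δ : ℝ) (hδ : 0 < δ) :
    ∃ K : ℕ, ∀ θ : β → ℝ, NR K θ → ∀ (lam c : ℝ) (ζ : β → ℝ), (∀ j, |ζ j| ≤ Z) →
      (∀ m : ℕ, 1 ≤ m → m ≤ K → ∀ k : β → ℤ, (∀ j, |k j| ≤ (K : ℤ)) → ∀ w : ℤ,
        (m : ℝ) * lam + ∑ j, (k j : ℝ) * θ j = w → ¬ ∀ j, (m : ℝ) * ζ j = k j) →
      Rare δ fun r => ∃ z : ℤ, c + lam * r + ∑ j, ζ j * Int.fract ((r : ℝ) * θ j) = z := by
  classical
  set d := Fintype.card β with hd
  obtain ⟨M, hM⟩ := exists_nat_ge ((d : ℝ) * Z + 1)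
  have hM1 : (1 : ℝ) ≤ M := by
    have : 0 ≤ (d : ℝ) * Z := by positivity
    linarith
  obtain ⟨K₀, hK₀⟩ := exists_nat_ge ((8 * (M : ℝ)) ^ d * 4 ^ (d + 1) * 2 / δ)
  set K₁ : ℕ := K₀ + 1 with hK₁
  have hK₁pos : 0 < K₁ := Nat.succ_pos _
  have hK₁R : (0 : ℝ) < K₁ := by exact_mod_cast hK₁pos
  have hK₁b : (8 * (M : ℝ)) ^ d * 4 ^ (d + 1) / K₁ ≤ δ / 2 := by
    rw [div_le_iff₀ hK₁R]
    have h1 : (8 * (M : ℝ)) ^ d * 4 ^ (d + 1) * 2 / δ ≤ K₁ := by
      rw [hK₁]; push_cast; linarith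
    rw [div_le_iff₀ hδ] at h1
    linarith
  set n : ℝ := 8 * K₁ * M with hn
  have hnpos : 0 < n := by rw [hn]; positivity
  set δ₁ : ℝ := δ / (2 * n ^ d) with hδ₁
  have hδ₁pos : 0 < δ₁ := by rw [hδ₁]; positivity
  set V : ℝ := K₁ * Z + K₁ with hV
  have hV0 : 0 ≤ V := by rw [hV]; positivity
  set W : ℝ := ((K₁ : ℝ) + 1) ^ (d + 1) with hW
  have hWpos : 0 < W := by rw [hW]; positivity
  set δ₂ : ℝ := δ / (2 * W) with hδ₂
  have hδ₂pos : 0 < δ₂ := by rw [hδ₂]; positivity
  obtain ⟨K₂, hK₂⟩ := hyper (β := β) V hV0 δ₂ hδ₂pos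
  refine ⟨max K₁ K₂, fun θ hθ lam c ζ hζ hbad => ?_⟩
  unfold Rare
  by_cases hA : NR K₁ (fun o : Option β => o.elim lam θ)
  · obtain ⟨R₀, hR₀⟩ := bracket_caseA Z hZ K₁ M hK₁pos hM δ₁ hδ₁pos θ lam hA
    refine ⟨R₀, fun R hR => (hR₀ R hR c ζ hζ).trans ?_⟩
    have e1 : n ^ d * (4 / (K₁ : ℝ)) ^ (d + 1) = (8 * (M : ℝ)) ^ d * 4 ^ (d + 1) / K₁ := by
      rw [hn, div_pow, mul_right_comm 8 (K₁ : ℝ) (M : ℝ), mul_pow (8 * (M : ℝ)) (K₁ : ℝ),
        pow_succ (K₁ : ℝ) d]
      field_simp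
    have e2 : n ^ d * δ₁ = δ / 2 := by
      rw [hδ₁]
      field_simp
    calc n ^ d * (((4 / (K₁ : ℝ)) ^ (d + 1) + δ₁) * R)
        = (n ^ d * (4 / (K₁ : ℝ)) ^ (d + 1) + n ^ d * δ₁) * R := by ring
      _ ≤ (δ / 2 + δ / 2) * R := by
          apply mul_le_mul_of_nonneg_right _ (Nat.cast_nonneg _)
          rw [e1, e2]
          linarith
      _ = δ * R := by ring
  · -- a relation
    obtain ⟨m, hm1, hmK, k, hk, w, hrel⟩ : ∃ m : ℕ, 1 ≤ m ∧ m ≤ K₁ ∧ ∃ k : β → ℤ,
        (∀ j, |k j| ≤ (K₁ : ℤ)) ∧ ∃ w : ℤ, (m : ℝ) * lam + ∑ j, (k j : ℝ) * θ j = w := by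
      unfold NR at hA
      push Not at hA
      obtain ⟨k', hk'0, hk', w', hw'⟩ := hA
      rw [Fintype.sum_option] at hw'
      simp only [Option.elim_none, Option.elim_some] at hw'
      have hne : k' none ≠ 0 := by
        intro h0
        have hk0 : (fun j : β => k' (some j)) ≠ 0 := by
          intro h1
          apply hk'0
          funext o
          cases o with
          | none => exact h0
          | some j => exact congrFun h1 j
        refine hθ (fun j => k' (some j)) hk0 (fun j => (hk' (some j)).trans ?_) w' ?_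
        · exact_mod_cast le_max_left K₁ K₂
        · rw [← hw', h0]
          push_cast
          ring
      rcases lt_or_gt_of_ne hne with hlt | hgt
      · refine ⟨(- k' none).toNat, ?_, ?_, fun j => - k' (some j), ?_, - w', ?_⟩
        · omega
        · have := hk' none
          rw [abs_of_neg hlt] at this
          omega
        · intro j
          rw [abs_neg]
          exact hk' (some j)
        · have e1 : (((- k' none).toNat : ℕ) : ℝ) = -(k' none : ℝ) := by
            have : (((- k' none).toNat : ℕ) : ℤ) = - k' none := Int.toNat_of_nonneg (by omega)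
            exact_mod_cast this
          rw [e1]
          push_cast
          rw [← hw']
          simp only [neg_mul, Finset.sum_neg_distrib]
          ring
      · refine ⟨(k' none).toNat, ?_, ?_, fun j => k' (some j), fun j => hk' (some j), w', ?_⟩
        · omega
        · have := hk' none
          rw [abs_of_pos hgt] at this
          omega
        · have e1 : (((k' none).toNat : ℕ) : ℝ) = (k' none : ℝ) := by
            have : (((k' none).toNat : ℕ) : ℤ) = k' none := Int.toNat_of_nonneg (by omega)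
            exact_mod_cast this
          rw [e1, ← hw']
    obtain ⟨R₁, hR₁⟩ := hK₂ θ (hθ.anti (le_max_right _ _))
    obtain ⟨R₂, hR₂⟩ := exists_nat_ge (2 * W / δ)
    refine ⟨max R₁ R₂, fun R hR => ?_⟩
    have hb : ¬ ∀ j, (m : ℝ) * ζ j = k j :=
      hbad m hm1 (hmK.trans (le_max_left _ _)) k
        (fun j => (hk j).trans (by exact_mod_cast le_max_left K₁ K₂)) w hrel
    have h1 := bracket_caseB' Z K₁ θ lam m hm1 hmK k hk w hrel δ₂ R
      (hR₁ R ((le_max_left _ _).trans hR)) c ζ hζ hb hZ hδ₂pos.le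
    refine h1.trans ?_
    have hRR : 2 * W / δ ≤ R := hR₂.trans (by exact_mod_cast (le_max_right _ _).trans hR)
    rw [div_le_iff₀ hδ] at hRR
    have e2 : W * δ₂ = δ / 2 := by
      rw [hδ₂]; field_simp
    calc W * (δ₂ * R + 1) = (W * δ₂) * R + W := by ring
      _ ≤ δ * R := by
        rw [e2]
        linarith

end Pool.Agent.Lib.MP_663568_nt.E
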