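import Pool.Agent.Lib.MP_663568_e.EDefs

/-!
Row E02: a rational basis of finitely many real numbers.
-/

set_option autoImplicit false
open Finset

namespace Pool.Agent.Lib.MP_663568_nt.E

open Katai Nul T3

private lemma bas_step {α α' : Type} [Fintype α] [Fintype α'] [DecidableEq α'] (K L : ℕ)
    (θ : α → ℝ) (θ' : α' → ℝ) (J : Finset α') (D : ℕ) (a : α' → α → ℤ) (a' : α' → α' → ℤ)
    (w : α' → ℤ) (h : Bas K θ θ' J D a a' w) (hNR : NR L θ) (hn : ¬ NRJ L θ θ' J) :
    ∃ j₀ ∈ J, ∃ (D₁ : ℕ) (a₁ : α' → α → ℤ) (a₁' : α' → α' → ℤ) (w₁ : α' → ℤ),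
      Bas (2 * K * L) θ θ' (J.erase j₀) D₁ a₁ a₁' w₁ := by
  classical
  obtain ⟨hD1, hDK, ha, ha', haJ, hrel⟩ := h
  unfold NRJ NR at hn
  push Not at hn
  obtain ⟨q, hq0, hqL, z, hz⟩ := hn
  set q₁ : α → ℤ := fun i => q (Sum.inl i) with hq₁
  set q₂ : α' → ℤ := fun j => if h : j ∈ J then q (Sum.inr ⟨j, h⟩) else 0 with hq₂
  have hq₁L : ∀ i, |q₁ i| ≤ (L : ℤ) := fun i => hqL _
  have hq₂L : ∀ i, |q₂ i| ≤ (L : ℤ) := by
    intro i
    rw [hq₂]
    simp only
    by_cases h : i ∈ J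
    · rw [dif_pos h]; exact hqL _
    · rw [dif_neg h, abs_zero]; positivity
  have hq₂J : ∀ i, i ∉ J → q₂ i = 0 := fun i hi => dif_neg hi
  have hrel0 : ∑ i, (q₁ i : ℝ) * θ i + ∑ j, (q₂ j : ℝ) * θ' j = z := by
    rw [← hz, Fintype.sum_sum_type]
    congr 1
    simp only [Sum.elim_inr]
    rw [← sum_subset (subset_univ J) (fun j _ hj => by rw [hq₂J j hj]; simp)]
    rw [← sum_coe_sort J]
    refine sum_congr rfl fun j _ => ?_
    rw [hq₂]
    simp only
    rw [dif_pos j.2]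
  obtain ⟨j₀, hj₀J, hj₀⟩ : ∃ j₀ ∈ J, q₂ j₀ ≠ 0 := by
    by_contra hcon
    push Not at hcon
    have h2 : ∀ j, q₂ j = 0 := fun j => by
      by_cases hj : j ∈ J
      · exact hcon j hj
      · exact hq₂J j hj
    have h3 : q₁ = 0 := by
      by_contra h4
      refine hNR q₁ h4 hq₁L z ?_
      rw [← hrel0]
      simp [h2]
    apply hq0
    funext j
    rcases j with j | j
    · exact congrFun h3 j
    · have := h2 j.1
      rw [hq₂] at this
      simp only [dif_pos j.2] at this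
      exact this
  obtain ⟨σ, hσ1, hσc⟩ : ∃ σ : ℤ, |σ| = 1 ∧ σ * q₂ j₀ = ((q₂ j₀).natAbs : ℤ) := by
    rcases lt_or_gt_of_ne hj₀ with h | h
    · exact ⟨-1, by simp, by omega⟩
    · exact ⟨1, by simp, by omega⟩
  set c : ℕ := (q₂ j₀).natAbs with hc
  have hc1 : 1 ≤ c := Nat.one_le_iff_ne_zero.2 (by rw [hc]; exact Int.natAbs_ne_zero.2 hj₀)
  have hcL : c ≤ L := by
    have := hq₂L j₀
    rw [Int.abs_eq_natAbs] at this
    exact_mod_cast this
  have hcLz : (c : ℤ) ≤ L := by exact_mod_cast hcL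
  have hDz : (D : ℤ) ≤ K := by exact_mod_cast hDK
  have hK0 : (0 : ℤ) ≤ K := Int.natCast_nonneg _
  have hL0 : (0 : ℤ) ≤ L := Int.natCast_nonneg _
  have hKL : (0 : ℤ) ≤ K * L := mul_nonneg hK0 hL0
  have hbA : ∀ x y u : ℤ, |x| ≤ K → |y| ≤ K → |u| ≤ L → |(c : ℤ) * x - σ * y * u| ≤ 2 * K * L := by
    intro x y u hx hy hu
    calc |(c : ℤ) * x - σ * y * u| ≤ |(c : ℤ) * x| + |σ * y * u| := abs_sub _ _
      _ = c * |x| + |y| * |u| := by
          rw [abs_mul, abs_mul, abs_mul, hσ1, one_mul, abs_of_nonneg (Int.natCast_nonneg c)]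
      _ ≤ L * K + K * L := add_le_add (mul_le_mul hcLz hx (abs_nonneg _) hL0)
          (mul_le_mul hy hu (abs_nonneg _) hK0)
      _ = 2 * K * L := by ring
  have hbB : ∀ u : ℤ, |u| ≤ L → |-((D : ℤ) * σ * u)| ≤ 2 * K * L := by
    intro u hu
    rw [abs_neg, abs_mul, abs_mul, hσ1, mul_one, abs_of_nonneg (Int.natCast_nonneg D)]
    calc (D : ℤ) * |u| ≤ K * L := mul_le_mul hDz hu (abs_nonneg _) hK0
      _ ≤ 2 * K * L := by nlinarith
  refine ⟨j₀, hj₀J, D * c, fun j i => if j = j₀ then -((D : ℤ) * σ * q₁ i) else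
      c * a j i - σ * a' j j₀ * q₁ i,
    fun j i => if j = j₀ then (if i = j₀ then 0 else -((D : ℤ) * σ * q₂ i)) else
      c * a' j i - σ * a' j j₀ * q₂ i,
    fun j => if j = j₀ then (D : ℤ) * σ * z else c * w j + σ * a' j j₀ * z, ?_, ?_, ?_, ?_, ?_, ?_⟩
  · exact Nat.mul_pos hD1 hc1
  · calc D * c ≤ K * L := Nat.mul_le_mul hDK hcL
      _ ≤ 2 * K * L := by nlinarith [Nat.zero_le (K * L)]
  · intro j i
    push_cast
    by_cases hj : j = j₀
    · simp only [hj, if_true]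
      exact hbB _ (hq₁L i)
    · simp only [if_neg hj]
      exact hbA _ _ _ (ha j i) (ha' j j₀) (hq₁L i)
  · intro j i
    push_cast
    by_cases hj : j = j₀
    · simp only [hj, if_true]
      by_cases hi : i = j₀
      · simp only [hi, if_true, abs_zero]
        nlinarith
      · simp only [if_neg hi]
        exact hbB _ (hq₂L i)
    · simp only [if_neg hj]
      exact hbA _ _ _ (ha' j i) (ha' j j₀) (hq₂L i)
  · intro j i hi
    by_cases hj : j = j₀
    · simp only [hj, if_true]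
      by_cases hi' : i = j₀
      · simp only [hi', if_true]
      · simp only [if_neg hi']
        have : i ∉ J := fun h => hi (mem_erase.2 ⟨hi', h⟩)
        rw [hq₂J i this]
        ring
    · simp only [if_neg hj]
      by_cases hi' : i = j₀
      · rw [hi', ← hσc]
        ring
      · have : i ∉ J := fun h => hi (mem_erase.2 ⟨hi', h⟩)
        rw [hq₂J i this, haJ j i this]
        ring
  · intro j hj
    have hσr : (σ : ℝ) * (q₂ j₀ : ℝ) = (c : ℝ) := by exact_mod_cast hσc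
    by_cases hj' : j = j₀
    · subst hj'
      simp only [if_true]
      have h1 : ∑ i, (q₂ i : ℝ) * θ' i = (q₂ j : ℝ) * θ' j +
          ∑ i, ((if i = j then 0 else q₂ i : ℤ) : ℝ) * θ' i := by
        rw [← add_sum_erase univ (fun i => (q₂ i : ℝ) * θ' i) (mem_univ j)]
        rw [← add_sum_erase univ (fun i => ((if i = j then 0 else q₂ i : ℤ) : ℝ) * θ' i)
          (mem_univ j)]
        simp only [if_true, Int.cast_zero, zero_mul, zero_add]
        congr 1
        refine sum_congr rfl fun i hi => ?_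
        rw [if_neg (mem_erase.1 hi).1]
      have h2 : ∑ i, ((if i = j then 0 else -((D : ℤ) * σ * q₂ i) : ℤ) : ℝ) * θ' i =
          -((D : ℝ) * σ) * ∑ i, ((if i = j then 0 else q₂ i : ℤ) : ℝ) * θ' i := by
        rw [mul_sum]
        refine sum_congr rfl fun i _ => ?_
        split_ifs
        · simp
        · push_cast; ring
      have h3 : ∑ i, ((-((D : ℤ) * σ * q₁ i) : ℤ) : ℝ) * θ i =
          -((D : ℝ) * σ) * ∑ i, (q₁ i : ℝ) * θ i := by
        rw [mul_sum]
        refine sum_congr rfl fun i _ => ?_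
        push_cast; ring
      rw [h2, h3]
      rw [h1] at hrel0
      generalize (∑ i, ((if i = j then 0 else q₂ i : ℤ) : ℝ) * θ' i) = S2 at hrel0 ⊢
      push_cast
      rw [← hσr]
      linear_combination ((D : ℝ) * σ) * hrel0
    · simp only [if_neg hj']
      have hjJ : j ∉ J := fun h => hj (mem_erase.2 ⟨hj', h⟩)
      have h1 := hrel j hjJ
      have h2 : ∑ i, (((c : ℤ) * a j i - σ * a' j j₀ * q₁ i : ℤ) : ℝ) * θ i =
          c * ∑ i, (a j i : ℝ) * θ i - σ * a' j j₀ * ∑ i, (q₁ i : ℝ) * θ i := by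
        rw [mul_sum, mul_sum, ← sum_sub_distrib]
        refine sum_congr rfl fun i _ => ?_
        push_cast; ring
      have h3 : ∑ i, (((c : ℤ) * a' j i - σ * a' j j₀ * q₂ i : ℤ) : ℝ) * θ' i =
          c * ∑ i, (a' j i : ℝ) * θ' i - σ * a' j j₀ * ∑ i, (q₂ i : ℝ) * θ' i := by
        rw [mul_sum, mul_sum, ← sum_sub_distrib]
        refine sum_congr rfl fun i _ => ?_
        push_cast; ring
      rw [h2, h3]
      push_cast
      linear_combination (c : ℝ) * h1 + (σ : ℝ) * (a' j j₀ : ℝ) * hrel0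

private def kseq (f : ℕ → ℕ) : ℕ → ℕ
  | 0 => 1
  | n + 1 => 2 * kseq f n * f (kseq f n)

/-- RECIPE: induction on the number of elements of `J`.  Claim for `n`: for every `K` there is
`Kmax ≥ K` such that every `Bas K θ θ' J D a a' w` with `J.card = n` and `NR Kmax θ` gives a
`Bas K₀ …` with `K ≤ K₀ ≤ Kmax` and `NRJ (f K₀) θ θ' J₀`.  If `NRJ (f K) θ θ' J` we are done with
`K₀ = K`.  Otherwise there are `q ≠ 0` on `α ⊕ J`, `|q| ≤ f K`, and `z` with
`∑ q · (θ, θ'_J) = z`; if `q` vanished on `J` it would be a relation of `θ` with coefficients at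
most `f K ≤ Kmax`, so `q j₀ ≠ 0` for some `j₀ ∈ J`; `q j₀ * θ' j₀ = z - ∑ others`.  Put
`J₁ = J.erase j₀`, `D₁ = D * |q j₀|`, and for `j ∉ J` the new coefficients are
`|q j₀| * a j i - sgn (q j₀) * a' j j₀ * q i`, for `j₀` they are `- D * sgn (q j₀) * q i`
(similarly `w`); everything is at most `K₁ = 2 * K * f K + K + f K` (any explicit bound which is
`≥ 1` works).  Start with `J = univ`, `D = 1`, `K = 1`, `a = a' = 0`, `w = 0` (`Bas 1`: the condition
for `j ∉ univ` is empty).  Note that `a' j i = 0` for `i ∉ J` must be kept. -/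
theorem exists_bas {α α' : Type} [Fintype α] [Fintype α'] [DecidableEq α'] (f : ℕ → ℕ) :
    ∃ Kmax : ℕ, ∀ (θ : α → ℝ) (θ' : α' → ℝ), NR Kmax θ →
      ∃ K₀ : ℕ, K₀ ≤ Kmax ∧ ∃ (J : Finset α') (D : ℕ) (a : α' → α → ℤ) (a' : α' → α' → ℤ)
        (w : α' → ℤ), Bas K₀ θ θ' J D a a' w ∧ NRJ (f K₀) θ θ' J := by
  classical
  set N : ℕ := Fintype.card α' with hN
  refine ⟨∑ i ∈ range (N + 1), (kseq f i + f (kseq f i)), fun θ θ' hθ => ?_⟩
  have hle : ∀ i, i ≤ N → kseq f i + f (kseq f i) ≤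
      ∑ i ∈ range (N + 1), (kseq f i + f (kseq f i)) := fun i hi =>
    single_le_sum (f := fun i => kseq f i + f (kseq f i)) (fun _ _ => Nat.zero_le _)
      (mem_range.2 (Nat.lt_succ_of_le hi))
  have main : ∀ (n : ℕ) (J : Finset α'), J.card = n → ∀ i, i + n ≤ N →
      ∀ (D : ℕ) (a : α' → α → ℤ) (a' : α' → α' → ℤ) (w : α' → ℤ),
      Bas (kseq f i) θ θ' J D a a' w →
      ∃ K₀ : ℕ, K₀ ≤ ∑ i ∈ range (N + 1), (kseq f i + f (kseq f i)) ∧
        ∃ (J : Finset α') (D : ℕ) (a : α' → α → ℤ) (a' : α' → α' → ℤ)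
        (w : α' → ℤ), Bas K₀ θ θ' J D a a' w ∧ NRJ (f K₀) θ θ' J := by
    intro n
    induction n with
    | zero =>
      intro J hJ i hi D a a' w hB
      refine ⟨kseq f i, (Nat.le_add_right _ _).trans (hle i (by omega)), J, D, a, a', w, hB, ?_⟩
      rw [card_eq_zero] at hJ
      subst hJ
      intro q hq hqL z hz
      have hNR : NR (f (kseq f i)) θ := fun k hk hkK =>
        hθ k hk fun j => (hkK j).trans (by
          exact_mod_cast (Nat.le_add_left _ _).trans (hle i (by omega)))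
      refine hNR (fun j => q (Sum.inl j)) ?_ (fun j => hqL _) z ?_
      · intro h0
        apply hq
        funext j
        rcases j with j | j
        · exact congrFun h0 j
        · exact absurd j.2 (notMem_empty _)
      · rw [← hz, Fintype.sum_sum_type]
        simp
    | succ n ih =>
      intro J hJ i hi D a a' w hB
      by_cases hNRJ : NRJ (f (kseq f i)) θ θ' J
      · exact ⟨kseq f i, (Nat.le_add_right _ _).trans (hle i (by omega)), J, D, a, a', w, hB,
          hNRJ⟩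
      · have hNR : NR (f (kseq f i)) θ := fun k hk hkK =>
          hθ k hk fun j => (hkK j).trans (by
            exact_mod_cast (Nat.le_add_left _ _).trans (hle i (by omega)))
        obtain ⟨j₀, hj₀, D₁, a₁, a₁', w₁, hB₁⟩ := bas_step (kseq f i) (f (kseq f i)) θ θ' J D a a' w
          hB hNR hNRJ
        refine ih (J.erase j₀) ?_ (i + 1) (by omega) D₁ a₁ a₁' w₁ hB₁
        rw [card_erase_of_mem hj₀, hJ]
        rfl
  refine main N univ (by rw [card_univ]) 0 (by omega) 1 (fun _ _ => 0) (fun _ _ => 0)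
    (fun _ => 0) ?_
  refine ⟨le_rfl, le_rfl, fun _ _ => ?_, fun _ _ => ?_, fun _ _ _ => rfl, fun j hj =>
    absurd (mem_univ j) hj⟩
  · rw [abs_zero]; exact Int.natCast_nonneg _
  · rw [abs_zero]; exact Int.natCast_nonneg _

end Pool.Agent.Lib.MP_663568_nt.E
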