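import Pool.Agent.Lib.MP_663568_e.EDefs

/-!
Row E03: reduction of a bracket event to a rational basis.
-/

set_option autoImplicit false
open Finset

namespace Pool.Agent.Lib.MP_663568_nt.E

open Katai Nul T3

/-- fractional part of a multiple plus a remainder -/
private lemma fract_mul_add (D s ρ : ℕ) (t : ℝ) : ∃ g : ℤ, |g| ≤ (D : ℤ) + 1 ∧
    Int.fract (((D * s + ρ : ℕ) : ℝ) * t) =
      (D : ℝ) * Int.fract ((s : ℝ) * t) + Int.fract ((ρ : ℝ) * t) - g := by
  set x : ℝ := ((D * s + ρ : ℕ) : ℝ) * t with hx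
  set y : ℝ := (s : ℝ) * t with hy
  set z : ℝ := (ρ : ℝ) * t with hz
  have h1 : Int.fract x = (D : ℝ) * Int.fract y + Int.fract z -
      ((⌊x⌋ - (D : ℤ) * ⌊y⌋ - ⌊z⌋ : ℤ) : ℝ) := by
    have e1 := Int.fract_add_floor x
    have e2 := Int.fract_add_floor y
    have e3 := Int.fract_add_floor z
    have e4 : x = (D : ℝ) * y + z := by
      rw [hx, hy, hz]
      push_cast
      ring
    push_cast
    linear_combination e1 - (D : ℝ) * e2 - e3 + e4
  refine ⟨⌊x⌋ - (D : ℤ) * ⌊y⌋ - ⌊z⌋, ?_, h1⟩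
  have hD : (0 : ℝ) ≤ (D : ℝ) := Nat.cast_nonneg _
  have b1 := Int.fract_nonneg x
  have b2 := Int.fract_lt_one x
  have b3 := mul_nonneg hD (Int.fract_nonneg y)
  have b4 := mul_le_mul_of_nonneg_left (Int.fract_lt_one y).le hD
  have b5 := Int.fract_nonneg z
  have b6 := Int.fract_lt_one z
  set g : ℤ := ⌊x⌋ - (D : ℤ) * ⌊y⌋ - ⌊z⌋ with hg
  have c1 : (g : ℝ) < (D : ℝ) + 1 := by linarith
  have c2 : (-1 : ℝ) < (g : ℝ) := by linarith
  have d1 : g < (D : ℤ) + 1 := by exact_mod_cast c1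
  have d2 : (-1 : ℤ) < g := by exact_mod_cast c2
  rw [abs_le]
  constructor <;> omega

/-- a bound for an integral combination of fractional parts -/
private lemma abs_sum_fract_le {ι : Type} [Fintype ι] (K : ℕ) (u : ι → ℤ)
    (hu : ∀ i, |u i| ≤ (K : ℤ)) (t : ι → ℝ) :
    |∑ i, (u i : ℝ) * Int.fract (t i)| ≤ (Fintype.card ι : ℝ) * K := by
  refine (abs_sum_le_sum_abs _ _).trans ?_
  have h1 : ∀ i ∈ (univ : Finset ι), |(u i : ℝ) * Int.fract (t i)| ≤ (K : ℝ) := by
    intro i _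
    rw [abs_mul]
    have h2 : |(u i : ℝ)| ≤ (K : ℝ) := by
      have := hu i
      exact_mod_cast this
    have h3 : |Int.fract (t i)| ≤ 1 := by
      rw [abs_of_nonneg (Int.fract_nonneg _)]
      exact (Int.fract_lt_one _).le
    calc |(u i : ℝ)| * |Int.fract (t i)| ≤ (K : ℝ) * 1 :=
          mul_le_mul h2 h3 (abs_nonneg _) (Nat.cast_nonneg _)
      _ = K := mul_one _
  refine (sum_le_card_nsmul _ _ _ h1).trans ?_
  rw [nsmul_eq_mul, card_univ]

/-- fractional part of a rational combination -/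
private lemma fract_comb {α α' : Type} [Fintype α] [Fintype α'] (K : ℕ) (u : α → ℤ) (u' : α' → ℤ)
    (hu : ∀ i, |u i| ≤ (K : ℤ)) (hu' : ∀ i, |u' i| ≤ (K : ℤ)) (θ : α → ℝ) (θ' : α' → ℝ)
    (w : ℤ) (D s ρ : ℕ) (t : ℝ)
    (ht : (D : ℝ) * t = ∑ i, (u i : ℝ) * θ i + ∑ i, (u' i : ℝ) * θ' i + w) :
    ∃ g : ℤ, |g| ≤ ((Fintype.card α + Fintype.card α') * K : ℕ) + 1 ∧
    Int.fract (((D * s + ρ : ℕ) : ℝ) * t) =
      ∑ i, (u i : ℝ) * Int.fract ((s : ℝ) * θ i) + ∑ i, (u' i : ℝ) * Int.fract ((s : ℝ) * θ' i)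
        + Int.fract ((ρ : ℝ) * t) - g := by
  set x : ℝ := ((D * s + ρ : ℕ) : ℝ) * t with hx
  set z : ℝ := (ρ : ℝ) * t with hz
  have f1 : ∑ i, (u i : ℝ) * Int.fract ((s : ℝ) * θ i)
      = s * ∑ i, (u i : ℝ) * θ i - ((∑ i, u i * ⌊(s : ℝ) * θ i⌋ : ℤ) : ℝ) := by
    push_cast
    rw [mul_sum, ← sum_sub_distrib]
    refine sum_congr rfl fun i _ => ?_
    rw [Int.fract]
    ring
  have f2 : ∑ i, (u' i : ℝ) * Int.fract ((s : ℝ) * θ' i)
      = s * ∑ i, (u' i : ℝ) * θ' i - ((∑ i, u' i * ⌊(s : ℝ) * θ' i⌋ : ℤ) : ℝ) := by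
    push_cast
    rw [mul_sum, ← sum_sub_distrib]
    refine sum_congr rfl fun i _ => ?_
    rw [Int.fract]
    ring
  have b0 := abs_sum_fract_le K u hu fun i => (s : ℝ) * θ i
  have b0' := abs_sum_fract_le K u' hu' fun i => (s : ℝ) * θ' i
  set S1 : ℝ := ∑ i, (u i : ℝ) * Int.fract ((s : ℝ) * θ i) with hS1
  set S2 : ℝ := ∑ i, (u' i : ℝ) * Int.fract ((s : ℝ) * θ' i) with hS2
  set N1 : ℤ := ∑ i, u i * ⌊(s : ℝ) * θ i⌋ with hN1
  set N2 : ℤ := ∑ i, u' i * ⌊(s : ℝ) * θ' i⌋ with hN2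
  have h1 : Int.fract x = S1 + S2 + Int.fract z - ((⌊x⌋ - N1 - N2 - s * w - ⌊z⌋ : ℤ) : ℝ) := by
    have e1 := Int.fract_add_floor x
    have e3 := Int.fract_add_floor z
    have e4 : x = (s : ℝ) * ((D : ℝ) * t) + z := by
      rw [hx, hz]
      push_cast
      ring
    rw [ht] at e4
    push_cast
    linear_combination e1 - e3 + e4 - f1 - f2
  refine ⟨⌊x⌋ - N1 - N2 - s * w - ⌊z⌋, ?_, h1⟩
  have b1 := Int.fract_nonneg x
  have b2 := Int.fract_lt_one x
  have b5 := Int.fract_nonneg z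
  have b6 := Int.fract_lt_one z
  set g : ℤ := ⌊x⌋ - N1 - N2 - s * w - ⌊z⌋ with hg
  rw [abs_le] at b0 b0'
  have hc : (((Fintype.card α + Fintype.card α') * K : ℕ) : ℝ)
      = (Fintype.card α : ℝ) * K + (Fintype.card α' : ℝ) * K := by
    push_cast
    ring
  have c1 : (g : ℝ) < (((Fintype.card α + Fintype.card α') * K : ℕ) : ℝ) + 1 := by
    rw [hc]
    linarith [b0.2, b0'.2]
  have c2 : -((((Fintype.card α + Fintype.card α') * K : ℕ) : ℝ) + 1) < (g : ℝ) := by
    rw [hc]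
    linarith [b0.1, b0'.1]
  have d1 : g < (((Fintype.card α + Fintype.card α') * K : ℕ) : ℤ) + 1 := by exact_mod_cast c1
  have d2 : -((((Fintype.card α + Fintype.card α') * K : ℕ) : ℤ) + 1) < g := by exact_mod_cast c2
  rw [abs_le]
  exact ⟨d2.le, d1.le⟩

/-- the event for `r` in a fixed residue class, in terms of the quotient -/
private lemma rare_div (D ρ : ℕ) {δ' : ℝ} (hδ' : 0 < δ') {P : ℕ → Prop} (h : Rare δ' P) :
    Rare (2 * δ') fun r => r % D = ρ ∧ P (r / D) := by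
  classical
  obtain ⟨R₀, h⟩ := h
  obtain ⟨Q, hQ⟩ : ∃ Q : ℕ → Prop, Q = fun r => r % D = ρ ∧ P (r / D) := ⟨_, rfl⟩
  rw [← hQ]
  refine ⟨max R₀ ⌈1 / δ'⌉₊, fun R hR => ?_⟩
  have h1 := h R ((le_max_left _ _).trans hR)
  have h2 : 1 / δ' ≤ (R : ℝ) := (Nat.le_ceil _).trans (by exact_mod_cast (le_max_right _ _).trans hR)
  have h3 : 1 ≤ δ' * R := by
    rw [div_le_iff₀ hδ'] at h2
    linarith
  have h4 : ((Icc 1 R).filter fun r => Q r).card ≤
      ((Icc 1 R).filter fun s => P s).card + 1 := by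
    have h5 : ((Icc 1 R).filter fun r => Q r).card ≤
        (insert 0 ((Icc 1 R).filter fun s => P s)).card := by
      refine card_le_card_of_injOn (fun r => r / D) ?_ ?_
      · intro r hr
        rw [mem_coe, mem_filter, mem_Icc, hQ] at hr
        rw [mem_coe, mem_insert, mem_filter, mem_Icc]
        by_cases h0 : r / D = 0
        · exact Or.inl h0
        · exact Or.inr ⟨⟨Nat.one_le_iff_ne_zero.2 h0, (Nat.div_le_self _ _).trans hr.1.2⟩, hr.2.2⟩
      · intro r hr r' hr' hrr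
        rw [mem_coe, mem_filter, hQ] at hr hr'
        have e1 := Nat.div_add_mod r D
        have e2 := Nat.div_add_mod r' D
        simp only at hrr
        rw [hrr, hr.2.1] at e1
        rw [hr'.2.1] at e2
        exact e1.symm.trans e2
    exact h5.trans (card_insert_le _ _)
  have h6 : (((Icc 1 R).filter fun r => Q r).card : ℝ) ≤
      (((Icc 1 R).filter fun s => P s).card : ℝ) + 1 := by exact_mod_cast h4
  linarith

/-- RECIPE (same technique as `T3.bracket_caseB` in `MP_663568_t3/TBracket.lean`): write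
`r = D s + ρ`, `0 ≤ ρ < D`.  For `i : α`: `r θ i = D (s θ i) + ρ θ i`, hence
`fract (r θ i) = D fract (s θ i) + ρ θ i - ⌊ρ θ i⌋ - g i` with an integer `g i ∈ [0, D]`
(because `D fract (s θ i) + fract (ρ θ i)` differs from `fract (r θ i)` by an integer and lies in
`[0, D + 1)`); the same for `θ' i`, `i ∈ J`.  For `j ∉ J` by `Bas`
`r θ' j = s (∑ a j i θ i + ∑ a' j i θ' i + w j) + ρ θ' j`, so
`fract (r θ' j) = ∑ a j i fract (s θ i) + ∑ a' j i fract (s θ' i) + ρ θ' j - ⌊ρ θ' j⌋ - g' j` with an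
integer `g' j`, `|g' j| ≤ (card α + card α') K₀ + 1`.  So the number `r` is in the event iff `s` is
in the event for `(θ, θ'_J)` with `lam` replaced by `D lam`, the coefficients `red1`, `red2` and a
constant `c'` depending on `ρ`, `g`, `g'` only: finitely many constants, at most
`C = K₀ * (2 * ((card α + card α') * K₀ + 2) + 1) ^ (card α + card α')` of them.  Each has at most
`δ' * R` solutions `s ≤ R` for large `R`, plus `s = 0`; and `δ' * R + 1 ≤ 2 * δ' * R` for large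
`R`.  (Take `2 * C` for the constant of the statement.) -/
theorem red_bas {α α' : Type} [Fintype α] [Fintype α'] [DecidableEq α'] (K₀ : ℕ) :
    ∃ C : ℕ, ∀ (θ : α → ℝ) (θ' : α' → ℝ) (J : Finset α') (D : ℕ) (a : α' → α → ℤ)
      (a' : α' → α' → ℤ) (w : α' → ℤ), Bas K₀ θ θ' J D a a' w →
      ∀ (lam c : ℝ) (ζ : α → ℝ) (ζ' : α' → ℝ) (δ' : ℝ), 0 < δ' →
      (∀ c' : ℝ, Rare δ' fun s => ∃ z : ℤ, c' + (D * lam) * s +
        ∑ i, red1 J D a ζ ζ' i * Int.fract ((s : ℝ) * θ i) +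
        ∑ i ∈ J, red2 J D a' ζ' i * Int.fract ((s : ℝ) * θ' i) = z) →
      Rare (C * δ') fun r => ∃ z : ℤ, c + lam * r + ∑ i, ζ i * Int.fract ((r : ℝ) * θ i) +
        ∑ i, ζ' i * Int.fract ((r : ℝ) * θ' i) = z := by
  classical
  set B : ℕ := (Fintype.card α + Fintype.card α') * K₀ + K₀ + 1 with hB
  refine ⟨2 * (K₀ * ((2 * B + 1) ^ Fintype.card α * (2 * B + 1) ^ Fintype.card α')), ?_⟩
  intro θ θ' J D a a' w hbas lam c ζ ζ' δ' hδ' hR
  obtain ⟨hD1, hDK, ha, ha', ha0, hrel⟩ := hbas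
  set T : Finset (ℕ × (α → ℤ) × (α' → ℤ)) := range D ×ˢ
    ((Fintype.piFinset fun _ : α => Icc (-(B : ℤ)) B) ×ˢ
      (Fintype.piFinset fun _ : α' => Icc (-(B : ℤ)) B)) with hT
  set cst : ℕ × (α → ℤ) × (α' → ℤ) → ℝ := fun p => c + lam * p.1 +
    ∑ i, ζ i * (Int.fract ((p.1 : ℝ) * θ i) - p.2.1 i) +
    ∑ i, ζ' i * (Int.fract ((p.1 : ℝ) * θ' i) - p.2.2 i) with hcst
  have hI : (Icc (-(B : ℤ)) B).card = 2 * B + 1 := by
    rw [Int.card_Icc]
    omega
  have hcard : T.card ≤ K₀ * ((2 * B + 1) ^ Fintype.card α * (2 * B + 1) ^ Fintype.card α') := by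
    rw [hT, card_product, card_product, card_range, Fintype.card_piFinset,
      Fintype.card_piFinset, prod_const, prod_const, card_univ, card_univ, hI]
    exact Nat.mul_le_mul_right _ hDK
  have h1 := Rare.bunion T (δ := fun _ => 2 * δ') (P := fun p r => r % D = p.1 ∧
      ∃ z : ℤ, cst p + (D * lam) * (r / D : ℕ) +
        ∑ i, red1 J D a ζ ζ' i * Int.fract (((r / D : ℕ) : ℝ) * θ i) +
        ∑ i ∈ J, red2 J D a' ζ' i * Int.fract (((r / D : ℕ) : ℝ) * θ' i) = z)
    (fun p _ => rare_div D p.1 hδ' (hR (cst p)))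
  refine h1.mono ?_ ?_
  · rw [sum_const, nsmul_eq_mul]
    push_cast
    have h2 : (T.card : ℝ) ≤ (K₀ : ℝ) * ((2 * (B : ℝ) + 1) ^ Fintype.card α *
        (2 * (B : ℝ) + 1) ^ Fintype.card α') := by exact_mod_cast hcard
    calc (T.card : ℝ) * (2 * δ') = (2 * (T.card : ℝ)) * δ' := by ring
      _ ≤ _ := by
        refine mul_le_mul_of_nonneg_right ?_ hδ'.le
        exact mul_le_mul_of_nonneg_left h2 (by norm_num)
  · rintro r - ⟨z, hz⟩
    set s : ℕ := r / D with hs
    set ρ : ℕ := r % D with hρ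
    have hr : r = D * s + ρ := (Nat.div_add_mod r D).symm
    have hρD : ρ < D := Nat.mod_lt _ hD1
    -- the integers
    choose g hg1 hg2 using fun i : α => fract_mul_add D s ρ (θ i)
    have hg' : ∀ j : α', ∃ g : ℤ, |g| ≤ (B : ℤ) ∧
        Int.fract (((D * s + ρ : ℕ) : ℝ) * θ' j) =
          (if j ∈ J then (D : ℝ) * Int.fract ((s : ℝ) * θ' j) else
            ∑ i, (a j i : ℝ) * Int.fract ((s : ℝ) * θ i) +
              ∑ i, (a' j i : ℝ) * Int.fract ((s : ℝ) * θ' i)) +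
          Int.fract ((ρ : ℝ) * θ' j) - g := by
      intro j
      by_cases hj : j ∈ J
      · obtain ⟨g, h2, h3⟩ := fract_mul_add D s ρ (θ' j)
        refine ⟨g, h2.trans ?_, ?_⟩
        · rw [hB]
          push_cast
          have : (0 : ℤ) ≤ ((Fintype.card α : ℤ) + (Fintype.card α' : ℤ)) * (K₀ : ℤ) := by positivity
          have h5 : (D : ℤ) ≤ K₀ := by exact_mod_cast hDK
          linarith
        · rw [if_pos hj, h3]
      · obtain ⟨g, h2, h3⟩ := fract_comb K₀ (a j) (a' j) (ha j) (ha' j) θ θ' (w j) D s ρ (θ' j)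
          (hrel j hj)
        refine ⟨g, h2.trans ?_, ?_⟩
        · rw [hB]
          push_cast
          have h5 : (0 : ℤ) ≤ K₀ := by positivity
          linarith
        · rw [if_neg hj, h3]
    choose g' hg1' hg2' using hg'
    refine ⟨(ρ, g, g'), ?_, rfl, z, ?_⟩
    · rw [hT, mem_product, mem_product, mem_range, Fintype.mem_piFinset, Fintype.mem_piFinset]
      refine ⟨hρD, fun i => ?_, fun i => ?_⟩
      · rw [mem_Icc, ← abs_le]
        refine (hg1 i).trans ?_
        rw [hB]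
        push_cast
        have : (0 : ℤ) ≤ ((Fintype.card α : ℤ) + (Fintype.card α' : ℤ)) * (K₀ : ℤ) := by positivity
        have h5 : (D : ℤ) ≤ K₀ := by exact_mod_cast hDK
        linarith
      · rw [mem_Icc, ← abs_le]
        exact hg1' i
    · rw [← hz, hr]
      -- the two sums
      have e1 : ∑ i, ζ i * Int.fract (((D * s + ρ : ℕ) : ℝ) * θ i)
          = ∑ i, (D * ζ i) * Int.fract ((s : ℝ) * θ i) +
            ∑ i, ζ i * (Int.fract ((ρ : ℝ) * θ i) - g i) := by
        rw [← sum_add_distrib]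
        refine sum_congr rfl fun i _ => ?_
        rw [hg2 i]
        ring
      have e2 : ∑ j, ζ' j * Int.fract (((D * s + ρ : ℕ) : ℝ) * θ' j)
          = ∑ j, ζ' j * (if j ∈ J then (D : ℝ) * Int.fract ((s : ℝ) * θ' j) else
            ∑ i, (a j i : ℝ) * Int.fract ((s : ℝ) * θ i) +
              ∑ i, (a' j i : ℝ) * Int.fract ((s : ℝ) * θ' i)) +
            ∑ j, ζ' j * (Int.fract ((ρ : ℝ) * θ' j) - g' j) := by
        rw [← sum_add_distrib]
        refine sum_congr rfl fun j _ => ?_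
        rw [hg2' j]
        ring
      have e3 : ∑ j, ζ' j * (if j ∈ J then (D : ℝ) * Int.fract ((s : ℝ) * θ' j) else
            ∑ i, (a j i : ℝ) * Int.fract ((s : ℝ) * θ i) +
              ∑ i, (a' j i : ℝ) * Int.fract ((s : ℝ) * θ' i))
          = ∑ j ∈ J, (D * ζ' j) * Int.fract ((s : ℝ) * θ' j) +
            (∑ i, (∑ j ∈ univ \ J, ζ' j * a j i) * Int.fract ((s : ℝ) * θ i) +
              ∑ i ∈ J, (∑ j ∈ univ \ J, ζ' j * a' j i) * Int.fract ((s : ℝ) * θ' i)) := by
        rw [← sum_sdiff (subset_univ J), add_comm]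
        congr 1
        · refine sum_congr rfl fun j hj => ?_
          rw [if_pos hj]
          ring
        · have q1 : ∑ i ∈ J, (∑ j ∈ univ \ J, ζ' j * a' j i) * Int.fract ((s : ℝ) * θ' i)
              = ∑ i, (∑ j ∈ univ \ J, ζ' j * a' j i) * Int.fract ((s : ℝ) * θ' i) := by
            refine sum_subset (subset_univ J) fun i _ hi => ?_
            rw [sum_eq_zero, zero_mul]
            intro j _
            rw [ha0 j i hi]
            simp
          rw [q1]
          simp only [sum_mul]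
          rw [sum_comm, sum_comm (s := (univ : Finset α')) (t := univ \ J), ← sum_add_distrib]
          refine sum_congr rfl fun j hj => ?_
          rw [if_neg (mem_sdiff.1 hj).2, mul_add, mul_sum, mul_sum]
          congr 1
          · exact sum_congr rfl fun i _ => by ring
          · exact sum_congr rfl fun i _ => by ring
      rw [e1, e2, e3]
      simp only [hcst, red1, red2, add_mul, sum_add_distrib]
      push_cast
      ring

end Pool.Agent.Lib.MP_663568_nt.E
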