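import Pool.Agent.Lib.MP_663568_e.E01
import Pool.Agent.Lib.MP_663568_e.E02
import Pool.Agent.Lib.MP_663568_e.E03

/-!
Row E04: the general bracket lemma.
-/

set_option autoImplicit false
open Finset

namespace Pool.Agent.Lib.MP_663568_nt.E

open Katai Nul T3

/-- the conclusion of `bracket_rel` -/
private def BR (β : Type) [Fintype β] (Z δ : ℝ) (K : ℕ) : Prop :=
  ∀ θ : β → ℝ, NR K θ → ∀ (lam c : ℝ) (ζ : β → ℝ), (∀ j, |ζ j| ≤ Z) →
      (∀ m : ℕ, 1 ≤ m → m ≤ K → ∀ k : β → ℤ, (∀ j, |k j| ≤ (K : ℤ)) → ∀ w : ℤ,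
        (m : ℝ) * lam + ∑ j, (k j : ℝ) * θ j = w → ¬ ∀ j, (m : ℝ) * ζ j = k j) →
      Rare δ fun r => ∃ z : ℤ, c + lam * r + ∑ j, ζ j * Int.fract ((r : ℝ) * θ j) = z

private lemma BR.mono {β : Type} [Fintype β] {Z δ : ℝ} {K K' : ℕ} (h : BR β Z δ K)
    (hK : K ≤ K') : BR β Z δ K' := by
  intro θ hθ lam c ζ hζ hbad
  have hKZ : (K : ℤ) ≤ K' := by exact_mod_cast hK
  refine h θ (fun k hk hkK => hθ k hk fun j => (hkK j).trans hKZ) lam c ζ hζ ?_
  intro m h1 h2 k hk w hw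
  exact hbad m h1 (h2.trans hK) k (fun j => (hk j).trans hKZ) w hw

/-- RECIPE: for `K₀` let `C K₀` be from `red_bas` (you may replace it by `C K₀ + 1`),
`Z' = K₀ * Z * (1 + card α')`, `δ' = δ / (C K₀ + 1)`, and let `f K₀` be the maximum over the
finitely many `J : Finset α'` of the `K` of `bracket_rel` for the type `α ⊕ {j // j ∈ J}`, `Z'`,
`δ'` (or take the sum over `J`; note that `bracket_rel` is monotone: if its conclusion holds for
`K` and `K ≤ K'`, it holds for `K'`: prove this small lemma first).  Let `Kmax` be from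
`exists_bas f` and `K = Kmax + ∑ K₀ ∈ range (Kmax + 1), f K₀`.  Given `θ`, `θ'` with `NR K θ`, take
`K₀, J, …` from `exists_bas`, and apply `red_bas`: it remains to show that the event for
`(θ, θ'_J)` is rare for every `c'`; this is `bracket_rel` for the vector
`Sum.elim θ (fun j : {j // j ∈ J} => θ' j)`, the coefficients `red1`, `red2` (bounded by `Z'`,
because `D ≤ K₀` and `|a j i| ≤ K₀`), and if its hypothesis failed we would get `Bad K …` (the
coefficients `k` on `{j // j ∈ J}` are extended by `0`; use `Bas` with `K₀ ≤ K`). -/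
theorem gb {α α' : Type} [Fintype α] [Fintype α'] [DecidableEq α'] (Z : ℝ) (hZ : 0 ≤ Z) (δ : ℝ)
    (hδ : 0 < δ) :
    ∃ K : ℕ, ∀ (θ : α → ℝ) (θ' : α' → ℝ), NR K θ → ∀ (lam c : ℝ) (ζ : α → ℝ) (ζ' : α' → ℝ),
      (∀ i, |ζ i| ≤ Z) → (∀ i, |ζ' i| ≤ Z) → ¬ Bad K θ θ' lam ζ ζ' →
      Rare δ fun r => ∃ z : ℤ, c + lam * r + ∑ i, ζ i * Int.fract ((r : ℝ) * θ i) +
        ∑ i, ζ' i * Int.fract ((r : ℝ) * θ' i) = z := by
  classical
  choose C hC using fun K₀ : ℕ => red_bas (α := α) (α' := α') K₀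
  set Z' : ℕ → ℝ := fun K₀ => K₀ * Z * (1 + Fintype.card α') with hZ'
  have hZ'0 : ∀ K₀, 0 ≤ Z' K₀ := fun K₀ => by
    rw [hZ']
    positivity
  set δ' : ℕ → ℝ := fun K₀ => δ / (C K₀ + 1) with hδ'
  have hδ'0 : ∀ K₀, 0 < δ' K₀ := fun K₀ => by
    rw [hδ']
    positivity
  choose F hF using fun (K₀ : ℕ) (J : Finset α') =>
    bracket_rel (β := α ⊕ {j // j ∈ J}) (Z' K₀) (hZ'0 K₀) (δ' K₀) (hδ'0 K₀)
  set f : ℕ → ℕ := fun K₀ => ∑ J : Finset α', F K₀ J with hf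
  have hf1 : ∀ (K₀ : ℕ) (J : Finset α'), BR (α ⊕ {j // j ∈ J}) (Z' K₀) (δ' K₀) (f K₀) := by
    intro K₀ J
    refine BR.mono (hF K₀ J) ?_
    exact single_le_sum (f := fun J => F K₀ J) (fun _ _ => Nat.zero_le _) (mem_univ J)
  obtain ⟨Kmax, hKmax⟩ := exists_bas (α := α) (α' := α') f
  refine ⟨Kmax + ∑ K₀ ∈ range (Kmax + 1), f K₀, ?_⟩
  set K : ℕ := Kmax + ∑ K₀ ∈ range (Kmax + 1), f K₀ with hK
  intro θ θ' hθ lam c ζ ζ' hζ hζ' hbad
  have hKmaxK : Kmax ≤ K := Nat.le_add_right _ _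
  obtain ⟨K₀, hK₀, J, D, a, a', w, hBas, hJ⟩ := hKmax θ θ' (hθ.anti hKmaxK)
  have hfK : f K₀ ≤ K := by
    refine le_trans ?_ (Nat.le_add_left _ _)
    exact single_le_sum (f := f) (fun _ _ => Nat.zero_le _)
      (mem_range.2 (Nat.lt_succ_of_le hK₀))
  have h1 := hC K₀ θ θ' J D a a' w hBas lam c ζ ζ' (δ' K₀) (hδ'0 K₀) ?_
  · refine h1.mono ?_ fun r _ h => h
    rw [hδ']
    simp only
    have hc : (0 : ℝ) < (C K₀ : ℝ) + 1 := by positivity
    rw [mul_div_assoc', div_le_iff₀ hc]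
    nlinarith
  intro c'
  obtain ⟨hD1, hDK, ha, ha', ha0, hrel⟩ := hBas
  have hDR : (D : ℝ) ≤ K₀ := by exact_mod_cast hDK
  have hD0 : (0 : ℝ) ≤ D := Nat.cast_nonneg _
  have hK0R : (0 : ℝ) ≤ K₀ := Nat.cast_nonneg _
  -- the bounds for the reduced coefficients
  have hsum : ∀ (x : α' → ℤ), (∀ j, |x j| ≤ (K₀ : ℤ)) →
      |∑ j ∈ univ \ J, ζ' j * x j| ≤ K₀ * Z * Fintype.card α' := by
    intro x hx
    refine (abs_sum_le_sum_abs _ _).trans ?_
    have h2 : ∀ j ∈ univ \ J, |ζ' j * x j| ≤ K₀ * Z := by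
      intro j _
      rw [abs_mul, mul_comm]
      have h3 : |(x j : ℝ)| ≤ (K₀ : ℝ) := by
        have := hx j
        exact_mod_cast this
      exact mul_le_mul h3 (hζ' j) (abs_nonneg _) hK0R
    refine (sum_le_card_nsmul _ _ _ h2).trans ?_
    rw [nsmul_eq_mul, mul_comm]
    refine mul_le_mul_of_nonneg_left ?_ (mul_nonneg hK0R hZ)
    exact_mod_cast card_le_univ _
  have hDz : ∀ x : ℝ, |x| ≤ Z → |(D : ℝ) * x| ≤ K₀ * Z := by
    intro x hx
    rw [abs_mul, abs_of_nonneg hD0]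
    exact mul_le_mul hDR hx (abs_nonneg _) hK0R
  have hb : ∀ j : α ⊕ {j // j ∈ J}, |Sum.elim (red1 J D a ζ ζ')
      (fun j : {j // j ∈ J} => red2 J D a' ζ' j) j| ≤ Z' K₀ := by
    rintro (i | i)
    · simp only [Sum.elim_inl, red1, hZ']
      refine (abs_add_le _ _).trans ?_
      have := hDz _ (hζ i)
      have h3 := hsum (fun j => a j i) fun j => ha j i
      linarith
    · simp only [Sum.elim_inr, red2, hZ']
      refine (abs_add_le _ _).trans ?_
      have := hDz _ (hζ' i)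
      have h3 := hsum (fun j => a' j i) fun j => ha' j i
      linarith
  have h2 := hf1 K₀ J (Sum.elim θ fun j : {j // j ∈ J} => θ' j) hJ (D * lam) c'
    (Sum.elim (red1 J D a ζ ζ') fun j : {j // j ∈ J} => red2 J D a' ζ' j) hb ?_
  · refine h2.mono le_rfl ?_
    rintro s - ⟨z, hz⟩
    refine ⟨z, ?_⟩
    rw [← hz, Fintype.sum_sum_type]
    simp only [Sum.elim_inl, Sum.elim_inr]
    rw [sum_coe_sort J fun i => red2 J D a' ζ' i * Int.fract ((s : ℝ) * θ' i)]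
    ring
  · intro m hm1 hm2 k hk w₀ hw₀ heq
    apply hbad
    have hfKZ : (f K₀ : ℤ) ≤ K := by exact_mod_cast hfK
    have hK0K : K₀ ≤ K := hK₀.trans hKmaxK
    have hK0KZ : (K₀ : ℤ) ≤ K := by exact_mod_cast hK0K
    refine ⟨J, D, a, a', w, ⟨hD1, hDK.trans hK0K, fun j i => (ha j i).trans hK0KZ,
      fun j i => (ha' j i).trans hK0KZ, ha0, hrel⟩, m, fun i => k (Sum.inl i),
      fun i => if h : i ∈ J then k (Sum.inr ⟨i, h⟩) else 0, w₀, hm1, hm2.trans hfK,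
      fun i => (hk _).trans hfKZ, ?_, ?_, ?_, ?_⟩
    · intro i
      beta_reduce
      by_cases h : i ∈ J
      · rw [dif_pos h]
        exact (hk _).trans hfKZ
      · rw [dif_neg h, abs_zero]
        positivity
    · rw [← hw₀, Fintype.sum_sum_type]
      simp only [Sum.elim_inl, Sum.elim_inr]
      rw [← sum_coe_sort J, add_assoc]
      congr 2
      refine sum_congr rfl fun i _ => ?_
      rw [dif_pos i.2]
    · intro i
      exact heq (Sum.inl i)
    · intro i hi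
      beta_reduce
      rw [dif_pos hi]
      exact heq (Sum.inr ⟨i, hi⟩)

end Pool.Agent.Lib.MP_663568_nt.E
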