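import Pool.Agent.Lib.MP_663568_e.EDefs

/-!
Row E05: the commutators with the group of level `t`.
-/

set_option autoImplicit false
open Finset

namespace Pool.Agent.Lib.MP_663568_nt.E

open Katai Tw Fib Nul T3

variable {G : Type} [Group G] [TopologicalSpace G] [IsTopologicalGroup G] {A : ℕ → Subgroup G}
  {Γ : Subgroup G}
  {β : ℕ → Type} [∀ s, Fintype (β s)] [∀ s, DecidableEq (β s)]
  {π : (s : ℕ) → G → β s → ℝ} {e : (s : ℕ) → β s → ℝ → G}

/-- An additive function on a subgroup and a product of elements of the subgroup. -/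
private lemma list_prod_add' {G V : Type} [Group G] [AddCommGroup V] (H : Subgroup G) (f : G → V)
    (hf : ∀ x ∈ H, ∀ y ∈ H, f (x * y) = f x + f y) (l : List G) (hl : ∀ x ∈ l, x ∈ H) :
    f l.prod = (l.map f).sum := by
  have h1 : f 1 = 0 := by
    have := hf 1 H.one_mem 1 H.one_mem
    rw [mul_one] at this
    exact left_eq_add.1 this
  induction l with
  | nil => simpa using h1
  | cons a l ih =>
    have ha : a ∈ H := hl a (by simp)
    have hl' : ∀ x ∈ l, x ∈ H := fun x hx => hl x (by simp [hx])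
    rw [List.prod_cons, hf a ha _ (H.list_prod_mem hl'), ih hl', List.map_cons, List.sum_cons]

private lemma up_add' {G V : Type} [Group G] [AddCommGroup V] (H : Subgroup G) (f : G → V)
    (hf : ∀ x ∈ H, ∀ y ∈ H, f (x * y) = f x + f y) {β : Type} [Fintype β] (e : β → ℝ → G)
    (he : ∀ j r, e j r ∈ H) (v : β → ℝ) :
    f (T3.up e v) = ∑ j, f (e j (v j)) := by
  unfold T3.up
  rw [list_prod_add' H f hf _ (by
    intro x hx
    obtain ⟨j, _, rfl⟩ := List.mem_map.1 hx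
    exact he j _), List.map_map]
  exact Finset.sum_map_toList univ fun j => f (e j (v j))

omit [IsTopologicalGroup G] in
private lemma ct_mem (hN : NS A Γ π e) {t : ℕ} {h : G} (hh : h ∈ A t) (x : G) :
    h * x * h⁻¹ * x⁻¹ ∈ A (t + 1) := by
  have h1 := hN.comm t 1
  rw [hN.A1] at h1
  exact h1 (Subgroup.commutator_mem_commutator hh (Subgroup.mem_top x))

omit [IsTopologicalGroup G] in
private lemma cc_mem (hN : NS A Γ π e) {t : ℕ} (x : G) {z : G} (hz : z ∈ A t) :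
    x * z * x⁻¹ * z⁻¹ ∈ A (t + 1) := by
  have h1 := hN.comm 1 t
  rw [hN.A1, add_comm] at h1
  exact h1 (Subgroup.commutator_mem_commutator (Subgroup.mem_top x) hz)

omit [IsTopologicalGroup G] in
private lemma succ_le (hN : NS A Γ π e) (t : ℕ) : A (t + 1) ≤ A t := hN.anti (Nat.le_succ t)

omit [IsTopologicalGroup G] in
private lemma conj_mem' (hN : NS A Γ π e) {t : ℕ} (x : G) {z : G} (hz : z ∈ A t) :
    x * z * x⁻¹ ∈ A t := by
  have h1 := (A t).mul_mem (succ_le hN t (cc_mem hN x hz)) hz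
  have h2 : x * z * x⁻¹ = (x * z * x⁻¹ * z⁻¹) * z := by group
  rw [h2]
  exact h1

omit [IsTopologicalGroup G] in
private lemma pit_conj (hN : NS A Γ π e) {t : ℕ} (ht : 1 ≤ t) (x : G) {z : G} (hz : z ∈ A t) :
    π t (x * z * x⁻¹) = π t z := by
  have h1 := cc_mem hN x hz
  have h2 : x * z * x⁻¹ = (x * z * x⁻¹ * z⁻¹) * z := by group
  rw [h2, hN.pi_mul t ht _ (succ_le hN t h1) _ hz,
    (hN.pi_ker t ht _ (succ_le hN t h1)).2 h1, zero_add]

omit [IsTopologicalGroup G] in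
private lemma ct_left (hN : NS A Γ π e) {t : ℕ} {x x' : G} (hx : x ∈ A t) (hx' : x' ∈ A t)
    (y : G) : π (t + 1) ((x * x') * y * (x * x')⁻¹ * y⁻¹) =
      π (t + 1) (x * y * x⁻¹ * y⁻¹) + π (t + 1) (x' * y * x'⁻¹ * y⁻¹) := by
  have h2 : (x * x') * y * (x * x')⁻¹ * y⁻¹ =
      (x * (x' * y * x'⁻¹ * y⁻¹) * x⁻¹) * (x * y * x⁻¹ * y⁻¹) := by group
  rw [h2, hN.pi_mul (t + 1) (by omega) _ (conj_mem' hN x (ct_mem hN hx' y)) _ (ct_mem hN hx y),
    pit_conj hN (by omega) x (ct_mem hN hx' y)]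
  exact add_comm _ _

omit [IsTopologicalGroup G] in
private lemma ct_right (hN : NS A Γ π e) {t : ℕ} {x : G} (hx : x ∈ A t) (y y' : G) :
    π (t + 1) (x * (y * y') * x⁻¹ * (y * y')⁻¹) =
      π (t + 1) (x * y * x⁻¹ * y⁻¹) + π (t + 1) (x * y' * x⁻¹ * y'⁻¹) := by
  have h2 : x * (y * y') * x⁻¹ * (y * y')⁻¹ =
      (x * y * x⁻¹ * y⁻¹) * (y * (x * y' * x⁻¹ * y'⁻¹) * y⁻¹) := by group
  rw [h2, hN.pi_mul (t + 1) (by omega) _ (ct_mem hN hx y) _ (conj_mem' hN y (ct_mem hN hx y')),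
    pit_conj hN (by omega) y (ct_mem hN hx y')]

omit [IsTopologicalGroup G] in
private lemma ct_zero_left (hN : NS A Γ π e) {t : ℕ} {x : G} (hx : x ∈ A (t + 1)) (y : G) :
    π (t + 1) (x * y * x⁻¹ * y⁻¹) = 0 := by
  have h1 := ct_mem hN hx y
  exact (hN.pi_ker (t + 1) (by omega) _ (succ_le hN _ h1)).2 h1

omit [IsTopologicalGroup G] in
private lemma ct_zero_right (hN : NS A Γ π e) {t : ℕ} {x : G} (hx : x ∈ A t) {y : G}
    (hy : y ∈ A 2) : π (t + 1) (x * y * x⁻¹ * y⁻¹) = 0 := by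
  have h1 : x * y * x⁻¹ * y⁻¹ ∈ A (t + 2) :=
    hN.comm t 2 (Subgroup.commutator_mem_commutator hx hy)
  exact (hN.pi_ker (t + 1) (by omega) _ (succ_le hN _ h1)).2 h1

private lemma ct_circ (hN : NS A Γ π e) {t : ℕ} (ht : 1 ≤ t) (j : β t) (i : β 1) (k : β (t + 1))
    (r r' : ℝ) :
    π (t + 1) (e t j r * e 1 i r' * (e t j r)⁻¹ * (e 1 i r')⁻¹) k =
      r * r' * comc π e t j i k := by
  obtain ⟨⟨hjc, hja⟩, _, hjm⟩ := hN.e_onep t ht j
  obtain ⟨⟨hic, hia⟩, _, _⟩ := hN.e_onep 1 le_rfl i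
  have hcont : ∀ u : ℝ → G, (∀ r, u r ∈ A (t + 1)) → Continuous u →
      Continuous (fun r => π (t + 1) (u r) k) := by
    intro u hu huc
    exact (continuous_apply k).comp ((hN.pi_cont (t + 1) (by omega)).comp_continuous huc hu)
  have h1 : π (t + 1) (e t j r * e 1 i r' * (e t j r)⁻¹ * (e 1 i r')⁻¹) k =
      r * π (t + 1) (e t j 1 * e 1 i r' * (e t j 1)⁻¹ * (e 1 i r')⁻¹) k := by
    refine add_lin (fun r => π (t + 1) (e t j r * e 1 i r' * (e t j r)⁻¹ * (e 1 i r')⁻¹) k) ?_ ?_ r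
    · exact hcont (fun r => e t j r * e 1 i r' * (e t j r)⁻¹ * (e 1 i r')⁻¹)
        (fun r => ct_mem hN (hjm r) _) (by fun_prop)
    · intro a b
      simp only [hja a b]
      exact congrFun (ct_left hN (hjm a) (hjm b) (e 1 i r')) k
  have h2 : π (t + 1) (e t j 1 * e 1 i r' * (e t j 1)⁻¹ * (e 1 i r')⁻¹) k =
      r' * π (t + 1) (e t j 1 * e 1 i 1 * (e t j 1)⁻¹ * (e 1 i 1)⁻¹) k := by
    refine add_lin (fun r' => π (t + 1) (e t j 1 * e 1 i r' * (e t j 1)⁻¹ * (e 1 i r')⁻¹) k)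
      ?_ ?_ r'
    · exact hcont (fun r' => e t j 1 * e 1 i r' * (e t j 1)⁻¹ * (e 1 i r')⁻¹)
        (fun r => ct_mem hN (hjm 1) _) (by fun_prop)
    · intro a b
      simp only [hia a b]
      exact congrFun (ct_right hN (hjm 1) (e 1 i a) (e 1 i b)) k
  rw [h1, h2, comc]
  ring

private lemma ct_form (hN : NS A Γ π e) {t : ℕ} (ht : 1 ≤ t) {h : G} (hh : h ∈ A t) (x : G)
    (k : β (t + 1)) : π (t + 1) (h * x * h⁻¹ * x⁻¹) k =
      ∑ j, ∑ i, comc π e t j i k * π t h j * π 1 x i := by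
  have hx : x ∈ A 1 := by rw [hN.A1]; exact Subgroup.mem_top x
  obtain ⟨w, hw, hhw⟩ := up_dec hN ht hh
  obtain ⟨w', hw', hxw⟩ := up_dec hN le_rfl hx
  have hm := fun j r => (hN.e_onep t ht j).2.2 r
  have hup : T3.up (e t) (π t h) ∈ A t := up_mem hN ht (π t h)
  have h1 : π (t + 1) (h * x * h⁻¹ * x⁻¹) =
      ∑ j, π (t + 1) (e t j (π t h j) * x * (e t j (π t h j))⁻¹ * x⁻¹) := by
    conv_lhs => rw [hhw]
    rw [ct_left hN hup (succ_le hN t hw), ct_zero_left hN hw, add_zero]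
    exact up_add' (A t) (fun h => π (t + 1) (h * x * h⁻¹ * x⁻¹))
      (fun a ha b hb => ct_left hN ha hb x) (e t) hm (π t h)
  have h2 : ∀ z ∈ A t, π (t + 1) (z * x * z⁻¹ * x⁻¹) =
      ∑ i, π (t + 1) (z * e 1 i (π 1 x i) * z⁻¹ * (e 1 i (π 1 x i))⁻¹) := by
    intro z hz
    conv_lhs => rw [hxw]
    rw [ct_right hN hz, ct_zero_right hN hz hw', add_zero]
    exact up_add (fun x => π (t + 1) (z * x * z⁻¹ * x⁻¹)) (fun a b => ct_right hN hz a b) (e 1)
      (π 1 x)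
  rw [h1, Finset.sum_apply]
  refine Finset.sum_congr rfl fun j _ => ?_
  rw [h2 _ (hm j _), Finset.sum_apply]
  refine Finset.sum_congr rfl fun i _ => ?_
  rw [ct_circ hN ht]
  ring

/-- RECIPE: the commutator is in `Γ ∩ A (t + 1)`, use `hN.pi_int`. -/
theorem comc_int (hN : NS A Γ π e) (t : ℕ) (ht : 1 ≤ t) (j : β t) (i : β 1) (k : β (t + 1)) :
    ∃ z : ℤ, comc π e t j i k = z := by
  obtain ⟨_, hj, hjm⟩ := hN.e_onep t ht j
  obtain ⟨_, hi, _⟩ := hN.e_onep 1 le_rfl i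
  exact hN.pi_int (t + 1) (by omega) _ (Γ.mul_mem (Γ.mul_mem (Γ.mul_mem hj hi) (Γ.inv_mem hj))
    (Γ.inv_mem hi)) (ct_mem hN (hjm 1) _) k

/-- RECIPE: generalise the proof of `T3.comm_form` (file `MP_663568_t3/TForm.lean`, there `t = 1`)
to `h ∈ A t`, `x ∈ G`: `π (t + 1) (h x h⁻¹ x⁻¹)` is additive in `h ∈ A t` and in `x`, vanishes for
`h ∈ A (t + 1)` and for `x ∈ A 2` (commutators in `A (t + 2)`, kernel of `π (t + 1)`), is linear
along the circles, hence `π (t + 1) (h x h⁻¹ x⁻¹) k = ∑ j, ∑ i, comc π e t j i k * π t h j * π 1 x i`.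
If all `∑ k, w k * comc π e t j i k` vanish, then `∑ k, w k * π (t + 1) y k = 0` for all
`y ∈ ⁅⊤, A t⁆ ⊇ A (t + 1)` (`hN.low`; inverses of commutators), and `y = e (t + 1) k 1` gives
`w k = 0`. -/
theorem comc_nondeg (hN : NS A Γ π e) (t : ℕ) (ht : 1 ≤ t) (w : β (t + 1) → ℤ) (hw : w ≠ 0) :
    ∃ (j : β t) (i : β 1), ∑ k, (w k : ℝ) * comc π e t j i k ≠ 0 := by
  by_contra hcon
  push Not at hcon
  obtain ⟨κ, hκ⟩ : ∃ κ, w κ ≠ 0 := by
    by_contra h
    push Not at h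
    exact hw (funext h)
  have ht1 : 1 ≤ t + 1 := by omega
  let H : Subgroup G :=
    { carrier := {x | x ∈ A (t + 1) ∧ ∑ k, (w k : ℝ) * π (t + 1) x k = 0}
      mul_mem' := by
        rintro x y ⟨hx, hx'⟩ ⟨hy, hy'⟩
        refine ⟨(A (t + 1)).mul_mem hx hy, ?_⟩
        rw [hN.pi_mul (t + 1) ht1 x hx y hy]
        simp only [Pi.add_apply, mul_add, Finset.sum_add_distrib, hx', hy', add_zero]
      one_mem' := by
        refine ⟨(A (t + 1)).one_mem, ?_⟩
        rw [(hN.pi_ker (t + 1) ht1 1 (A (t + 1)).one_mem).2 (A (t + 1 + 1)).one_mem]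
        simp
      inv_mem' := by
        rintro x ⟨hx, hx'⟩
        refine ⟨(A (t + 1)).inv_mem hx, ?_⟩
        rw [pi_inv hN ht1 hx]
        simp only [Pi.neg_apply, mul_neg, Finset.sum_neg_distrib, hx', neg_zero] }
  have hle : ⁅(⊤ : Subgroup G), A t⁆ ≤ H := by
    rw [Subgroup.commutator_comm, Subgroup.commutator_le]
    intro h hh x _
    refine ⟨ct_mem hN hh x, ?_⟩
    rw [commutatorElement_def]
    simp only [ct_form hN ht hh x]
    calc ∑ k, (w k : ℝ) * ∑ j, ∑ i, comc π e t j i k * π t h j * π 1 x i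
        = ∑ j, ∑ i, (∑ k, (w k : ℝ) * comc π e t j i k) * (π t h j * π 1 x i) := by
          simp only [Finset.mul_sum]
          rw [Finset.sum_comm]
          refine Finset.sum_congr rfl fun j _ => ?_
          rw [Finset.sum_comm]
          refine Finset.sum_congr rfl fun i _ => ?_
          rw [Finset.sum_mul]
          exact Finset.sum_congr rfl fun k _ => by ring
      _ = 0 := by
          refine Finset.sum_eq_zero fun j _ => Finset.sum_eq_zero fun i _ => ?_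
          rw [hcon j i, zero_mul]
  have hmem : e (t + 1) κ 1 ∈ A (t + 1) := (hN.e_onep (t + 1) ht1 κ).2.2 1
  have h3 : e (t + 1) κ 1 ∈ H := hle (hN.low t ht hmem)
  have h4 := h3.2
  rw [hN.e_pi (t + 1) ht1] at h4
  rw [Finset.sum_eq_single κ] at h4
  · rw [Pi.single_eq_same, mul_one] at h4
    exact hκ (by exact_mod_cast h4)
  · intro k _ hk
    rw [Pi.single_eq_of_ne hk, mul_zero]
  · intro h
    exact absurd (mem_univ κ) h

end Pool.Agent.Lib.MP_663568_nt.E
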