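import Pool.Agent.Lib.MP_663568_e.EDefs

/-!
Row E06: commutators in the relative square.
-/

set_option autoImplicit false
set_option linter.unusedSectionVars false
open Finset

namespace Pool.Agent.Lib.MP_663568_nt.E

open Katai Tw Fib Nul T3

variable {G : Type} [Group G] [TopologicalSpace G] [IsTopologicalGroup G] {A : ℕ → Subgroup G}
  {Γ : Subgroup G}
  {β : ℕ → Type} [∀ s, Fintype (β s)] [∀ s, DecidableEq (β s)]
  {π : (s : ℕ) → G → β s → ℝ} {e : (s : ℕ) → β s → ℝ → G}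

private theorem E06_inl (hN : NS A Γ π e) (s : ℕ) (j : β s) (r : ℝ) :
    (sqe A hN.anti hN.comm hN.A0 e s (Sum.inl j) r).1 = (e s j r, e s j r) := by
  show (toSq A hN.anti hN.comm hN.A0 (e s j r, e s j r)).1 = _
  rw [toSq_eq hN.anti hN.comm hN.A0 (e s j r, e s j r)
    (mem_S hN.anti hN.comm hN.A0 _ (by simp) hN.A1)]

private theorem E06_inr (hN : NS A Γ π e) (s : ℕ) (hs : 1 ≤ s) (j : β (s + 1)) (r : ℝ) :
    (sqe A hN.anti hN.comm hN.A0 e s (Sum.inr j) r).1 = (e (s + 1) j r, 1) := by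
  show (toSq A hN.anti hN.comm hN.A0 (e (s + 1) j r, 1)).1 = _
  rw [toSq_eq hN.anti hN.comm hN.A0 (e (s + 1) j r, 1)
    (mem_S hN.anti hN.comm hN.A0 _ (by
      have h := (hN.e_onep (s + 1) (by omega) j).2.2 r
      have h2 := hN.anti (show 2 ≤ s + 1 by omega) h
      simpa using h2) hN.A1)]

private theorem E06_one (hN : NS A Γ π e) (s : ℕ) (hs : 1 ≤ s) : π s 1 = 0 :=
  (hN.pi_ker s hs 1 (A s).one_mem).2 (A (s + 1)).one_mem

private theorem E06_pi_inl (hN : NS A Γ π e) (t : ℕ) (a b : SqG A hN.anti hN.comm hN.A0)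
    (k : β (t + 1)) : sqπ A hN.anti hN.comm hN.A0 π (t + 1) (a * b * a⁻¹ * b⁻¹) (Sum.inl k) =
      π (t + 1) (a.1.2 * b.1.2 * a.1.2⁻¹ * b.1.2⁻¹) k := rfl

private theorem E06_pi_inr (hN : NS A Γ π e) (t : ℕ) (a b : SqG A hN.anti hN.comm hN.A0)
    (k : β (t + 2)) : sqπ A hN.anti hN.comm hN.A0 π (t + 1) (a * b * a⁻¹ * b⁻¹) (Sum.inr k) =
      π (t + 2) ((a.1.1 * b.1.1 * a.1.1⁻¹ * b.1.1⁻¹) *
        (a.1.2 * b.1.2 * a.1.2⁻¹ * b.1.2⁻¹)⁻¹) k := rfl

/-- RECIPE: all five statements by evaluation.  The elements are `sqe … t (inl j) 1 = (x, x)` with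
`x = e t j 1` and `sqe … t (inr j) 1 = (x, 1)` with `x = e (t + 1) j 1` (`T3.toSq_eq`, `T3.mem_S`),
the commutator of pairs is the pair of the commutators, and
`sqπ s y = Sum.elim (π s y.2) (π (s + 1) (y.1 * y.2⁻¹))`.  The commutators of `e (t + 1) j 1 ∈
A (t + 1)` and `e 2 i 1 ∈ A 2` are in `A (t + 3)`, on which `π (t + 2)` vanishes. -/
theorem sq_comc (hN : NS A Γ π e) (t : ℕ) (ht : 1 ≤ t) :
    (∀ (j : β (t + 1)) (i : β 1) (k : β (t + 2)),
      comc (sqπ A hN.anti hN.comm hN.A0 π) (sqe A hN.anti hN.comm hN.A0 e) t (Sum.inr j)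
        (Sum.inl i) (Sum.inr k) = comc π e (t + 1) j i k) ∧
    (∀ (j : β (t + 1)) (i : β 2) (k : β (t + 2)),
      comc (sqπ A hN.anti hN.comm hN.A0 π) (sqe A hN.anti hN.comm hN.A0 e) t (Sum.inr j)
        (Sum.inr i) (Sum.inr k) = 0) ∧
    (∀ (j : β (t + 1)) (p : sqβ β 1) (k : β (t + 1)),
      comc (sqπ A hN.anti hN.comm hN.A0 π) (sqe A hN.anti hN.comm hN.A0 e) t (Sum.inr j)
        p (Sum.inl k) = 0) ∧
    (∀ (j : β t) (i : β 1) (k : β (t + 1)),
      comc (sqπ A hN.anti hN.comm hN.A0 π) (sqe A hN.anti hN.comm hN.A0 e) t (Sum.inl j)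
        (Sum.inl i) (Sum.inl k) = comc π e t j i k) ∧
    (∀ (j : β t) (i : β 2) (k : β (t + 1)),
      comc (sqπ A hN.anti hN.comm hN.A0 π) (sqe A hN.anti hN.comm hN.A0 e) t (Sum.inl j)
        (Sum.inr i) (Sum.inl k) = 0) := by
  refine ⟨fun j i k => ?_, fun j i k => ?_, fun j p k => ?_, fun j i k => ?_, fun j i k => ?_⟩
  · unfold comc
    rw [E06_pi_inr hN, E06_inr hN t ht, E06_inl hN]
    simp only [one_mul, inv_one, mul_one, mul_inv_cancel]
  · unfold comc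
    rw [E06_pi_inr hN, E06_inr hN t ht, E06_inr hN 1 le_rfl]
    simp only [inv_one, mul_one]
    have h1 : e (t + 1) j 1 ∈ A (t + 1) := (hN.e_onep (t + 1) (by omega) j).2.2 1
    have h2 : e (1 + 1) i 1 ∈ A 2 := (hN.e_onep 2 (by omega) i).2.2 1
    have h3 := hN.comm (t + 1) 2 (Subgroup.commutator_mem_commutator h1 h2)
    have h4 : e (t + 1) j 1 * e (1 + 1) i 1 * (e (t + 1) j 1)⁻¹ * (e (1 + 1) i 1)⁻¹ ∈
        A (t + 2 + 1) := h3
    rw [(hN.pi_ker (t + 2) (by omega) _ (hN.anti (by omega) h4)).2 h4]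
    rfl
  · unfold comc
    rw [E06_pi_inl hN, E06_inr hN t ht]
    simp only [one_mul, inv_one, mul_one, mul_inv_cancel]
    rw [E06_one hN (t + 1) (by omega)]
    rfl
  · unfold comc
    rw [E06_pi_inl hN, E06_inl hN, E06_inl hN]
  · unfold comc
    rw [E06_pi_inl hN, E06_inl hN, E06_inr hN 1 le_rfl]
    simp only [inv_one, mul_one, mul_inv_cancel]
    rw [E06_one hN (t + 1) (by omega)]
    rfl

end Pool.Agent.Lib.MP_663568_nt.E
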