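import Pool.Agent.Lib.MP_663568_e.E06

/-!
Row E07: nonresonance of the rows passes to the square, and the commutator form of the square.
-/

set_option autoImplicit false
set_option linter.unusedSectionVars false
open Finset

namespace Pool.Agent.Lib.MP_663568_nt.E

open Katai Tw Fib Nul T3

variable {G : Type} [Group G] [TopologicalSpace G] [IsTopologicalGroup G] {A : ℕ → Subgroup G}
  {Γ : Subgroup G}
  {β : ℕ → Type} [∀ s, Fintype (β s)] [∀ s, DecidableEq (β s)]
  {π : (s : ℕ) → G → β s → ℝ} {e : (s : ℕ) → β s → ℝ → G}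

private theorem E07_sum {s : ℕ} (f : sqβ β s → ℝ) :
    ∑ x, f x = ∑ a : β s, f (Sum.inl a) + ∑ b : β (s + 1), f (Sum.inr b) :=
  Fintype.sum_sum_type f

/-- RECIPE: let `w` be on `sqβ β (t + 1) = β (t + 1) ⊕ β (t + 2)`, not zero.  If `w ∘ inr ≠ 0` apply
`TT` at the level `t + 1` (`t + 2 ≤ n + 1`) to `w ∘ inr` and take the row `inr j`: by `sq_comc` its
entries at `inl i` are those of `G` and the entries at `inr i` vanish.  If `w ∘ inr = 0` then
`w ∘ inl ≠ 0`; apply `TT` at the level `t` and take the row `inl j` (the sums over `inr k` vanish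
because `w (inr k) = 0`, and the entries at `inr i` vanish by the last part of `sq_comc`). -/
theorem tt_sq (hN : NS A Γ π e) (n K : ℕ) (θ : β 1 → ℝ) (h : TT π e (n + 1) K θ) (φ : β 2 → ℝ) :
    TT (sqπ A hN.anti hN.comm hN.A0 π) (sqe A hN.anti hN.comm hN.A0 e) n K
      (Sum.elim θ φ : sqβ β 1 → ℝ) := by
  intro t ht htn w hw0 hwK
  obtain ⟨c1, c2, c3, c4, c5⟩ := sq_comc hN t (by omega)
  by_cases hr : (fun k : β (t + 2) => w (Sum.inr k)) = 0
  · have hl : (fun k : β (t + 1) => w (Sum.inl k)) ≠ 0 := by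
      intro hl
      apply hw0
      funext k
      rcases k with k | k
      · exact congrFun hl k
      · exact congrFun hr k
    obtain ⟨j, hj⟩ := h t ht (by omega) (fun k : β (t + 1) => w (Sum.inl k)) hl
      (fun k => hwK (Sum.inl k))
    refine ⟨Sum.inl j, fun m hm1 hmK z => ?_⟩
    have e1 : ∑ i : sqβ β 1, (∑ k : sqβ β (t + 1), (w k : ℝ) *
        comc (sqπ A hN.anti hN.comm hN.A0 π) (sqe A hN.anti hN.comm hN.A0 e) t (Sum.inl j) i k) *
          (Sum.elim θ φ : sqβ β 1 → ℝ) i =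
        ∑ i : β 1, (∑ k : β (t + 1), ((w (Sum.inl k) : ℤ) : ℝ) * comc π e t j i k) * θ i := by
      rw [E07_sum]
      have h2 : ∑ b : β 2, (∑ k : sqβ β (t + 1), (w k : ℝ) *
          comc (sqπ A hN.anti hN.comm hN.A0 π) (sqe A hN.anti hN.comm hN.A0 e) t (Sum.inl j)
            (Sum.inr b) k) * (Sum.elim θ φ : sqβ β 1 → ℝ) (Sum.inr b) = 0 := by
        refine sum_eq_zero fun b _ => ?_
        rw [E07_sum]
        have h3 : ∀ k : β (t + 1), (w (Sum.inl k) : ℝ) *
            comc (sqπ A hN.anti hN.comm hN.A0 π) (sqe A hN.anti hN.comm hN.A0 e) t (Sum.inl j)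
              (Sum.inr b) (Sum.inl k) = 0 := fun k => by rw [c5, mul_zero]
        have h4 : ∀ k : β (t + 1 + 1), (w (Sum.inr k) : ℝ) *
            comc (sqπ A hN.anti hN.comm hN.A0 π) (sqe A hN.anti hN.comm hN.A0 e) t (Sum.inl j)
              (Sum.inr b) (Sum.inr k) = 0 := fun k => by
          have h5 : w (Sum.inr k) = 0 := congrFun hr k
          rw [h5, Int.cast_zero, zero_mul]
        rw [sum_congr rfl fun k _ => h3 k, sum_congr rfl fun k _ => h4 k]
        simp
      rw [h2, add_zero]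
      refine sum_congr rfl fun i _ => ?_
      rw [E07_sum]
      have h4 : ∀ k : β (t + 1 + 1), (w (Sum.inr k) : ℝ) *
          comc (sqπ A hN.anti hN.comm hN.A0 π) (sqe A hN.anti hN.comm hN.A0 e) t (Sum.inl j)
            (Sum.inl i) (Sum.inr k) = 0 := fun k => by
        have h5 : w (Sum.inr k) = 0 := congrFun hr k
        rw [h5, Int.cast_zero, zero_mul]
      have h3 : ∀ k : β (t + 1), (w (Sum.inl k) : ℝ) *
          comc (sqπ A hN.anti hN.comm hN.A0 π) (sqe A hN.anti hN.comm hN.A0 e) t (Sum.inl j)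
            (Sum.inl i) (Sum.inl k) = (w (Sum.inl k) : ℝ) * comc π e t j i k :=
        fun k => by rw [c4]
      rw [sum_congr rfl fun k _ => h3 k, sum_congr rfl fun k _ => h4 k]
      simp
    rw [e1]
    exact hj m hm1 hmK z
  · obtain ⟨j, hj⟩ := h (t + 1) (by omega) (by omega) (fun k : β (t + 2) => w (Sum.inr k)) hr
      (fun k => hwK (Sum.inr k))
    refine ⟨Sum.inr j, fun m hm1 hmK z => ?_⟩
    have e1 : ∑ i : sqβ β 1, (∑ k : sqβ β (t + 1), (w k : ℝ) *
        comc (sqπ A hN.anti hN.comm hN.A0 π) (sqe A hN.anti hN.comm hN.A0 e) t (Sum.inr j) i k) *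
          (Sum.elim θ φ : sqβ β 1 → ℝ) i =
        ∑ i : β 1, (∑ k : β (t + 2), ((w (Sum.inr k) : ℤ) : ℝ) * comc π e (t + 1) j i k) * θ i := by
      rw [E07_sum]
      have h3 : ∀ (b : sqβ β 1) (k : β (t + 1)), (w (Sum.inl k) : ℝ) *
          comc (sqπ A hN.anti hN.comm hN.A0 π) (sqe A hN.anti hN.comm hN.A0 e) t (Sum.inr j)
            b (Sum.inl k) = 0 := fun b k => by rw [c3, mul_zero]
      have h2 : ∑ b : β 2, (∑ k : sqβ β (t + 1), (w k : ℝ) *
          comc (sqπ A hN.anti hN.comm hN.A0 π) (sqe A hN.anti hN.comm hN.A0 e) t (Sum.inr j)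
            (Sum.inr b) k) * (Sum.elim θ φ : sqβ β 1 → ℝ) (Sum.inr b) = 0 := by
        refine sum_eq_zero fun b _ => ?_
        rw [E07_sum]
        have h4 : ∀ k : β (t + 1 + 1), (w (Sum.inr k) : ℝ) *
            comc (sqπ A hN.anti hN.comm hN.A0 π) (sqe A hN.anti hN.comm hN.A0 e) t (Sum.inr j)
              (Sum.inr b) (Sum.inr k) = 0 := fun k => by rw [c2, mul_zero]
        rw [sum_congr rfl fun k _ => h3 (Sum.inr b) k, sum_congr rfl fun k _ => h4 k]
        simp
      rw [h2, add_zero]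
      refine sum_congr rfl fun i _ => ?_
      rw [E07_sum]
      have h4 : ∀ k : β (t + 1 + 1), (w (Sum.inr k) : ℝ) *
          comc (sqπ A hN.anti hN.comm hN.A0 π) (sqe A hN.anti hN.comm hN.A0 e) t (Sum.inr j)
            (Sum.inl i) (Sum.inr k) = (w (Sum.inr k) : ℝ) * comc π e (t + 1) j i k :=
        fun k => by rw [c1]
      rw [sum_congr rfl fun k _ => h3 (Sum.inl i) k, sum_congr rfl fun k _ => h4 k]
      simp
    rw [e1]
    exact hj m hm1 hmK z

/-- RECIPE: `hb'` at the elements `x = sqe … 1 p 1`, `y = sqe … 1 q 1` (whose `π 1` are unit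
vectors by `(ns_sq hN).e_pi`) gives `b' k p q = comc … 1 p q k`; `hb` gives
`b k j i = comc π e 1 j i k`; then `sq_comc` with `t = 1`.  For the second statement also the
entries `p = inl j`, `q = inr i`, `k = inl k` and `p = inr j` are covered by `sq_comc`. -/
theorem sq_form (hN : NS A Γ π e) (b : β 2 → β 1 → β 1 → ℤ) (hb : CF π b)
    (b' : sqβ β 2 → sqβ β 1 → sqβ β 1 → ℤ) (hb' : CF (sqπ A hN.anti hN.comm hN.A0 π) b') :
    (∀ (k : β 2) (j i : β 1), b' (Sum.inl k) (Sum.inl j) (Sum.inl i) = b k j i) ∧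
    (∀ (k : β 2) (j : β 1) (i : β 2), b' (Sum.inl k) (Sum.inl j) (Sum.inr i) = 0) ∧
    (∀ (k : β 2) (j : β 2) (q : sqβ β 1), b' (Sum.inl k) (Sum.inr j) q = 0) ∧
    (∀ (k : β 3) (j i : β 2), b' (Sum.inr k) (Sum.inr j) (Sum.inr i) = 0) ∧
    (∀ (k : β 3) (j : β 2) (i : β 1),
      (b' (Sum.inr k) (Sum.inr j) (Sum.inl i) : ℝ) = comc π e 2 j i k) := by
  obtain ⟨c1, c2, c3, c4, c5⟩ := sq_comc hN 1 le_rfl
  have hN' := ns_sq hN
  have h' : ∀ (k : sqβ β 2) (p q : sqβ β 1), (b' k p q : ℝ) =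
      comc (sqπ A hN.anti hN.comm hN.A0 π) (sqe A hN.anti hN.comm hN.A0 e) 1 p q k := by
    intro k p q
    have h1 := hb' (sqe A hN.anti hN.comm hN.A0 e 1 p 1) (sqe A hN.anti hN.comm hN.A0 e 1 q 1) k
    rw [hN'.e_pi 1 le_rfl p 1, hN'.e_pi 1 le_rfl q 1] at h1
    rw [sum_eq_single p, sum_eq_single q] at h1
    · rw [Pi.single_eq_same, Pi.single_eq_same, mul_one, mul_one] at h1
      exact h1.symm
    · intro i _ hi
      rw [Pi.single_eq_of_ne hi, mul_zero]
    · intro h2
      exact absurd (mem_univ _) h2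
    · intro j _ hj
      refine sum_eq_zero fun i _ => ?_
      rw [Pi.single_eq_of_ne hj, mul_zero, zero_mul]
    · intro h2
      exact absurd (mem_univ _) h2
  have h : ∀ (k : β 2) (j i : β 1), (b k j i : ℝ) = comc π e 1 j i k := by
    intro k p q
    have h1 := hb (e 1 p 1) (e 1 q 1) k
    rw [hN.e_pi 1 le_rfl p 1, hN.e_pi 1 le_rfl q 1] at h1
    rw [sum_eq_single p, sum_eq_single q] at h1
    · rw [Pi.single_eq_same, Pi.single_eq_same, mul_one, mul_one] at h1
      exact h1.symm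
    · intro i _ hi
      rw [Pi.single_eq_of_ne hi, mul_zero]
    · intro h2
      exact absurd (mem_univ _) h2
    · intro j _ hj
      refine sum_eq_zero fun i _ => ?_
      rw [Pi.single_eq_of_ne hj, mul_zero, zero_mul]
    · intro h2
      exact absurd (mem_univ _) h2
  refine ⟨fun k j i => ?_, fun k j i => ?_, fun k j q => ?_, fun k j i => ?_, fun k j i => ?_⟩
  · have h1 : (b' (Sum.inl k) (Sum.inl j) (Sum.inl i) : ℝ) = b k j i := by
      rw [h', h]
      exact c4 j i k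
    exact_mod_cast h1
  · have h1 : (b' (Sum.inl k) (Sum.inl j) (Sum.inr i) : ℝ) = 0 := by
      rw [h']
      exact c5 j i k
    exact_mod_cast h1
  · have h1 : (b' (Sum.inl k) (Sum.inr j) q : ℝ) = 0 := by
      rw [h']
      exact c3 j q k
    exact_mod_cast h1
  · have h1 : (b' (Sum.inr k) (Sum.inr j) (Sum.inr i) : ℝ) = 0 := by
      rw [h']
      exact c2 j i k
    exact_mod_cast h1
  · rw [h']
    exact c1 j i k

end Pool.Agent.Lib.MP_663568_nt.E
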