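import Pool.Agent.Lib.MP_663568_e.E04

/-!
Row E08: the bracket functions of the square are rarely integral, for most shifts (numerical form).
-/

set_option autoImplicit false
open Finset

namespace Pool.Agent.Lib.MP_663568_nt.E

open Katai Nul T3

private lemma sum_Psi {β₁ β₂ : Type} [Fintype β₁] [Fintype β₂] (b : β₂ → β₁ → β₁ → ℤ)
    (w : β₂ → ℤ) (θ : β₁ → ℝ) (r : ℕ) :
    ∑ k, (w k : ℝ) * Psi (b k) θ r = Psi (Mw b w) θ r := by
  simp only [Psi, Mw, mul_sum]
  rw [sum_comm]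
  refine sum_congr rfl fun j _ => ?_
  rw [sum_comm]
  refine sum_congr rfl fun i _ => ?_
  push_cast
  rw [sum_mul, sum_mul]
  refine sum_congr rfl fun k _ => ?_
  ring

/-- bracket functions as in `T3.rel_good` -/
private lemma Psi_fract {β : Type} [Fintype β] (M : β → β → ℤ) (x : β → ℝ) (r : ℕ) :
    ∃ z : ℤ, Psi M x r = (∑ p, (∑ q, (M p q : ℝ) * Int.fract (x q)) * x p) * r +
      ∑ p, -(∑ q, (M p q : ℝ) * Int.fract (x q)) * Int.fract ((r : ℝ) * x p) + z := by
  refine ⟨∑ p, ∑ q, M p q * ⌊(r : ℝ) * x p⌋ * ⌊x q⌋, ?_⟩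
  push_cast
  rw [Psi, sum_mul, ← sum_add_distrib, ← sum_add_distrib]
  refine sum_congr rfl fun p _ => ?_
  have h3 := Int.floor_add_fract ((r : ℝ) * x p)
  set ζ : ℝ := ∑ q, (M p q : ℝ) * Int.fract (x q) with hζ
  have h4 : ζ * x p * r + -ζ * Int.fract ((r : ℝ) * x p) = ζ * (⌊(r : ℝ) * x p⌋ : ℝ) := by
    have h5 : (⌊(r : ℝ) * x p⌋ : ℝ) = r * x p - Int.fract ((r : ℝ) * x p) := by linarith
    rw [h5]
    ring
  rw [h4, hζ, sum_mul, ← sum_add_distrib]
  refine sum_congr rfl fun q _ => ?_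
  have h2 := Int.floor_add_fract (x q)
  calc (M p q : ℝ) * (⌊(r : ℝ) * x p⌋ : ℝ) * x q
      = (M p q : ℝ) * (⌊(r : ℝ) * x p⌋ : ℝ) * ((⌊x q⌋ : ℝ) + Int.fract (x q)) := by rw [h2]
    _ = _ := by ring

/-- the shifts for which the square has no small relation with a part in the second level -/
private def GoodSh {β₁ β₂ : Type} [Fintype β₁] [Fintype β₂] (b : β₂ → β₁ → β₁ → ℤ) (θ : β₁ → ℝ)
    (K₂ : ℕ) (r : ℕ) : Prop :=
  ∀ q : β₁ ⊕ β₂ → ℤ, (∀ s, |q s| ≤ (K₂ : ℤ)) → (∃ z : ℤ, ∑ s, (q s : ℝ) * ths b θ r s = z) →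
    ∀ k, q (Sum.inr k) = 0

private lemma rare_not_good {β₁ β₂ : Type} [Fintype β₁] [Fintype β₂] (b : β₂ → β₁ → β₁ → ℤ)
    (K₂ : ℕ) (ε' : ℝ) (hε' : 0 < ε') : ∃ δ₀ : ℝ, 0 < δ₀ ∧ ∀ (K : ℕ) (δ : ℝ), K₂ ≤ K → δ ≤ δ₀ →
      ∀ θ : β₁ → ℝ, GGd b K δ θ → Rare ε' fun r => ¬ GoodSh b θ K₂ r := by
  classical
  set S : Finset (β₁ ⊕ β₂ → ℤ) := (Fintype.piFinset fun _ => Icc (-(K₂ : ℤ)) K₂).filter
    (fun q => (fun k => q (Sum.inr k)) ≠ 0) with hS
  refine ⟨ε' / (S.card + 1), by positivity, fun K δ hK hδ θ hG => ?_⟩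
  have h1 : ∀ q ∈ S, Rare δ fun r => ∃ z : ℤ, ∑ s, (q s : ℝ) * ths b θ r s = z := by
    intro q hq
    rw [hS, mem_filter, Fintype.mem_piFinset] at hq
    obtain ⟨hq1, hq2⟩ := hq
    refine (hG (fun k => q (Sum.inr k)) hq2 (fun k => ?_) (∑ j, (q (Sum.inl j) : ℝ) * θ j)).mono
      le_rfl ?_
    · have h := mem_Icc.1 (hq1 (Sum.inr k))
      rw [abs_le]
      have hK' : (K₂ : ℤ) ≤ K := by exact_mod_cast hK
      constructor <;> omega
    · rintro r _ ⟨z, hz⟩
      refine ⟨z, ?_⟩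
      rw [Fintype.sum_sum_type] at hz
      simp only [ths, Sum.elim_inl, Sum.elim_inr] at hz
      rw [sum_Psi b (fun k => q (Sum.inr k)) θ r] at hz
      exact hz
  refine (Rare.bunion S (δ := fun _ => δ) h1).mono ?_ ?_
  · rw [sum_const, nsmul_eq_mul]
    have h2 : (S.card : ℝ) * δ ≤ S.card * (ε' / (S.card + 1)) :=
      mul_le_mul_of_nonneg_left hδ (Nat.cast_nonneg _)
    refine h2.trans ?_
    rw [mul_div_assoc', div_le_iff₀ (by positivity)]
    nlinarith
  · intro r _ hr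
    rw [GoodSh] at hr
    push Not at hr
    obtain ⟨q, hq, hz, k, hk⟩ := hr
    refine ⟨q, ?_, hz⟩
    rw [hS, mem_filter, Fintype.mem_piFinset]
    refine ⟨fun s => mem_Icc.2 (abs_le.1 (hq s)), fun h0 => hk (congrFun h0 k)⟩

/-- Section 6 (b) of the paper proof.  RECIPE.  Let `M p q = ∑ k, w k * b' k p q` for `w` on
`β₂ ⊕ β₃`, `|w| ≤ K₁`, `Z` a bound for all `∑ q, |M p q|` (over all such `w`),
`K₂` from `gb (α := β₂) (α' := β₁) Z δ₁`.  Call `r` good if every integer `q` on `β₁ ⊕ β₂` with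
`|q| ≤ K₂` and `∑ s, q s * ths b θ r s ∈ ℤ` has `q ∘ inr = 0`.
(1) `K ≥ K₁ + K₂`, and `δ ≤ δ₁`, `δ * (number of q) ≤ ε'`: by `GGd b K δ θ` all `r` outside a set
which is `Rare ε'` are good: for `q` with `w = q ∘ inr ≠ 0` one has
`∑ s, q s * ths b θ r s = (∑ j, q (inl j) * θ j) + Psi (Mw b w) θ r`; use `Rare.bunion`.
(2) Let `r` be good; show `GGd b' K₁ δ₁ (ths b θ r)`.  Let `w ≠ 0`, `|w| ≤ K₁`, `c` real.
 If `w ∘ inr = 0`, then `Psi (Mw b' w) (ths b θ r) ρ = Psi (Mw b (w ∘ inl)) θ ρ` by `h1 h2 h3`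
 and we are done by `GGd b K δ θ`.
 If `w ∘ inr ≠ 0`: for every real vector `x` and `M`:
 `Psi M x ρ = (∑ p, ζ p * x p) * ρ - ∑ p, ζ p * fract (ρ x p) + (integer)` with
 `ζ p = ∑ q, M p q * fract (x q)` (as in the proof of `T3.rel_good`).  So the event is of the form
 in `gb` with the coefficients `-ζ`, `θ := fun j => ths b θ r (inr j)`,
 `θ' := θ`.  `NR K₂` for the first holds because `r` is good (extend the relation by zero).  If
 `Bad K₂ …` held: the relations of `Bas` (for `j ∉ J`) are relations of `ths b θ r` with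
 coefficients at most `K₂`, so `a j i = 0` for `j ∉ J` and all `i : β₂`, hence `red1 … i = -D * ζ (inr i)`
 and `m * D * ζ (inr i)` is an integer for all `i : β₂`; but `M (inr i) (inr q) = 0` (by `h3 h4`), so
 `ζ (inr i) = ∑ q, M (inr i) (inl q) * fract (θ q)` and `m * D * ∑ q, M (inr i) (inl q) * θ q` is an
 integer, `M (inr i) (inl q) = ∑ k, w (inr k) * b' (inr k) (inr i) (inl q)`, `m * D ≤ K₂ ^ 2`:
 contradiction to `hT` (take `K ≥ K₂ ^ 2`). -/
theorem gg_sq_num {β₁ β₂ β₃ : Type} [Fintype β₁] [Fintype β₂] [Fintype β₃] [DecidableEq β₁]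
    (b : β₂ → β₁ → β₁ → ℤ) (b' : β₂ ⊕ β₃ → β₁ ⊕ β₂ → β₁ ⊕ β₂ → ℤ)
    (h1 : ∀ k j i, b' (Sum.inl k) (Sum.inl j) (Sum.inl i) = b k j i)
    (h2 : ∀ k j i, b' (Sum.inl k) (Sum.inl j) (Sum.inr i) = 0)
    (h3 : ∀ k j q, b' (Sum.inl k) (Sum.inr j) q = 0)
    (h4 : ∀ k j i, b' (Sum.inr k) (Sum.inr j) (Sum.inr i) = 0)
    (K₁ : ℕ) (δ₁ : ℝ) (hδ₁ : 0 < δ₁) (ε' : ℝ) (hε' : 0 < ε') :
    ∃ (K : ℕ) (δ : ℝ), 0 < δ ∧ ∀ θ : β₁ → ℝ,
      (∀ w : β₃ → ℤ, w ≠ 0 → (∀ k, |w k| ≤ (K : ℤ)) → ∃ j : β₂, ∀ m : ℕ, 1 ≤ m → m ≤ K → ∀ z : ℤ,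
        (m : ℝ) * ∑ i, (∑ k, (w k : ℝ) * (b' (Sum.inr k) (Sum.inr j) (Sum.inl i) : ℝ)) * θ i ≠ z) →
      GGd b K δ θ → Rare ε' fun r => ¬ GGd b' K₁ δ₁ (ths b θ r) := by
  classical
  set Zb : ℕ := K₁ * ∑ p, ∑ q, ∑ k, (b' k p q).natAbs with hZb
  obtain ⟨K₂, hK₂⟩ := gb (α := β₂) (α' := β₁) (Zb : ℝ) (Nat.cast_nonneg _) δ₁ hδ₁
  obtain ⟨δ₀, hδ₀, hδ₀'⟩ := rare_not_good b K₂ ε' hε'
  refine ⟨K₁ + K₂ + K₂ * K₂, min δ₀ δ₁, lt_min hδ₀ hδ₁, fun θ hT hG => ?_⟩
  refine (hδ₀' _ _ (by nlinarith) (min_le_left _ _) θ hG).mono le_rfl ?_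
  intro r _ hnot hgood
  apply hnot
  intro w hw hwK c
  set x : β₁ ⊕ β₂ → ℝ := ths b θ r with hx
  have hxl : ∀ j, x (Sum.inl j) = θ j := fun j => rfl
  by_cases hwr : (fun k => w (Sum.inr k)) = 0
  · -- only the first level
    have hwr' : ∀ k, w (Sum.inr k) = 0 := fun k => congrFun hwr k
    have hwl : (fun k => w (Sum.inl k)) ≠ 0 := by
      intro h0
      apply hw
      funext k
      rcases k with k | k
      · exact congrFun h0 k
      · exact hwr' k
    refine (hG (fun k => w (Sum.inl k)) hwl (fun k => (hwK _).trans ?_) c).mono (min_le_right _ _) ?_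
    · push_cast
      nlinarith
    · rintro ρ _ ⟨z, hz⟩
      refine ⟨z, ?_⟩
      rw [← hz]
      congr 1
      have hM1 : ∀ j i, Mw b' w (Sum.inl j) (Sum.inl i) = Mw b (fun k => w (Sum.inl k)) j i := by
        intro j i
        rw [Mw, Fintype.sum_sum_type, Mw]
        simp only [hwr', zero_mul, sum_const_zero, add_zero, h1]
      have hM2 : ∀ j i, Mw b' w (Sum.inl j) (Sum.inr i) = 0 := by
        intro j i
        rw [Mw, Fintype.sum_sum_type]
        simp only [hwr', zero_mul, sum_const_zero, add_zero, h2, mul_zero]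
      have hM3 : ∀ j q, Mw b' w (Sum.inr j) q = 0 := by
        intro j q
        rw [Mw, Fintype.sum_sum_type]
        simp only [hwr', zero_mul, sum_const_zero, add_zero, h3, mul_zero]
      rw [Psi, Psi, Fintype.sum_sum_type]
      simp only [hM3, Int.cast_zero, zero_mul, sum_const_zero, add_zero, Fintype.sum_sum_type, hM2,
        hM1, hxl]
  · -- the second level
    set M := Mw b' w with hM
    set ζ : β₁ ⊕ β₂ → ℝ := fun p => ∑ q, (M p q : ℝ) * Int.fract (x q) with hζ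
    have hMb : ∀ p, ∑ q, ((M p q).natAbs : ℝ) ≤ (Zb : ℝ) := by
      intro p
      have h5 : ∑ q, (M p q).natAbs ≤ Zb := by
        calc ∑ q, (M p q).natAbs ≤ ∑ q, K₁ * ∑ k, (b' k p q).natAbs := by
              refine sum_le_sum fun q _ => ?_
              rw [hM, Mw]
              refine (Int.natAbs_sum_le _ _).trans ?_
              rw [mul_sum]
              refine sum_le_sum fun k _ => ?_
              rw [Int.natAbs_mul]
              refine Nat.mul_le_mul_right _ ?_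
              have h6 := hwK k
              rw [Int.abs_eq_natAbs] at h6
              exact_mod_cast h6
          _ = K₁ * ∑ q, ∑ k, (b' k p q).natAbs := by rw [mul_sum]
          _ ≤ Zb := by
              rw [hZb]
              refine Nat.mul_le_mul_left _ ?_
              exact single_le_sum (f := fun p => ∑ q, ∑ k, (b' k p q).natAbs)
                (fun _ _ => Nat.zero_le _) (mem_univ p)
      exact_mod_cast h5
    have hζb : ∀ p, |ζ p| ≤ (Zb : ℝ) := by
      intro p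
      refine (abs_sum_le_sum_abs _ _).trans (le_trans (sum_le_sum fun q _ => ?_) (hMb p))
      rw [abs_mul, abs_of_nonneg (Int.fract_nonneg (x q))]
      have h5 : |(M p q : ℝ)| = ((M p q).natAbs : ℝ) := by
        rw [Nat.cast_natAbs, Int.cast_abs]
      rw [h5]
      exact mul_le_of_le_one_right (Nat.cast_nonneg _) (Int.fract_lt_one _).le
    have hNR : NR K₂ (fun k => x (Sum.inr k)) := by
      intro k hk hkK z hz
      apply hk
      funext i
      refine hgood (Sum.elim 0 k) ?_ ⟨z, ?_⟩ i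
      · rintro (s | s)
        · simp
        · exact hkK s
      · rw [Fintype.sum_sum_type]
        simp only [Sum.elim_inl, Sum.elim_inr, Pi.zero_apply, Int.cast_zero, zero_mul,
          sum_const_zero, zero_add]
        exact hz
    have hBad : ¬ Bad K₂ (fun k => x (Sum.inr k)) θ (∑ p, ζ p * x p) (fun i => -ζ (Sum.inr i))
        (fun i => -ζ (Sum.inl i)) := by
      rintro ⟨J, D, a, a', w₁, ⟨hD1, hDK, haK, ha'K, ha'J, hrel⟩, m, k, k', w₀, hm1, hmK, _, _, _,
        hr1, _⟩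
      have ha0 : ∀ j, j ∉ J → ∀ i, a j i = 0 := by
        intro j hj i
        refine hgood (Sum.elim (fun i => a' j i - if i = j then (D : ℤ) else 0) (a j)) ?_
          ⟨-w₁ j, ?_⟩ i
        · rintro (s | s)
          · simp only [Sum.elim_inl]
            by_cases hs : s = j
            · rw [if_pos hs, hs, ha'J j j hj, zero_sub, abs_neg, Nat.abs_cast]
              exact_mod_cast hDK
            · rw [if_neg hs, sub_zero]
              exact ha'K j s
          · exact haK j s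
        · rw [Fintype.sum_sum_type]
          simp only [Sum.elim_inl, Sum.elim_inr]
          have h6 := hrel j hj
          have h7 : ∑ i, (((a' j i - if i = j then (D : ℤ) else 0 : ℤ)) : ℝ) * x (Sum.inl i) =
              ∑ i, (a' j i : ℝ) * θ i - D * θ j := by
            have h8 : ∀ i, (((a' j i - if i = j then (D : ℤ) else 0 : ℤ)) : ℝ) * x (Sum.inl i) =
                (a' j i : ℝ) * θ i - (if i = j then (D : ℝ) * θ j else 0) := by
              intro i
              rw [hxl]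
              by_cases hi : i = j
              · rw [if_pos hi, if_pos hi, hi]
                push_cast
                ring
              · rw [if_neg hi, if_neg hi]
                push_cast
                ring
            rw [sum_congr rfl fun i _ => h8 i, sum_sub_distrib, sum_ite_eq' univ j]
            simp
          have h9 : ∑ i, (a j i : ℝ) * ths b θ r (Sum.inr i) =
              ∑ i, (a j i : ℝ) * x (Sum.inr i) := rfl
          have h10 : ∑ i, (((a' j i - if i = j then (D : ℤ) else 0 : ℤ)) : ℝ) *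
              ths b θ r (Sum.inl i) = ∑ i, (((a' j i - if i = j then (D : ℤ) else 0 : ℤ)) : ℝ) *
              x (Sum.inl i) := rfl
          rw [h10, h7, h9]
          push_cast
          linarith
      obtain ⟨j, hj⟩ := hT (fun k => w (Sum.inr k)) hwr (fun k => (hwK _).trans (by
        push_cast
        nlinarith))
      have hMr : ∀ q, M (Sum.inr j) (Sum.inr q) = 0 := by
        intro q
        rw [hM, Mw, Fintype.sum_sum_type]
        simp only [h3, h4, mul_zero, sum_const_zero, add_zero]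
      have hMl : ∀ q, M (Sum.inr j) (Sum.inl q) =
          ∑ k, w (Sum.inr k) * b' (Sum.inr k) (Sum.inr j) (Sum.inl q) := by
        intro q
        rw [hM, Mw, Fintype.sum_sum_type]
        simp only [h3, mul_zero, sum_const_zero, zero_add]
      have hζj : ζ (Sum.inr j) = ∑ q, (M (Sum.inr j) (Sum.inl q) : ℝ) * Int.fract (θ q) := by
        rw [hζ]
        simp only [Fintype.sum_sum_type, hMr, Int.cast_zero, zero_mul, sum_const_zero, add_zero,
          hxl]
      have h6 := hr1 j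
      have h7 : red1 J D a (fun i => -ζ (Sum.inr i)) (fun i => -ζ (Sum.inl i)) j =
          -(D * ζ (Sum.inr j)) := by
        rw [red1]
        have h8 : ∑ j' ∈ univ \ J, -ζ (Sum.inl j') * (a j' j : ℝ) = 0 := by
          refine sum_eq_zero fun j' hj' => ?_
          rw [ha0 j' (mem_sdiff.1 hj').2 j, Int.cast_zero, mul_zero]
        rw [h8]
        ring
      rw [h7] at h6
      refine hj (m * D) (Nat.mul_pos hm1 hD1) ?_
        (-k j + ∑ q, (m : ℤ) * D * M (Sum.inr j) (Sum.inl q) * ⌊θ q⌋) ?_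
      · calc m * D ≤ K₂ * K₂ := Nat.mul_le_mul hmK hDK
          _ ≤ K₁ + K₂ + K₂ * K₂ := Nat.le_add_left _ _
      · have h9 : ∑ i, (∑ k, (w (Sum.inr k) : ℝ) *
            (b' (Sum.inr k) (Sum.inr j) (Sum.inl i) : ℝ)) * θ i =
            ζ (Sum.inr j) + ∑ q, (M (Sum.inr j) (Sum.inl q) : ℝ) * (⌊θ q⌋ : ℝ) := by
          rw [hζj, ← sum_add_distrib]
          refine sum_congr rfl fun q _ => ?_
          rw [hMl q]
          push_cast
          have h10 := Int.floor_add_fract (θ q)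
          rw [← mul_add, add_comm (Int.fract (θ q)), h10]
        rw [h9]
        have h11 : ∑ q, (m : ℝ) * D * (M (Sum.inr j) (Sum.inl q) : ℝ) * (⌊θ q⌋ : ℝ) =
            (m : ℝ) * D * ∑ q, ((M (Sum.inr j) (Sum.inl q) : ℝ) * (⌊θ q⌋ : ℝ)) := by
          rw [mul_sum]
          exact sum_congr rfl fun q _ => by ring
        rw [Int.cast_add, Int.cast_neg, Int.cast_sum]
        simp only [Int.cast_mul, Int.cast_natCast, Nat.cast_mul]
        rw [h11]
        linear_combination -h6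
    refine (hK₂ (fun k => x (Sum.inr k)) θ hNR (∑ p, ζ p * x p) c (fun i => -ζ (Sum.inr i))
      (fun i => -ζ (Sum.inl i)) (fun i => by rw [abs_neg]; exact hζb _)
      (fun i => by rw [abs_neg]; exact hζb _) hBad).mono le_rfl ?_
    rintro ρ _ ⟨z, hz⟩
    obtain ⟨z', hz'⟩ := Psi_fract M x ρ
    refine ⟨z - z', ?_⟩
    rw [hz', Fintype.sum_sum_type (fun p => -(∑ q, (M p q : ℝ) * Int.fract (x q)) *
      Int.fract ((ρ : ℝ) * x p))] at hz
    push_cast
    simp only [hxl] at hz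
    simp only [hζ]
    linarith

end Pool.Agent.Lib.MP_663568_nt.E
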