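import Pool.Agent.Lib.MP_663568_e.EDefs

/-!
Row E09A: the functions on the relative square, with the frequencies of the given function.
-/

set_option autoImplicit false
open Finset

namespace Pool.Agent.Lib.MP_663568_nt.E

open Katai Tw Fib Nul T3

variable {G : Type} [Group G] [TopologicalSpace G] [IsTopologicalGroup G] {A : ℕ → Subgroup G}
  {Γ : Subgroup G}
  {β : ℕ → Type} [∀ s, Fintype (β s)] [∀ s, DecidableEq (β s)]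
  {π : (s : ℕ) → G → β s → ℝ} {e : (s : ℕ) → β s → ℝ → G}

/-- One translate. -/
private theorem one_decomp_freq (hN : NS A Γ π e) (s : ℕ) (hs : 1 ≤ s) (F : G → ℂ)
    (hF : LevN A Γ e (s + 1) F) (hG : GoodN e (s + 1) F) (y y' : G) (ε : ℝ) (hε : 0 < ε) :
    ∃ (ι : Type) (_ : Fintype ι) (Ψ : ι → SqG A hN.anti hN.comm hN.A0 → ℂ),
      (∀ i, LevN (sqA A hN.anti hN.comm hN.A0) (sqΓ A hN.anti hN.comm hN.A0 Γ)
        (sqe A hN.anti hN.comm hN.A0 e) s (Ψ i) ∧ GoodN (sqe A hN.anti hN.comm hN.A0 e) s (Ψ i) ∧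
        ∀ j m, Freq (e (s + 1) j) m F →
          Freq (sqe A hN.anti hN.comm hN.A0 e s (Sum.inr j)) m (Ψ i)) ∧
      ∀ p : SqG A hN.anti hN.comm hN.A0,
        ‖F (y * p.1.1) * (starRingEnd ℂ) (F (y' * p.1.2)) - ∑ i, Ψ i p‖ ≤ ε := by
  obtain ⟨j₀, m₀, hm₀, hfr⟩ := hG
  obtain ⟨hreg, hinv, hm⟩ := hF
  choose m hm using hm
  have hS := ns_sq hN
  have hC : Cocompact' (sqΓ A hN.anti hN.comm hN.A0 Γ) := by
    obtain ⟨C, hC1, _, hC2⟩ := hS.coc 0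
    exact ⟨C, hC1, fun x => hC2 x (by rw [hS.A0]; trivial)⟩
  obtain ⟨ι, hι, Ψ, hΨ, happ⟩ := fourier_list (sqΓ A hN.anti hN.comm hN.A0 Γ) hC
    ((univ : Finset (sqβ β s)).toList.map (sqe A hN.anti hN.comm hN.A0 e s))
    (by
      intro c hc
      obtain ⟨j, _, rfl⟩ := List.mem_map.1 hc
      exact (hS.e_onep s hs j).1)
    (fun Ψ => Reg (sqΓ A hN.anti hN.comm hN.A0 Γ) Ψ ∧
      Inv (sqA A hN.anti hN.comm hN.A0 (s + 1)) Ψ ∧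
      ∀ j m, Freq (e (s + 1) j) m F → Freq (sqe A hN.anti hN.comm hN.A0 e s (Sum.inr j)) m Ψ)
    (fun Ψ h => h.1)
    (by
      intro Ψ h c hc x
      obtain ⟨j, _, rfl⟩ := List.mem_map.1 hc
      exact gamma_act _ hS.comm hS.A1 h.1 h.2.1 (hS.e_onep s hs j).2.1
        ((hS.e_onep s hs j).2.2 1) x)
    (by
      intro Ψ h c hc c' hc' r r' x
      obtain ⟨j, _, rfl⟩ := List.mem_map.1 hc
      obtain ⟨j', _, rfl⟩ := List.mem_map.1 hc'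
      exact swap_eq _ hS.comm hS.anti hs h.2.1 ((hS.e_onep s hs j).2.2 r)
        ((hS.e_onep s hs j').2.2 r') x)
    (by
      intro Ψ h c hc m'
      obtain ⟨j, _, rfl⟩ := List.mem_map.1 hc
      refine ⟨reg_Pop _ Ψ h.1 _ (hS.e_onep s hs j).1.1 m',
        FDec.inv_Pop _ hS.anti hS.comm hS.A1 h.2.1 _ m',
        fun j₁ m₁ hj₁ => Net.freq_comm_Pop (h.2.2 j₁ m₁ hj₁) ?_ m'⟩
      intro r r' x
      exact swap_eq _ hS.comm hS.anti hs h.2.1 ((hS.e_onep s hs j).2.2 r)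
        ((hS.e_onep s hs _).2.2 r') x)
    (fun Ψ h c => ⟨reg_const_mul h.1 c, fun z hz x => by
        show c * Ψ (z * x) = c * Ψ x
        rw [h.2.1 z hz x], fun j₁ m₁ hj₁ => (h.2.2 j₁ m₁ hj₁).mul_const c⟩)
    (Net.prodF A hN.anti hN.comm hN.A0 F y y')
    ⟨Net.reg_prodF hN hreg y y', Net.inv_prodF hN hinv m hm y y',
      fun j₁ m₁ hj₁ => Net.freq_prodF hN hs hinv hj₁ y y'⟩ ε hε
  refine ⟨ι, hι, Ψ, fun i => ⟨⟨(hΨ i).1.1, (hΨ i).1.2.1, fun j => ?_⟩,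
    ⟨Sum.inr j₀, m₀, hm₀, (hΨ i).1.2.2 j₀ m₀ hfr⟩, (hΨ i).1.2.2⟩, happ⟩
  exact (hΨ i).2 _ (List.mem_map.2 ⟨j, by simp, rfl⟩)

/-- A compact set of translates. -/
theorem net_decomp_freq (hN : NS A Γ π e) (s : ℕ) (hs : 1 ≤ s) (F : G → ℂ)
    (hF : LevN A Γ e (s + 1) F) (hG : GoodN e (s + 1) F) (X : Set G) (hX : IsCompact X)
    (ε : ℝ) (hε : 0 < ε) :
    ∃ (N : Type) (_ : Fintype N) (ι : N → Type) (_ : ∀ ν, Fintype (ι ν))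
      (Ψ : (ν : N) → ι ν → SqG A hN.anti hN.comm hN.A0 → ℂ),
      (∀ ν i, LevN (sqA A hN.anti hN.comm hN.A0) (sqΓ A hN.anti hN.comm hN.A0 Γ)
        (sqe A hN.anti hN.comm hN.A0 e) s (Ψ ν i) ∧
        GoodN (sqe A hN.anti hN.comm hN.A0 e) s (Ψ ν i) ∧
        ∀ j m, Freq (e (s + 1) j) m F →
          Freq (sqe A hN.anti hN.comm hN.A0 e s (Sum.inr j)) m (Ψ ν i)) ∧
      ∀ y ∈ X, ∀ y' ∈ X, ∃ ν, ∀ p : SqG A hN.anti hN.comm hN.A0,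
        ‖F (y * p.1.1) * (starRingEnd ℂ) (F (y' * p.1.2)) - ∑ i, Ψ ν i p‖ ≤ ε := by
  have hC : Cocompact' Γ := by
    obtain ⟨C, hC1, _, hC2⟩ := hN.coc 0
    exact ⟨C, hC1, fun x => hC2 x (by rw [hN.A0]; trivial)⟩
  obtain ⟨B, hB0, hB⟩ := reg_bdd hC hF.1
  set η := ε / (4 * B) with hη
  have hηpos : 0 < η := by positivity
  have hV := reg_unif Γ hC F hF.1 η hηpos
  have hcov : ∀ y₀ ∈ X, {y : G | ∀ x, ‖F ((y * y₀⁻¹) * x) - F x‖ ≤ η} ∈ nhds y₀ := by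
    intro y₀ _
    have hc : Filter.Tendsto (fun y : G => y * y₀⁻¹) (nhds y₀) (nhds 1) := by
      have : Continuous fun y : G => y * y₀⁻¹ := by fun_prop
      have h := this.tendsto y₀
      rwa [mul_inv_cancel] at h
    exact hc.eventually hV
  obtain ⟨t, _, htX⟩ := hX.elim_nhds_subcover _ hcov
  have h1 : ∀ ν : {x // x ∈ t} × {x // x ∈ t}, ∃ (ι : Type) (_ : Fintype ι)
      (Ψ : ι → SqG A hN.anti hN.comm hN.A0 → ℂ),
      (∀ i, LevN (sqA A hN.anti hN.comm hN.A0) (sqΓ A hN.anti hN.comm hN.A0 Γ)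
        (sqe A hN.anti hN.comm hN.A0 e) s (Ψ i) ∧ GoodN (sqe A hN.anti hN.comm hN.A0 e) s (Ψ i) ∧
        ∀ j m, Freq (e (s + 1) j) m F →
          Freq (sqe A hN.anti hN.comm hN.A0 e s (Sum.inr j)) m (Ψ i)) ∧
      ∀ p : SqG A hN.anti hN.comm hN.A0,
        ‖F (ν.1.1 * p.1.1) * (starRingEnd ℂ) (F (ν.2.1 * p.1.2)) - ∑ i, Ψ i p‖ ≤ ε / 2 :=
    fun ν => one_decomp_freq hN s hs F hF hG ν.1.1 ν.2.1 (ε / 2) (by positivity)
  choose ι hι Ψ hΨ happ using h1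
  refine ⟨{x // x ∈ t} × {x // x ∈ t}, inferInstance, ι, hι, Ψ, hΨ, fun y hy y' hy' => ?_⟩
  have h2 := htX hy
  have h3 := htX hy'
  simp only [Set.mem_iUnion, Set.mem_ofPred_eq, exists_prop] at h2 h3
  obtain ⟨y₀, hy₀, h2⟩ := h2
  obtain ⟨y₀', hy₀', h3⟩ := h3
  refine ⟨(⟨y₀, hy₀⟩, ⟨y₀', hy₀'⟩), fun p => ?_⟩
  have h4 := happ (⟨y₀, hy₀⟩, ⟨y₀', hy₀'⟩) p
  have h5 : ‖F (y * p.1.1) - F (y₀ * p.1.1)‖ ≤ η := by
    have := h2 (y₀ * p.1.1)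
    rwa [show y * y₀⁻¹ * (y₀ * p.1.1) = y * p.1.1 by group] at this
  have h6 : ‖F (y' * p.1.2) - F (y₀' * p.1.2)‖ ≤ η := by
    have := h3 (y₀' * p.1.2)
    rwa [show y' * y₀'⁻¹ * (y₀' * p.1.2) = y' * p.1.2 by group] at this
  have h7 : ‖F (y * p.1.1) * (starRingEnd ℂ) (F (y' * p.1.2)) -
      F (y₀ * p.1.1) * (starRingEnd ℂ) (F (y₀' * p.1.2))‖ ≤ ε / 2 := by
    have e1 : F (y * p.1.1) * (starRingEnd ℂ) (F (y' * p.1.2)) -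
        F (y₀ * p.1.1) * (starRingEnd ℂ) (F (y₀' * p.1.2)) =
        (F (y * p.1.1) - F (y₀ * p.1.1)) * (starRingEnd ℂ) (F (y' * p.1.2)) +
        F (y₀ * p.1.1) * (starRingEnd ℂ) (F (y' * p.1.2) - F (y₀' * p.1.2)) := by
      rw [map_sub]; ring
    rw [e1]
    refine (norm_add_le _ _).trans ?_
    rw [norm_mul, norm_mul, RCLike.norm_conj, RCLike.norm_conj]
    have h8 : ‖F (y * p.1.1) - F (y₀ * p.1.1)‖ * ‖F (y' * p.1.2)‖ ≤ η * B :=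
      mul_le_mul h5 (hB _) (norm_nonneg _) hηpos.le
    have h9 : ‖F (y₀ * p.1.1)‖ * ‖F (y' * p.1.2) - F (y₀' * p.1.2)‖ ≤ B * η :=
      mul_le_mul (hB _) h6 (norm_nonneg _) hB0.le
    have h10 : η * B = ε / 4 := by
      rw [hη]; field_simp
    nlinarith
  calc _ = ‖(F (y * p.1.1) * (starRingEnd ℂ) (F (y' * p.1.2)) -
      F (y₀ * p.1.1) * (starRingEnd ℂ) (F (y₀' * p.1.2))) +
      (F (y₀ * p.1.1) * (starRingEnd ℂ) (F (y₀' * p.1.2)) -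
        ∑ i, Ψ (⟨y₀, hy₀⟩, ⟨y₀', hy₀'⟩) i p)‖ := by
        congr 1; ring
    _ ≤ ε / 2 + ε / 2 := (norm_add_le _ _).trans (add_le_add h7 h4)
    _ = ε := by ring

end Pool.Agent.Lib.MP_663568_nt.E
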