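import Pool.Agent.Lib.MP_663568_e.E09

/-!
Row E10: functions of level two.
-/

set_option autoImplicit false
open Finset

namespace Pool.Agent.Lib.MP_663568_nt.E

open Katai Tw Fib Nul T3

/-- linearity of the bracket function in the form -/
lemma psi_mw {β₁ β₂ : Type} [Fintype β₁] [Fintype β₂] (b : β₂ → β₁ → β₁ → ℤ) (w : β₂ → ℤ)
    (θ : β₁ → ℝ) (r : ℕ) : Psi (Mw b w) θ r = ∑ k, (w k : ℝ) * Psi (b k) θ r := by
  unfold Psi Mw
  push_cast
  simp only [mul_sum, sum_mul]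
  symm
  rw [sum_comm]
  refine sum_congr rfl fun j _ => ?_
  rw [sum_comm]
  refine sum_congr rfl fun i _ => sum_congr rfl fun k _ => ?_
  ring

/-- Functions of level one. -/
theorem loc_one {G : Type} [Group G] [TopologicalSpace G] [IsTopologicalGroup G]
    {A : ℕ → Subgroup G} {Γ : Subgroup G} {β : ℕ → Type} [∀ s, Fintype (β s)]
    [∀ s, DecidableEq (β s)] {π : (s : ℕ) → G → β s → ℝ} {e : (s : ℕ) → β s → ℝ → G}
    (hN : NS A Γ π e) (F : G → ℂ) (hF : LevN A Γ e 1 F) (m : β 1 → ℤ)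
    (hm : ∀ j, Freq (e 1 j) (m j) F) (θ : β 1 → ℝ) (hθ : ∀ z : ℤ, ∑ j, (m j : ℝ) * θ j ≠ z)
    (ε : ℝ) (hε : 0 < ε) : Loc (π 1) F θ ε := by
  obtain ⟨hreg, hinv, hfreq⟩ := hF
  have hco : Cocompact' Γ := by
    obtain ⟨C, hC, _, h2⟩ := hN.coc 0
    refine ⟨C, hC, fun x => h2 x ?_⟩
    rw [hN.A0]
    exact Subgroup.mem_top x
  obtain ⟨B, hB0, hB⟩ := reg_bdd hco hreg
  set τ₀ : ℝ := ∑ j, (m j : ℝ) * θ j with hτ₀
  have hnd : 0 < nd τ₀ := by
    obtain ⟨z, hz⟩ := nd_exists τ₀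
    rw [hz, abs_pos, sub_ne_zero]
    exact hθ z
  set S : ℝ := ∑ j, |(m j : ℝ)| + 1 with hS
  have hS0 : 0 < S := by
    have : 0 ≤ ∑ j, |(m j : ℝ)| := Finset.sum_nonneg fun _ _ => abs_nonneg _
    linarith
  refine ⟨nd τ₀ / (2 * S), by positivity, ?_⟩
  obtain ⟨L₀, hL₀⟩ := exists_nat_gt (B / (nd τ₀ * ε))
  refine ⟨L₀, fun L hL g x hg => ?_⟩
  set τ : ℝ := ∑ j, (m j : ℝ) * π 1 g j with hτ
  have hτd : |τ - τ₀| ≤ nd τ₀ / 2 := by
    have h1 : τ - τ₀ = ∑ j, (m j : ℝ) * (π 1 g j - θ j) := by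
      rw [hτ, hτ₀, ← Finset.sum_sub_distrib]
      exact Finset.sum_congr rfl fun j _ => by ring
    rw [h1]
    calc |∑ j, (m j : ℝ) * (π 1 g j - θ j)| ≤ ∑ j, |(m j : ℝ) * (π 1 g j - θ j)| :=
          abs_sum_le_sum_abs _ _
      _ ≤ ∑ j, |(m j : ℝ)| * (nd τ₀ / (2 * S)) := by
          refine Finset.sum_le_sum fun j _ => ?_
          rw [abs_mul]
          exact mul_le_mul_of_nonneg_left (hg j).le (abs_nonneg _)
      _ = (∑ j, |(m j : ℝ)|) * (nd τ₀ / (2 * S)) := by rw [Finset.sum_mul]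
      _ ≤ S * (nd τ₀ / (2 * S)) := by
          refine mul_le_mul_of_nonneg_right ?_ (by positivity)
          rw [hS]; linarith
      _ = nd τ₀ / 2 := by field_simp
  have hndτ : nd τ₀ / 2 ≤ nd τ := by
    have h1 := nd_le_add_abs τ₀ τ
    rw [abs_sub_comm] at h1
    linarith
  have hF1 : ∀ l : ℕ, F (g ^ l * x) = ee (τ * l + 0) * F x := by
    intro l
    have hgl : g ^ l ∈ A 1 := by rw [hN.A1]; exact Subgroup.mem_top _
    rw [lev_act hN le_rfl hinv m hm hgl x, pi_pow hN]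
    congr 2
    rw [hτ, add_zero, Finset.sum_mul]
    exact Finset.sum_congr rfl fun j _ => by ring
  have hsum : ∑ l ∈ Icc 1 L, F (g ^ l * x) = (∑ l ∈ Icc 1 L, ee (τ * l + 0)) * F x := by
    rw [Finset.sum_mul]
    exact Finset.sum_congr rfl fun l _ => hF1 l
  have hgeo := geom_bound τ 0 L
  have h4 := nd_le_norm_one_sub_ee τ
  have hN1 : nd τ₀ * ‖∑ l ∈ Icc 1 L, ee (τ * l + 0)‖ ≤ 1 := by
    have h5 : 2 * nd τ₀ ≤ ‖1 - ee τ‖ := by linarith
    have h6 : 2 * nd τ₀ * ‖∑ l ∈ Icc 1 L, ee (τ * l + 0)‖ ≤ 2 :=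
      (mul_le_mul_of_nonneg_right h5 (norm_nonneg _)).trans hgeo
    linarith
  rw [hsum, norm_mul]
  have hLr : (L₀ : ℝ) ≤ L := by exact_mod_cast hL
  have h7 : B < nd τ₀ * ε * L := by
    have h8 : B / (nd τ₀ * ε) < L := hL₀.trans_le hLr
    rw [div_lt_iff₀ (by positivity)] at h8
    linarith
  have h9 : ‖∑ l ∈ Icc 1 L, ee (τ * l + 0)‖ ≤ 1 / nd τ₀ := by
    rw [le_div_iff₀ hnd]
    linarith
  calc ‖∑ l ∈ Icc 1 L, ee (τ * l + 0)‖ * ‖F x‖ ≤ 1 / nd τ₀ * B :=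
        mul_le_mul h9 (hB x) (norm_nonneg _) (by positivity)
    _ ≤ ε * L := by
        rw [one_div, inv_mul_le_iff₀ hnd]
        linarith

section

variable {G : Type} [Group G] [TopologicalSpace G] [IsTopologicalGroup G] {A : ℕ → Subgroup G}
  {Γ : Subgroup G}
  {β : ℕ → Type} [∀ s, Fintype (β s)] [∀ s, DecidableEq (β s)]
  {π : (s : ℕ) → G → β s → ℝ} {e : (s : ℕ) → β s → ℝ → G}

/-- The reduction to functions bounded by one. -/
theorem eg_reduce (hN : NS A Γ π e) (s : ℕ) (b : β 2 → β 1 → β 1 → ℤ)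
    (H : ∀ F : G → ℂ, LevN A Γ e s F → GoodN e s F → (∀ x, ‖F x‖ ≤ 1) → ∀ ε : ℝ, 0 < ε → ε ≤ 1 →
      ∃ (K : ℕ) (δ : ℝ), 0 < δ ∧ ∀ θ : β 1 → ℝ, TT π e s K θ → GGd b K δ θ → Loc (π 1) F θ ε)
    (F : G → ℂ) (hF : LevN A Γ e s F) (hG : GoodN e s F) (ε : ℝ) (hε : 0 < ε) :
    ∃ (K : ℕ) (δ : ℝ), 0 < δ ∧ ∀ θ : β 1 → ℝ, TT π e s K θ → GGd b K δ θ → Loc (π 1) F θ ε := by
  have hCo : Cocompact' Γ := by
    obtain ⟨C, hC1, _, hC3⟩ := hN.coc 0
    exact ⟨C, hC1, fun x => hC3 x (by rw [hN.A0]; trivial)⟩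
  obtain ⟨B, hB0, hB⟩ := reg_bdd hCo hF.1
  set F' : G → ℂ := fun x => (B : ℂ)⁻¹ * F x with hF'
  have hF'L : LevN A Γ e s F' := by
    refine ⟨reg_const_mul hF.1 _, fun z hz x => ?_, fun j => ?_⟩
    · simp only [hF']; rw [hF.2.1 z hz x]
    · obtain ⟨m, hm⟩ := hF.2.2 j
      exact ⟨m, hm.mul_const _⟩
  have hF'1 : ∀ x, ‖F' x‖ ≤ 1 := by
    intro x
    simp only [hF']
    rw [norm_mul, norm_inv, Complex.norm_real, Real.norm_eq_abs, abs_of_pos hB0,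
      inv_mul_le_iff₀ hB0, mul_one]
    exact hB x
  have hF'G : GoodN e s F' := by
    obtain ⟨j, m, hm, h⟩ := hG
    exact ⟨j, m, hm, h.mul_const _⟩
  obtain ⟨K, δ, hδ, hK⟩ := H F' hF'L hF'G hF'1 (min 1 (ε / B))
    (lt_min one_pos (by positivity)) (min_le_left _ _)
  refine ⟨K, δ, hδ, fun θ hT hGG => ?_⟩
  obtain ⟨ρ, hρ, L₀, h⟩ := hK θ hT hGG
  refine ⟨ρ, hρ, L₀, fun L hL g x hg => ?_⟩
  have h1 := h L hL g x hg
  have hLn : (0 : ℝ) ≤ L := Nat.cast_nonneg _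
  have e1 : ∑ l ∈ Icc 1 L, F (g ^ l * x) = (B : ℂ) * ∑ l ∈ Icc 1 L, F' (g ^ l * x) := by
    rw [mul_sum]
    refine sum_congr rfl fun l _ => ?_
    simp only [hF']
    have : (B : ℂ) ≠ 0 := by exact_mod_cast hB0.ne'
    field_simp
  rw [e1, norm_mul, Complex.norm_real, Real.norm_eq_abs, abs_of_pos hB0]
  calc B * ‖∑ l ∈ Icc 1 L, F' (g ^ l * x)‖ ≤ B * (min 1 (ε / B) * L) :=
        mul_le_mul_of_nonneg_left h1 hB0.le
    _ ≤ B * (ε / B * L) := by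
        refine mul_le_mul_of_nonneg_left ?_ hB0.le
        exact mul_le_mul_of_nonneg_right (min_le_right _ _) hLn
    _ = ε * L := by field_simp

/-- all frequencies of a function, not all zero -/
lemma exists_freq {s : ℕ} {F : G → ℂ} (hF : LevN A Γ e s F) (hG : GoodN e s F) :
    ∃ m : β s → ℤ, m ≠ 0 ∧ ∀ j, Freq (e s j) (m j) F := by
  obtain ⟨j₀, m₀, hm₀, hfr₀⟩ := hG
  choose m' hm' using hF.2.2
  refine ⟨Function.update m' j₀ m₀, ?_, ?_⟩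
  · intro h
    have h1 := congrFun h j₀
    rw [Function.update_self] at h1
    exact hm₀ h1
  · intro j
    by_cases hj : j = j₀
    · subst hj
      rw [Function.update_self]
      exact hfr₀
    · rw [Function.update_of_ne hj]
      exact hm' j

end

/-- Functions of level two. -/
theorem eg_two : EG 2 := by
  intro G _ _ _ A Γ β _ _ π e hN b hb F hF hG ε hε
  refine eg_reduce hN 2 b ?_ F hF hG ε hε
  clear hε ε hG hF F
  intro F hF hG hF1 ε hε hε1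
  classical
  obtain ⟨m, hm0, hm⟩ := exists_freq hF hG
  obtain ⟨I, hI, Ψ, ε₁, hε₁, hΨ, hstep⟩ := step_loc 1 le_rfl hN b hb F hF hG hF1 ε hε hε1
  -- the frequencies of the pieces
  have hfr : ∀ i, ∃ m' : sqβ β 1 → ℤ, (∀ j, m' (Sum.inr j) = m j) ∧
      ∀ p, Freq (sqe A hN.anti hN.comm hN.A0 e 1 p) (m' p) (Ψ i) := by
    intro i
    choose m₁ hm₁ using (hΨ i).1.2.2
    refine ⟨Sum.elim (fun j => m₁ (Sum.inl j)) m, fun j => rfl, ?_⟩
    rintro (j | j)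
    · exact hm₁ (Sum.inl j)
    · exact (hΨ i).2.2 j (m j) (hm j)
  choose m' hm'1 hm'2 using hfr
  set K : ℕ := ∑ j, (m j).natAbs with hK
  have hmK : ∀ j, |m j| ≤ (K : ℤ) := by
    intro j
    rw [Int.abs_eq_natAbs]
    exact_mod_cast Finset.single_le_sum (f := fun j => (m j).natAbs) (fun _ _ => Nat.zero_le _)
      (mem_univ j)
  have hcard : (0 : ℝ) < Fintype.card I + 1 := by positivity
  refine ⟨K, ε ^ 2 / 64 / (Fintype.card I + 1), by positivity, fun θ _ hGG => hstep θ ?_⟩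
  have h1 : ∀ i ∈ (univ : Finset I), Rare (ε ^ 2 / 64 / (Fintype.card I + 1)) fun r =>
      ∃ z : ℤ, (∑ j, (m' i (Sum.inl j) : ℝ) * θ j) + Psi (Mw b m) θ r = z :=
    fun i _ => hGG m hm0 hmK _
  have h2 := Rare.bunion (univ : Finset I) h1
  refine h2.mono ?_ ?_
  · rw [sum_const, card_univ, nsmul_eq_mul]
    have : (Fintype.card I : ℝ) * (ε ^ 2 / 64 / (Fintype.card I + 1)) =
        ε ^ 2 / 64 * (Fintype.card I / (Fintype.card I + 1)) := by ring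
    rw [this]
    apply mul_le_of_le_one_right (by positivity)
    rw [div_le_one hcard]
    linarith
  · intro r _ hr
    by_contra hcon
    apply hr
    intro i
    refine loc_one (ns_sq hN) (Ψ i) (hΨ i).1 (m' i) (hm'2 i) _ ?_ ε₁ hε₁
    intro z hz
    apply hcon
    refine ⟨i, mem_univ _, z, ?_⟩
    rw [← hz]
    have e1 : ∑ p : sqβ β 1, (m' i p : ℝ) * (ths b θ r : sqβ β 1 → ℝ) p =
        (∑ j : β 1, (m' i (Sum.inl j) : ℝ) * θ j) +
          ∑ k : β 2, (m' i (Sum.inr k) : ℝ) * Psi (b k) θ r :=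
      Fintype.sum_sum_type _
    rw [e1]
    congr 1
    simp only [hm'1]
    exact psi_mw b m θ r

end Pool.Agent.Lib.MP_663568_nt.E
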