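import Pool.Agent.Lib.MP_663568_e.E07
import Pool.Agent.Lib.MP_663568_e.E08
import Pool.Agent.Lib.MP_663568_e.E10

/-!
Row E11: the induction on the level.
-/

set_option autoImplicit false
open Finset

namespace Pool.Agent.Lib.MP_663568_nt.E

open Katai Tw Fib Nul T3

theorem TT.mono {G : Type} [Group G] {β : ℕ → Type} [∀ s, Fintype (β s)]
    {π : (s : ℕ) → G → β s → ℝ} {e : (s : ℕ) → β s → ℝ → G} {n K K' : ℕ} (hK : K' ≤ K)
    {θ : β 1 → ℝ} (h : TT π e n K θ) : TT π e n K' θ := by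
  intro t h1 h2 w hw hwK
  obtain ⟨j, hj⟩ := h t h1 h2 w hw fun k => (hwK k).trans (by exact_mod_cast hK)
  exact ⟨j, fun m hm1 hm2 => hj m hm1 (hm2.trans hK)⟩

theorem GGd.mono {β β₂ : Type} [Fintype β] [Fintype β₂] {b : β₂ → β → β → ℤ} {K K' : ℕ}
    {δ δ' : ℝ} {θ : β → ℝ} (h : GGd b K δ θ) (hK : K' ≤ K) (hδ : δ ≤ δ') : GGd b K' δ' θ :=
  fun w hw hwK c => (h w hw (fun k => (hwK k).trans (by exact_mod_cast hK)) c).mono hδ
    fun _ _ hr => hr

/-- The induction step. -/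
theorem eg_step (s : ℕ) (hs : 2 ≤ s) (ih : EG s) : EG (s + 1) := by
  intro G _ _ _ A Γ β _ _ π e hN b hb F hF hG ε hε
  refine eg_reduce hN (s + 1) b ?_ F hF hG ε hε
  clear hε ε hG hF F
  intro F hF hG hF1 ε hε hε1
  classical
  obtain ⟨I, hI, Ψ, ε₁, hε₁, hΨ, hstep⟩ := step_loc s (by omega) hN b hb F hF hG hF1 ε hε hε1
  have hSq := ns_sq hN
  obtain ⟨b', hb', _⟩ := comm_form hSq
  choose Ki δi hδi hmain using fun i => ih (SqG A hN.anti hN.comm hN.A0)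
    (sqA A hN.anti hN.comm hN.A0) (sqΓ A hN.anti hN.comm hN.A0 Γ) (sqβ β)
    (sqπ A hN.anti hN.comm hN.A0 π) (sqe A hN.anti hN.comm hN.A0 e) hSq b' hb' (Ψ i)
    (hΨ i).1 (hΨ i).2.1 ε₁ hε₁
  set K₁ : ℕ := ∑ i, Ki i with hK₁
  have hKle : ∀ i, Ki i ≤ K₁ := fun i =>
    single_le_sum (f := fun i => Ki i) (fun _ _ => Nat.zero_le _) (mem_univ i)
  set δ₁ : ℝ := 1 / (1 + ∑ i, 1 / δi i) with hδ₁
  have hsum0 : 0 ≤ ∑ i, 1 / δi i := sum_nonneg fun i _ => (one_div_pos.2 (hδi i)).le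
  have hδ₁0 : 0 < δ₁ := by positivity
  have hδle : ∀ i, δ₁ ≤ δi i := by
    intro i
    have h1 : 1 / δi i ≤ ∑ i, 1 / δi i :=
      single_le_sum (f := fun i => 1 / δi i) (fun i _ => (one_div_pos.2 (hδi i)).le) (mem_univ i)
    rw [hδ₁, one_div_le (by positivity) (hδi i)]
    linarith
  obtain ⟨f1, f2, f3, f4, f5⟩ := sq_form hN b hb b' hb'
  obtain ⟨K, δ, hδ, hK⟩ := gg_sq_num (β₁ := β 1) (β₂ := β 2) (β₃ := β 3) b b' f1 f2 f3 f4 K₁ δ₁
    hδ₁0 (ε ^ 2 / 64) (by positivity)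
  refine ⟨max K K₁, δ, hδ, fun θ hT hGG => hstep θ ?_⟩
  have h1 := hK θ (by
    intro w hw hwK
    obtain ⟨j, hj⟩ := hT 2 le_rfl (by omega) w hw fun k => (hwK k).trans (by
      exact_mod_cast le_max_left K K₁)
    refine ⟨j, fun m hm1 hm2 z => ?_⟩
    have h2 := hj m hm1 (hm2.trans (le_max_left _ _)) z
    intro h3
    apply h2
    rw [← h3]
    congr 1
    refine sum_congr rfl fun i _ => ?_
    congr 1
    refine sum_congr rfl fun k _ => ?_
    rw [f5]) (hGG.mono (le_max_left _ _) le_rfl)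
  refine h1.mono le_rfl ?_
  intro r _ hr hGd
  apply hr
  intro i
  refine hmain i _ ?_ (hGd.mono (hKle i) (hδle i))
  exact tt_sq hN s (Ki i) θ (hT.mono ((hKle i).trans (le_max_right _ _))) _

theorem eg_all (s : ℕ) (hs : 2 ≤ s) : EG s := by
  induction s, hs using Nat.le_induction with
  | base => exact eg_two
  | succ s hs ih => exact eg_step s hs ih

end Pool.Agent.Lib.MP_663568_nt.E
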