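import Pool.Agent.Lib.MP_663568_e.E04

/-!
Row E12: two real vectors of different size (Lemma FP of the paper proof).
-/

set_option autoImplicit false
open Finset

namespace Pool.Agent.Lib.MP_663568_nt.E

open Katai Nul T3

private lemma nri_zero {β : Type} [Fintype β] {θ : β → ℝ} (h : NRI θ) (c : β → ℤ) (z : ℤ)
    (hz : ∑ l, (c l : ℝ) * θ l = z) : c = 0 := by
  by_contra h0
  refine h (∑ l, (c l).natAbs) c h0 (fun j => ?_) z hz
  rw [Int.abs_eq_natAbs]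
  exact_mod_cast single_le_sum (f := fun l => (c l).natAbs) (fun _ _ => Nat.zero_le _) (mem_univ j)

/-- the bracket function as a combination of fractional parts -/
private lemma psi_eq {β : Type} [Fintype β] (M : β → β → ℤ) (θ : β → ℝ) (r : ℕ) :
    Psi M θ r = (∑ j, (∑ i, (M j i : ℝ) * Int.fract (θ i)) * θ j) * r
      + ∑ j, -(∑ i, (M j i : ℝ) * Int.fract (θ i)) * Int.fract ((r : ℝ) * θ j)
      + ((∑ j, ∑ i, M j i * ⌊(r : ℝ) * θ j⌋ * ⌊θ i⌋ : ℤ) : ℝ) := by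
  push_cast
  rw [sum_mul, ← sum_add_distrib, ← sum_add_distrib]
  unfold Psi
  refine sum_congr rfl fun j _ => ?_
  have h3 := Int.floor_add_fract ((r : ℝ) * θ j)
  have h5 : Int.fract ((r : ℝ) * θ j) = r * θ j - (⌊(r : ℝ) * θ j⌋ : ℝ) := by linarith
  rw [h5]
  have h4 : (∑ i, (M j i : ℝ) * Int.fract (θ i)) * θ j * r
      + -(∑ i, (M j i : ℝ) * Int.fract (θ i)) * (r * θ j - (⌊(r : ℝ) * θ j⌋ : ℝ))
      = (∑ i, (M j i : ℝ) * Int.fract (θ i)) * (⌊(r : ℝ) * θ j⌋ : ℝ) := by ring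
  rw [h4, sum_mul, ← sum_add_distrib]
  refine sum_congr rfl fun i _ => ?_
  have h2 := Int.floor_add_fract (θ i)
  calc (M j i : ℝ) * (⌊(r : ℝ) * θ j⌋ : ℝ) * θ i
      = (M j i : ℝ) * (⌊(r : ℝ) * θ j⌋ : ℝ) * ((⌊θ i⌋ : ℝ) + Int.fract (θ i)) := by rw [h2]
    _ = _ := by ring

private lemma fract_split {β : Type} [Fintype β] (M : β → β → ℤ) (θ : β → ℝ) (j : β) :
    ∑ i, (M j i : ℝ) * Int.fract (θ i) =
      ∑ i, (M j i : ℝ) * θ i - ((∑ i, M j i * ⌊θ i⌋ : ℤ) : ℝ) := by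
  push_cast
  rw [← sum_sub_distrib]
  refine sum_congr rfl fun i _ => ?_
  have h2 := Int.floor_add_fract (θ i)
  have h3 : Int.fract (θ i) = θ i - ⌊θ i⌋ := by linarith
  rw [h3]
  ring

/-- the form `Mw b w` is alternating -/
private lemma alt_zero {β β₂ : Type} [Fintype β] [Fintype β₂] (b : β₂ → β → β → ℤ)
    (hb : ∀ (k : β₂) (x : β → ℝ), ∑ j, ∑ i, (b k j i : ℝ) * x j * x i = 0) (w : β₂ → ℤ)
    (θ : β → ℝ) : ∑ j, (∑ i, (Mw b w j i : ℝ) * θ i) * θ j = 0 := by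
  have h1 : ∑ j, (∑ i, (Mw b w j i : ℝ) * θ i) * θ j =
      ∑ k, (w k : ℝ) * ∑ j, ∑ i, (b k j i : ℝ) * θ j * θ i := by
    calc ∑ j, (∑ i, (Mw b w j i : ℝ) * θ i) * θ j
        = ∑ j, ∑ i, ∑ k, (w k : ℝ) * ((b k j i : ℝ) * θ j * θ i) := by
          refine sum_congr rfl fun j _ => ?_
          rw [sum_mul]
          refine sum_congr rfl fun i _ => ?_
          unfold Mw
          push_cast
          rw [sum_mul, sum_mul]
          refine sum_congr rfl fun k _ => ?_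
          ring
      _ = ∑ j, ∑ k, ∑ i, (w k : ℝ) * ((b k j i : ℝ) * θ j * θ i) :=
          sum_congr rfl fun j _ => sum_comm
      _ = ∑ k, ∑ j, ∑ i, (w k : ℝ) * ((b k j i : ℝ) * θ j * θ i) := sum_comm
      _ = ∑ k, (w k : ℝ) * ∑ j, ∑ i, (b k j i : ℝ) * θ j * θ i := by
          refine sum_congr rfl fun k _ => ?_
          rw [mul_sum]
          refine sum_congr rfl fun j _ => ?_
          rw [mul_sum]
  rw [h1]
  exact sum_eq_zero fun k _ => by rw [hb k θ, mul_zero]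

/-- Section 7 of the paper proof.  RECIPE.  `Z` = bound for `∑ i, |Mw b w j i|` over all `j` and
`|w| ≤ K`, `K'` from `gb (α := β) (α' := β) Z δ`, `B = card β * K' + 1`.  Put `M = Mw b w`,
`M' = Mw b w'`, `ζ j = ∑ i, M j i * fract (θ i)`, `ζ' j = ∑ i, M' j i * fract (θ' i)`; then
`Psi M θ r = (∑ j, ζ j * θ j) * r - ∑ j, ζ j * fract (r θ j) + integer` (see `T3.rel_good`), so the
event is the one of `gb` with `lam = ∑ ζ j θ j + ∑ ζ' j θ' j` and coefficients `-ζ`, `-ζ'`.  Suppose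
`Bad K' θ θ' lam (-ζ) (-ζ')` with `J, D, a, a', w₁, m, k, k', w₀`.  Let `u j = ∑ i, M j i * θ i`,
`u' j = ∑ i, M' j i * θ' i`, `U = u - ζ`, `U' = u' - ζ'` (integers).
`κ i := m (D u i + ∑ j ∉ J, u' j * a j i) = m (D U i + ∑ j ∉ J, U' j * a j i) - k i ∈ ℤ`,
`κ' i := m (D u' i + ∑ j ∉ J, u' j * a' j i) ∈ ℤ` for `i ∈ J`.  `κ' i` is an integer combination of
the `θ' l`, so `κ' i = 0` by `NRI θ'` (an integral combination of the `θ'` which is an integer has
zero coefficients).  By `hb` (alternating) `∑ u j θ j = 0 = ∑ u' j θ' j`, so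
`lam = -∑ U j θ j - ∑ U' j θ' j`, and with the relations of `Bas` and the relation of `Bad` one finds
`∑ i, κ i * θ i + ∑ i ∈ J, κ' i * θ' i = - w₀ - m * ∑ j ∉ J, U' j * w₁ j`, an integer.  So
`∑ κ i θ i ∈ ℤ`, `κ = 0` by `NRI θ`, `D u i = - ∑ j ∉ J, u' j * a j i` and `|u i| ≤ card β * K' *
max |u' j|` for all `i`, which contradicts the hypothesis on `j₀`. -/
theorem fp_num {β β₂ : Type} [Fintype β] [Fintype β₂] [DecidableEq β]
    (b : β₂ → β → β → ℤ) (hb : ∀ (k : β₂) (x : β → ℝ), ∑ j, ∑ i, (b k j i : ℝ) * x j * x i = 0)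
    (K : ℕ) (δ : ℝ) (hδ : 0 < δ) :
    ∃ B : ℕ, ∀ θ θ' : β → ℝ, NRI θ → NRI θ' → ∀ w w' : β₂ → ℤ, (∀ k, |w k| ≤ (K : ℤ)) →
      (∀ k, |w' k| ≤ (K : ℤ)) → ∀ j₀ : β,
      (∀ j, (B : ℝ) * |∑ i, (Mw b w' j i : ℝ) * θ' i| < |∑ i, (Mw b w j₀ i : ℝ) * θ i|) →
      ∀ c : ℝ, Rare δ fun r => ∃ z : ℤ, c + Psi (Mw b w) θ r + Psi (Mw b w') θ' r = z := by
  classical
  -- bound for the coefficients
  have hMb : ∀ (v : β₂ → ℤ), (∀ k, |v k| ≤ (K : ℤ)) → ∀ (η : β → ℝ) (j : β),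
      |∑ i, (Mw b v j i : ℝ) * Int.fract (η i)| ≤
        (K : ℝ) * ∑ j, ∑ i, ∑ k, |(b k j i : ℝ)| := by
    intro v hv η j
    calc |∑ i, (Mw b v j i : ℝ) * Int.fract (η i)|
        ≤ ∑ i, |(Mw b v j i : ℝ) * Int.fract (η i)| := abs_sum_le_sum_abs _ _
      _ ≤ ∑ i, (K : ℝ) * ∑ k, |(b k j i : ℝ)| := by
          refine sum_le_sum fun i _ => ?_
          rw [abs_mul, abs_of_nonneg (Int.fract_nonneg (η i))]
          refine (mul_le_of_le_one_right (abs_nonneg _) (Int.fract_lt_one _).le).trans ?_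
          unfold Mw
          push_cast
          refine (abs_sum_le_sum_abs _ _).trans ?_
          rw [mul_sum]
          refine sum_le_sum fun k _ => ?_
          rw [abs_mul]
          refine mul_le_mul_of_nonneg_right ?_ (abs_nonneg _)
          exact_mod_cast hv k
      _ = (K : ℝ) * ∑ i, ∑ k, |(b k j i : ℝ)| := by rw [mul_sum]
      _ ≤ (K : ℝ) * ∑ j, ∑ i, ∑ k, |(b k j i : ℝ)| := by
          refine mul_le_mul_of_nonneg_left ?_ (Nat.cast_nonneg _)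
          exact single_le_sum (f := fun j => ∑ i, ∑ k, |(b k j i : ℝ)|)
            (fun _ _ => sum_nonneg fun _ _ => sum_nonneg fun _ _ => abs_nonneg _) (mem_univ j)
  obtain ⟨K', hgb⟩ := gb (α := β) (α' := β) ((K : ℝ) * ∑ j : β, ∑ i : β, ∑ k, |(b k j i : ℝ)|)
    (mul_nonneg (Nat.cast_nonneg _) (sum_nonneg fun _ _ => sum_nonneg fun _ _ =>
      sum_nonneg fun _ _ => abs_nonneg _)) δ hδ
  refine ⟨Fintype.card β * K' + 1, fun θ θ' hθ hθ' w w' hw hw' j₀ hj₀ c => ?_⟩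
  set ζ : β → ℝ := fun j => ∑ i, (Mw b w j i : ℝ) * Int.fract (θ i) with hζ
  set ζ' : β → ℝ := fun j => ∑ i, (Mw b w' j i : ℝ) * Int.fract (θ' i) with hζ'
  have hR := hgb θ θ' (hθ K') (∑ j, ζ j * θ j + ∑ j, ζ' j * θ' j) c (fun j => -ζ j)
    (fun j => -ζ' j) (fun j => by rw [abs_neg]; exact hMb w hw θ j)
    (fun j => by rw [abs_neg]; exact hMb w' hw' θ' j) ?_
  · refine hR.mono le_rfl fun r _ hr => ?_
    obtain ⟨z, hz⟩ := hr
    refine ⟨z - (∑ j, ∑ i, Mw b w j i * ⌊(r : ℝ) * θ j⌋ * ⌊θ i⌋)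
      - ∑ j, ∑ i, Mw b w' j i * ⌊(r : ℝ) * θ' j⌋ * ⌊θ' i⌋, ?_⟩
    rw [psi_eq, psi_eq] at hz
    rw [Int.cast_sub, Int.cast_sub, ← hz]
    simp only [hζ, hζ']
    ring
  -- the obstruction
  rintro ⟨J, D, a, a', W, ⟨hD1, hDK, ha, _, ha'0, hBas⟩, m, k, k', w₀, hm1, _, _, _, hrel,
    hk, hk'⟩
  set u : β → ℝ := fun j => ∑ i, (Mw b w j i : ℝ) * θ i with hu
  set u' : β → ℝ := fun j => ∑ i, (Mw b w' j i : ℝ) * θ' i with hu'
  set U : β → ℤ := fun j => ∑ i, Mw b w j i * ⌊θ i⌋ with hU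
  set U' : β → ℤ := fun j => ∑ i, Mw b w' j i * ⌊θ' i⌋ with hU'
  have hζu : ∀ j, ζ j = u j - U j := fun j => fract_split (Mw b w) θ j
  have hζu' : ∀ j, ζ' j = u' j - U' j := fun j => fract_split (Mw b w') θ' j
  have halt : ∑ j, u j * θ j = 0 := alt_zero b hb w θ
  have halt' : ∑ j, u' j * θ' j = 0 := alt_zero b hb w' θ'
  set κ : β → ℤ := fun i => m * (D * U i + ∑ j ∈ univ \ J, U' j * a j i) - k i with hκ
  set κ' : β → ℤ := fun i => m * (D * U' i + ∑ j ∈ univ \ J, U' j * a' j i) - k' i with hκ'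
  have hκu : ∀ i, (κ i : ℝ) = m * (D * u i + ∑ j ∈ univ \ J, u' j * a j i) := by
    intro i
    have h1 := hk i
    unfold red1 at h1
    have h2 : ∑ j ∈ univ \ J, u' j * (a j i : ℝ) =
        ∑ j ∈ univ \ J, (U' j : ℝ) * (a j i : ℝ) - ∑ j ∈ univ \ J, -ζ' j * (a j i : ℝ) := by
      rw [← sum_sub_distrib]
      refine sum_congr rfl fun j _ => ?_
      rw [hζu' j]
      ring
    rw [hκ, h2]
    push_cast
    rw [← h1]
    have h3 : u i = ζ i + U i := by rw [hζu i]; ring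
    rw [h3]
    ring
  have hκu' : ∀ i ∈ J, (κ' i : ℝ) = m * (D * u' i + ∑ j ∈ univ \ J, u' j * a' j i) := by
    intro i hi
    have h1 := hk' i hi
    unfold red2 at h1
    have h2 : ∑ j ∈ univ \ J, u' j * (a' j i : ℝ) =
        ∑ j ∈ univ \ J, (U' j : ℝ) * (a' j i : ℝ) - ∑ j ∈ univ \ J, -ζ' j * (a' j i : ℝ) := by
      rw [← sum_sub_distrib]
      refine sum_congr rfl fun j _ => ?_
      rw [hζu' j]
      ring
    rw [hκ', h2]
    push_cast
    rw [← h1]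
    have h3 : u' i = ζ' i + U' i := by rw [hζu' i]; ring
    rw [h3]
    ring
  -- `κ'` vanishes on `J`
  have hκ'0 : ∀ i ∈ J, κ' i = 0 := by
    intro i hi
    have h1 : ∑ l, (((m * (D * Mw b w' i l + ∑ j ∈ univ \ J, Mw b w' j l * a' j i) : ℤ)) : ℝ)
        * θ' l = κ' i := by
      rw [hκu' i hi, hu']
      push_cast
      simp only [sum_mul, mul_sum, add_mul, mul_add, sum_add_distrib]
      congr 1
      · refine sum_congr rfl fun l _ => ?_
        ring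
      · rw [sum_comm]
        refine sum_congr rfl fun j _ => sum_congr rfl fun l _ => ?_
        ring
    have h2 := nri_zero hθ' _ _ h1
    have h3 : (κ' i : ℝ) = 0 := by
      rw [← h1]
      refine sum_eq_zero fun l _ => ?_
      have h4 := congrFun h2 l
      simp only [Pi.zero_apply] at h4
      rw [h4, Int.cast_zero, zero_mul]
    exact_mod_cast h3
  -- the relation
  have hlam : ∑ j, ζ j * θ j + ∑ j, ζ' j * θ' j =
      -(∑ j, (U j : ℝ) * θ j) - ∑ j, (U' j : ℝ) * θ' j := by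
    have h1 : ∑ j, ζ j * θ j = ∑ j, u j * θ j - ∑ j, (U j : ℝ) * θ j := by
      rw [← sum_sub_distrib]
      refine sum_congr rfl fun j _ => ?_
      rw [hζu j]
      ring
    have h2 : ∑ j, ζ' j * θ' j = ∑ j, u' j * θ' j - ∑ j, (U' j : ℝ) * θ' j := by
      rw [← sum_sub_distrib]
      refine sum_congr rfl fun j _ => ?_
      rw [hζu' j]
      ring
    rw [h1, h2, halt, halt']
    ring
  have hsplit : (D : ℝ) * ∑ j, (U' j : ℝ) * θ' j =
      ∑ i ∈ J, D * (U' i : ℝ) * θ' i + (∑ i, (∑ j ∈ univ \ J, (U' j : ℝ) * a j i) * θ i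
        + ∑ i ∈ J, (∑ j ∈ univ \ J, (U' j : ℝ) * a' j i) * θ' i
        + ∑ j ∈ univ \ J, (U' j : ℝ) * W j) := by
    rw [mul_sum, ← sum_sdiff (subset_univ J), add_comm]
    congr 1
    · refine sum_congr rfl fun i _ => ?_
      ring
    · simp only [sum_mul]
      rw [sum_comm (s := univ) (t := univ \ J), sum_comm (s := J) (t := univ \ J),
        ← sum_add_distrib, ← sum_add_distrib]
      refine sum_congr rfl fun j hj => ?_
      have hjJ : j ∉ J := (mem_sdiff.1 hj).2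
      have h1 := hBas j hjJ
      have h2 : ∑ i, (a' j i : ℝ) * θ' i = ∑ i ∈ J, (a' j i : ℝ) * θ' i := by
        refine (sum_subset (subset_univ J) fun i _ hi => ?_).symm
        rw [ha'0 j i hi, Int.cast_zero, zero_mul]
      rw [h2] at h1
      calc (D : ℝ) * ((U' j : ℝ) * θ' j) = (U' j : ℝ) * (D * θ' j) := by ring
        _ = (U' j : ℝ) * (∑ i, (a j i : ℝ) * θ i + ∑ i ∈ J, (a' j i : ℝ) * θ' i + W j) := by
            rw [h1]
        _ = _ := by
            rw [mul_add, mul_add, mul_sum, mul_sum]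
            congr 2
            · refine sum_congr rfl fun i _ => ?_
              ring
            · refine sum_congr rfl fun i _ => ?_
              ring
  have hκθ : ∑ i, (κ i : ℝ) * θ i = ((-w₀ - m * ∑ j ∈ univ \ J, U' j * W j : ℤ) : ℝ) := by
    have h1 : ∑ i, (κ i : ℝ) * θ i = m * (D * ∑ i, (U i : ℝ) * θ i)
        + m * (∑ i, (∑ j ∈ univ \ J, (U' j : ℝ) * a j i) * θ i) - ∑ i, (k i : ℝ) * θ i := by
      rw [hκ, mul_sum, mul_sum, mul_sum, ← sum_add_distrib, ← sum_sub_distrib]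
      refine sum_congr rfl fun i _ => ?_
      push_cast
      ring
    have h2 : (m : ℝ) * (∑ i ∈ J, D * (U' i : ℝ) * θ' i)
        + m * (∑ i ∈ J, (∑ j ∈ univ \ J, (U' j : ℝ) * a' j i) * θ' i)
        - ∑ i ∈ J, (k' i : ℝ) * θ' i = 0 := by
      rw [mul_sum, mul_sum, ← sum_add_distrib, ← sum_sub_distrib]
      refine sum_eq_zero fun i hi => ?_
      have h3 := hκ'0 i hi
      have h4 : (κ' i : ℝ) = 0 := by exact_mod_cast h3
      rw [hκ'] at h4
      push_cast at h4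
      have h5 : ((m : ℝ) * (D * (U' i : ℝ) + ∑ j ∈ univ \ J, (U' j : ℝ) * (a' j i : ℝ))
        - (k' i : ℝ)) * θ' i = 0 := by rw [h4, zero_mul]
      linarith
    rw [hlam] at hrel
    rw [h1]
    push_cast
    have h6 : (m : ℝ) * ((D : ℝ) * (-(∑ j, (U j : ℝ) * θ j) - ∑ j, (U' j : ℝ) * θ' j)) =
        -(m * (D * ∑ i, (U i : ℝ) * θ i)) - m * (D * ∑ j, (U' j : ℝ) * θ' j) := by ring
    rw [h6, hsplit] at hrel
    linarith
  have hκ0 := nri_zero hθ κ _ hκθ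
  -- the size
  have h1 := hκu j₀
  rw [hκ0, Pi.zero_apply, Int.cast_zero] at h1
  have hm0 : (m : ℝ) ≠ 0 := by
    have : m ≠ 0 := by omega
    exact_mod_cast this
  have h2 : (D : ℝ) * u j₀ = -∑ j ∈ univ \ J, u' j * a j j₀ := by
    have h3 := (mul_eq_zero.1 h1.symm).resolve_left hm0
    linarith
  have h3 : |u j₀| ≤ ∑ j, |u' j| * K' := by
    calc |u j₀| ≤ |(D : ℝ) * u j₀| := by
          rw [abs_mul, Nat.abs_cast]
          refine le_mul_of_one_le_left (abs_nonneg _) ?_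
          exact_mod_cast hD1
      _ = |∑ j ∈ univ \ J, u' j * a j j₀| := by rw [h2, abs_neg]
      _ ≤ ∑ j ∈ univ \ J, |u' j * a j j₀| := abs_sum_le_sum_abs _ _
      _ ≤ ∑ j, |u' j * a j j₀| :=
          sum_le_sum_of_subset_of_nonneg (subset_univ _) fun _ _ _ => abs_nonneg _
      _ ≤ ∑ j, |u' j| * K' := by
          refine sum_le_sum fun j _ => ?_
          rw [abs_mul]
          refine mul_le_mul_of_nonneg_left ?_ (abs_nonneg _)
          exact_mod_cast ha j j₀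
  have h4 : ∀ j, ((Fintype.card β * K' + 1 : ℕ) : ℝ) * |u' j| < |u j₀| := hj₀
  have h5 : ((Fintype.card β * K' + 1 : ℕ) : ℝ) * |u j₀| ≤ (Fintype.card β * K' : ℝ) * |u j₀| := by
    calc ((Fintype.card β * K' + 1 : ℕ) : ℝ) * |u j₀|
        ≤ ((Fintype.card β * K' + 1 : ℕ) : ℝ) * ∑ j, |u' j| * K' :=
          mul_le_mul_of_nonneg_left h3 (Nat.cast_nonneg _)
      _ = ∑ j, (((Fintype.card β * K' + 1 : ℕ) : ℝ) * |u' j|) * K' := by
          rw [mul_sum]
          exact sum_congr rfl fun j _ => by ring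
      _ ≤ ∑ _j : β, |u j₀| * K' :=
          sum_le_sum fun j _ => mul_le_mul_of_nonneg_right (h4 j).le (Nat.cast_nonneg _)
      _ = (Fintype.card β * K' : ℝ) * |u j₀| := by
          rw [sum_const, card_univ, nsmul_eq_mul]
          ring
  have h6 : 0 < |u j₀| := lt_of_le_of_lt (by positivity) (h4 j₀)
  push_cast at h5
  linarith

end Pool.Agent.Lib.MP_663568_nt.E
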