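import Pool.Agent.Lib.MP_663568_e.E05
import Pool.Agent.Lib.MP_663568_e.E12

/-!
Row E13: the product group and pairs of multiples of compact sets of vectors.
-/

set_option autoImplicit false
open Finset

namespace Pool.Agent.Lib.MP_663568_nt.E

open Katai Tw Fib Nul T3

variable {G : Type} [Group G] [TopologicalSpace G] [IsTopologicalGroup G] {A : ℕ → Subgroup G}
  {Γ : Subgroup G}
  {β : ℕ → Type} [∀ s, Fintype (β s)] [∀ s, DecidableEq (β s)]
  {π : (s : ℕ) → G → β s → ℝ} {e : (s : ℕ) → β s → ℝ → G}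

private lemma nri_ne {γ : Type} [Fintype γ] {α : γ → ℝ} (hα : NRI α) (v : γ → ℤ) (hv : v ≠ 0)
    (z : ℤ) : ∑ j, (v j : ℝ) * α j ≠ z := by
  refine hα (∑ j, (v j).natAbs) v hv (fun j => ?_) z
  have h1 : (v j).natAbs ≤ ∑ j, (v j).natAbs :=
    Finset.single_le_sum (f := fun j => (v j).natAbs) (fun _ _ => Nat.zero_le _) (mem_univ j)
  rw [Int.abs_eq_natAbs]
  exact_mod_cast h1

private lemma nri_mul {γ : Type} [Fintype γ] {α : γ → ℝ} (hα : NRI α) {p : ℕ} (hp : 0 < p) :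
    NRI fun j => (p : ℝ) * α j := by
  intro K k hk _ z h
  refine nri_ne hα (fun j => (p : ℤ) * k j) ?_ z ?_
  · intro h0
    apply hk
    funext j
    have h1 := congrFun h0 j
    simp only [Pi.zero_apply, mul_eq_zero, Nat.cast_eq_zero] at h1
    rcases h1 with h1 | h1
    · omega
    · exact h1
  · rw [← h]
    refine Finset.sum_congr rfl fun j _ => ?_
    push_cast
    ring

omit [TopologicalSpace G] [IsTopologicalGroup G] in
private lemma pi_one' [TopologicalSpace G] (hN : NS A Γ π e) {s : ℕ} (hs : 1 ≤ s) :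
    π s (1 : G) = 0 :=
  (hN.pi_ker s hs 1 (A s).one_mem).2 (A (s + 1)).one_mem

omit [IsTopologicalGroup G] in
private lemma comc_ll (_hN : NS A Γ π e) (t : ℕ) (j : β t) (i : β 1) (k : β (t + 1)) :
    comc (prπ π) (pre e) t (Sum.inl j) (Sum.inl i) (Sum.inl k) = comc π e t j i k := rfl

omit [IsTopologicalGroup G] in
private lemma comc_rr (_hN : NS A Γ π e) (t : ℕ) (j : β t) (i : β 1) (k : β (t + 1)) :
    comc (prπ π) (pre e) t (Sum.inr j) (Sum.inr i) (Sum.inr k) = comc π e t j i k := rfl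

omit [IsTopologicalGroup G] in
private lemma comc_llr (hN : NS A Γ π e) (t : ℕ) (j : β t) (i : β 1) (k : β (t + 1)) :
    comc (prπ π) (pre e) t (Sum.inl j) (Sum.inl i) (Sum.inr k) = 0 := by
  change π (t + 1) ((1 : G) * 1 * 1⁻¹ * 1⁻¹) k = 0
  rw [inv_one, mul_one, mul_one, mul_one, pi_one' hN (by omega)]
  rfl

omit [IsTopologicalGroup G] in
private lemma comc_rrl (hN : NS A Γ π e) (t : ℕ) (j : β t) (i : β 1) (k : β (t + 1)) :
    comc (prπ π) (pre e) t (Sum.inr j) (Sum.inr i) (Sum.inl k) = 0 := by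
  change π (t + 1) ((1 : G) * 1 * 1⁻¹ * 1⁻¹) k = 0
  rw [inv_one, mul_one, mul_one, mul_one, pi_one' hN (by omega)]
  rfl

omit [IsTopologicalGroup G] in
private lemma comc_lr (hN : NS A Γ π e) (t : ℕ) (j : β t) (i : β 1) (k : prβ β (t + 1)) :
    comc (prπ π) (pre e) t (Sum.inl j) (Sum.inr i) k = 0 := by
  rcases k with k | k
  · change π (t + 1) (e t j 1 * 1 * (e t j 1)⁻¹ * (1 : G)⁻¹) k = 0
    rw [inv_one, mul_one, mul_one, mul_inv_cancel, pi_one' hN (by omega)]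
    rfl
  · change π (t + 1) ((1 : G) * e 1 i 1 * (1 : G)⁻¹ * (e 1 i 1)⁻¹) k = 0
    rw [inv_one, mul_one, one_mul, mul_inv_cancel, pi_one' hN (by omega)]
    rfl

omit [IsTopologicalGroup G] in
private lemma comc_rl (hN : NS A Γ π e) (t : ℕ) (j : β t) (i : β 1) (k : prβ β (t + 1)) :
    comc (prπ π) (pre e) t (Sum.inr j) (Sum.inl i) k = 0 := by
  rcases k with k | k
  · change π (t + 1) ((1 : G) * e 1 i 1 * (1 : G)⁻¹ * (e 1 i 1)⁻¹) k = 0
    rw [inv_one, mul_one, one_mul, mul_inv_cancel, pi_one' hN (by omega)]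
    rfl
  · change π (t + 1) (e t j 1 * 1 * (e t j 1)⁻¹ * (1 : G)⁻¹) k = 0
    rw [inv_one, mul_one, mul_one, mul_inv_cancel, pi_one' hN (by omega)]
    rfl

/-- RECIPE: `w` is on `β (t + 1) ⊕ β (t + 1)`.  If `w ∘ inl ≠ 0`, `comc_nondeg` at the level `t`
gives `j`, `i` with a nonzero entry, take the row `inl j` of the product: the commutator of
`(e t j 1, 1)` with `(e 1 i 1, 1)` is `(commutator, 1)` and with `(1, e 1 i 1)` it is `1`, so the row
is `∑ k, w (inl k) * comc π e t j i k` at `inl i` and `0` at `inr i`; these numbers are integers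
(`comc_int`), not all zero, so `m * ∑ … * (p * α i)` is not an integer by `NRI α` (`m, p ≥ 1`).
The same for `w ∘ inr ≠ 0`. -/
theorem tt_pair (hN : NS A Γ π e) (n K : ℕ) (p q : ℕ) (hp : 0 < p) (hq : 0 < q) (α α' : β 1 → ℝ)
    (hα : NRI α) (hα' : NRI α') :
    TT (prπ π) (pre e) n K
      (Sum.elim (fun j => (p : ℝ) * α j) (fun j => (q : ℝ) * α' j) : prβ β 1 → ℝ) := by
  intro t ht _ w hw _
  have ht1 : 1 ≤ t := by omega
  -- the main computation for one factor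
  have key : ∀ (u : β (t + 1) → ℤ), u ≠ 0 → ∃ j : β t, ∀ (p : ℕ), 0 < p → ∀ (α : β 1 → ℝ),
      NRI α → ∀ m : ℕ, 1 ≤ m → ∀ z : ℤ,
      (m : ℝ) * ∑ i, (∑ k, (u k : ℝ) * comc π e t j i k) * ((p : ℝ) * α i) ≠ z := by
    intro u hu
    obtain ⟨j, i₀, hji⟩ := comc_nondeg hN t ht1 u hu
    refine ⟨j, fun p hp α hα m hm z h => ?_⟩
    choose c hc using fun i k => comc_int hN t ht1 j i k
    have h1 : ∀ i, ∑ k, (u k : ℝ) * comc π e t j i k = ((∑ k, u k * c i k : ℤ) : ℝ) := by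
      intro i
      push_cast
      exact Finset.sum_congr rfl fun k _ => by rw [hc i k]
    refine nri_ne hα (fun i => (m : ℤ) * (p : ℤ) * ∑ k, u k * c i k) ?_ z ?_
    · intro h0
      have h2 := congrFun h0 i₀
      simp only [Pi.zero_apply] at h2
      rw [h1 i₀] at hji
      have h3 : ∑ k, u k * c i₀ k ≠ 0 := by exact_mod_cast hji
      have hm' : (m : ℤ) ≠ 0 := by omega
      have hp' : (p : ℤ) ≠ 0 := by omega
      exact mul_ne_zero (mul_ne_zero hm' hp') h3 h2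
    · rw [← h, Finset.mul_sum]
      refine Finset.sum_congr rfl fun i _ => ?_
      rw [h1 i]
      push_cast
      ring
  by_cases hl : (fun k => w (Sum.inl k)) = 0
  · have hr : (fun k => w (Sum.inr k)) ≠ 0 := by
      intro hr
      apply hw
      funext k
      rcases k with k | k
      · exact congrFun hl k
      · exact congrFun hr k
    obtain ⟨j, hj⟩ := key _ hr
    refine ⟨Sum.inr j, fun m hm _ z h => hj q hq α' hα' m hm z ?_⟩
    rw [← h, Fintype.sum_sum_type]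
    congr 1
    rw [Finset.sum_eq_zero (s := (univ : Finset (β 1)))
      (f := fun i => (∑ k, (w k : ℝ) * comc (prπ π) (pre e) t (Sum.inr j) (Sum.inl i) k) *
        (Sum.elim (fun j => (p : ℝ) * α j) (fun j => (q : ℝ) * α' j) : prβ β 1 → ℝ) (Sum.inl i)),
      zero_add]
    · refine Finset.sum_congr rfl fun i _ => ?_
      rw [Fintype.sum_sum_type]
      simp only [comc_rrl hN, comc_rr hN, mul_zero, Finset.sum_const_zero, zero_add,
        Sum.elim_inr]
    · intro i _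
      simp only [comc_rl hN, mul_zero, Finset.sum_const_zero, zero_mul]
  · obtain ⟨j, hj⟩ := key _ hl
    refine ⟨Sum.inl j, fun m hm _ z h => hj p hp α hα m hm z ?_⟩
    rw [← h, Fintype.sum_sum_type]
    congr 1
    rw [Finset.sum_eq_zero (s := (univ : Finset (β 1)))
      (f := fun i => (∑ k, (w k : ℝ) * comc (prπ π) (pre e) t (Sum.inl j) (Sum.inr i) k) *
        (Sum.elim (fun j => (p : ℝ) * α j) (fun j => (q : ℝ) * α' j) : prβ β 1 → ℝ) (Sum.inr i)),
      add_zero]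
    · refine Finset.sum_congr rfl fun i _ => ?_
      rw [Fintype.sum_sum_type]
      simp only [comc_llr hN, comc_ll hN, mul_zero, Finset.sum_const_zero, add_zero,
        Sum.elim_inl]
    · intro i _
      simp only [comc_lr hN, mul_zero, Finset.sum_const_zero, zero_mul]

omit [IsTopologicalGroup G] in
private lemma cf_coeff (hN : NS A Γ π e) (b : β 2 → β 1 → β 1 → ℤ) (hb : CF π b) (k : β 2)
    (j i : β 1) : (b k j i : ℝ) = comc π e 1 j i k := by
  have h := hb (e 1 j 1) (e 1 i 1) k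
  rw [hN.e_pi 1 le_rfl, hN.e_pi 1 le_rfl] at h
  rw [Finset.sum_eq_single j, Finset.sum_eq_single i] at h
  · rw [Pi.single_eq_same, Pi.single_eq_same, mul_one, mul_one] at h
    exact h.symm
  · intro i' _ hi'
    rw [Pi.single_eq_of_ne hi', mul_zero]
  · intro h'
    exact absurd (mem_univ i) h'
  · intro j' _ hj'
    refine Finset.sum_eq_zero fun i' _ => ?_
    rw [Pi.single_eq_of_ne hj', mul_zero, zero_mul]
  · intro h'
    exact absurd (mem_univ j) h'

private lemma psi_add {γ : Type} [Fintype γ] (M : (γ ⊕ γ) → (γ ⊕ γ) → ℤ) (M₁ M₂ : γ → γ → ℤ)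
    (h1 : ∀ j i, M (Sum.inl j) (Sum.inl i) = M₁ j i) (h2 : ∀ j i, M (Sum.inl j) (Sum.inr i) = 0)
    (h3 : ∀ j i, M (Sum.inr j) (Sum.inl i) = 0) (h4 : ∀ j i, M (Sum.inr j) (Sum.inr i) = M₂ j i)
    (x y : γ → ℝ) (r : ℕ) :
    Psi M (Sum.elim x y) r = Psi M₁ x r + Psi M₂ y r := by
  unfold Psi
  rw [Fintype.sum_sum_type]
  congr 1
  · refine Finset.sum_congr rfl fun j _ => ?_
    rw [Fintype.sum_sum_type]
    simp only [h1, h2, Int.cast_zero, zero_mul, Finset.sum_const_zero, add_zero, Sum.elim_inl]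
  · refine Finset.sum_congr rfl fun j _ => ?_
    rw [Fintype.sum_sum_type]
    simp only [h3, h4, Int.cast_zero, zero_mul, Finset.sum_const_zero, zero_add, Sum.elim_inr]

/-- RECIPE: let `b` be from `comm_form hN`; `hb'` at the elements `pre e 1 x 1`, `pre e 1 y 1`
(unit vectors) shows that `b'` is block diagonal with blocks `b`; so for `w : prβ β 2 → ℤ`
`Psi (Mw b' w) (Sum.elim x y) r = Psi (Mw b (w ∘ inl)) x r + Psi (Mw b (w ∘ inr)) y r`.
`b` is alternating (`CF` at `x = y = up (e 1) v`, `up_pi`).  The function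
`α ↦ max_j |∑ i, Mw b w j i * α i|` is continuous and for `w ≠ 0` positive on `C₁` (`comm_form`:
some row is not zero, and `NRI α`), so for the finitely many `w ≠ 0`, `|w| ≤ K` it is at least
`c₁ > 0` on `C₁`; let `c₂` be an upper bound of all `|∑ i, Mw b w j i * α i|`.  Let `B` be from
`fp_num` for `K, δ` and `B'` a natural number with `B' * c₁ > (B + 1) * c₂` (and `B' ≥ 1`).  For
`p ≥ B' q`: if `w ∘ inl ≠ 0` apply `fp_num` to `(p α, q α')`, `w ∘ inl`, `w ∘ inr`; if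
`w ∘ inl = 0` (then `Psi … = 0` for this part) and `w ∘ inr ≠ 0` apply it to
`(q α', p α)` and `w ∘ inr`, `0` (the hypothesis is `0 < |…|`). -/
theorem gg_pair (hN : NS A Γ π e) (b' : prβ β 2 → prβ β 1 → prβ β 1 → ℤ) (hb' : CF (prπ π) b')
    (C₁ : Set (β 1 → ℝ)) (hC : IsCompact C₁) (hNR : ∀ α ∈ C₁, NRI α) (K : ℕ) (δ : ℝ) (hδ : 0 < δ) :
    ∃ B' : ℕ, 0 < B' ∧ ∀ p q : ℕ, 0 < q → B' * q ≤ p → ∀ α ∈ C₁, ∀ α' ∈ C₁,
      GGd b' K δ
        (Sum.elim (fun j => (p : ℝ) * α j) (fun j => (q : ℝ) * α' j) : prβ β 1 → ℝ) := by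
  classical
  obtain ⟨b, hbf, hbn⟩ := comm_form hN
  have hcf : CF π b := hbf
  have hco' : ∀ k j i, (b' k j i : ℝ) = comc (prπ π) (pre e) 1 j i k :=
    fun k j i => cf_coeff (ns_prod hN) b' hb' k j i
  have hco : ∀ k j i, (b k j i : ℝ) = comc π e 1 j i k := fun k j i => cf_coeff hN b hcf k j i
  have hlll : ∀ k j i, b' (Sum.inl k) (Sum.inl j) (Sum.inl i) = b k j i := by
    intro k j i
    have h := hco' (Sum.inl k) (Sum.inl j) (Sum.inl i)
    rw [comc_ll hN, ← hco] at h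
    exact_mod_cast h
  have hrrr : ∀ k j i, b' (Sum.inr k) (Sum.inr j) (Sum.inr i) = b k j i := by
    intro k j i
    have h := hco' (Sum.inr k) (Sum.inr j) (Sum.inr i)
    rw [comc_rr hN, ← hco] at h
    exact_mod_cast h
  have hrll : ∀ k j i, b' (Sum.inr k) (Sum.inl j) (Sum.inl i) = 0 := by
    intro k j i
    have h := hco' (Sum.inr k) (Sum.inl j) (Sum.inl i)
    rw [comc_llr hN] at h
    exact_mod_cast h
  have hlrr : ∀ k j i, b' (Sum.inl k) (Sum.inr j) (Sum.inr i) = 0 := by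
    intro k j i
    have h := hco' (Sum.inl k) (Sum.inr j) (Sum.inr i)
    rw [comc_rrl hN] at h
    exact_mod_cast h
  have hlr : ∀ k j i, b' k (Sum.inl j) (Sum.inr i) = 0 := by
    intro k j i
    have h := hco' k (Sum.inl j) (Sum.inr i)
    rw [comc_lr hN] at h
    exact_mod_cast h
  have hrl : ∀ k j i, b' k (Sum.inr j) (Sum.inl i) = 0 := by
    intro k j i
    have h := hco' k (Sum.inr j) (Sum.inl i)
    rw [comc_rl hN] at h
    exact_mod_cast h
  have hPsi : ∀ (w : prβ β 2 → ℤ) (x y : β 1 → ℝ) (r : ℕ),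
      Psi (Mw b' w) (Sum.elim x y : prβ β 1 → ℝ) r =
        Psi (Mw b fun k => w (Sum.inl k)) x r + Psi (Mw b fun k => w (Sum.inr k)) y r := by
    intro w x y r
    refine psi_add (Mw b' w) _ _ ?_ ?_ ?_ ?_ x y r
    · intro j i
      simp only [Mw, Fintype.sum_sum_type, hlll, hrll, mul_zero, Finset.sum_const_zero, add_zero]
    · intro j i
      simp only [Mw, hlr, mul_zero, Finset.sum_const_zero]
    · intro j i
      simp only [Mw, hrl, mul_zero, Finset.sum_const_zero]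
    · intro j i
      simp only [Mw, Fintype.sum_sum_type, hrrr, hlrr, mul_zero, Finset.sum_const_zero, zero_add]
  have halt : ∀ (k : β 2) (x : β 1 → ℝ), ∑ j, ∑ i, (b k j i : ℝ) * x j * x i = 0 := by
    intro k x
    have h := hbf (up (e 1) x) (up (e 1) x) k
    rw [up_pi hN le_rfl, mul_inv_cancel_right, mul_inv_cancel, pi_one' hN (by norm_num)] at h
    exact h.symm
  obtain ⟨B, hB⟩ := fp_num b halt K δ hδ
  -- the rows of the forms
  let g : (β 2 → ℤ) → (β 1 → ℝ) → ℝ := fun w α => ∑ j, |∑ i, (Mw b w j i : ℝ) * α i|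
  have hgc : ∀ w, Continuous (g w) := by
    intro w
    exact continuous_finsetSum _ fun j _ => (continuous_finsetSum _ fun i _ =>
      continuous_const.mul (continuous_apply i)).abs
  have hgle : ∀ w α j, |∑ i, (Mw b w j i : ℝ) * α i| ≤ g w α := by
    intro w α j
    exact Finset.single_le_sum (f := fun j => |∑ i, (Mw b w j i : ℝ) * α i|)
      (fun _ _ => abs_nonneg _) (mem_univ j)
  have hgpos : ∀ w, w ≠ 0 → ∀ α ∈ C₁, 0 < g w α := by
    intro w hw α hα
    obtain ⟨j, i, hji⟩ := hbn w hw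
    refine lt_of_lt_of_le ?_ (hgle w α j)
    rw [abs_pos]
    have h1 := nri_ne (hNR α hα) (fun i => Mw b w j i) (fun h0 => hji (congrFun h0 i)) 0
    simpa using h1
  -- a lower bound
  have hlow : ∀ w : β 2 → ℤ, ∃ c : ℝ, 0 < c ∧ (w ≠ 0 → ∀ α ∈ C₁, c ≤ g w α) := by
    intro w
    by_cases hw : w = 0
    · exact ⟨1, one_pos, fun h => absurd hw h⟩
    · rcases C₁.eq_empty_or_nonempty with hE | hE
      · exact ⟨1, one_pos, fun _ α hα => by simp [hE] at hα⟩
      · obtain ⟨α₀, hα₀, hmin⟩ := hC.exists_isMinOn hE (hgc w).continuousOn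
        exact ⟨g w α₀, hgpos w hw α₀ hα₀, fun _ α hα => hmin hα⟩
  have hupp : ∀ w : β 2 → ℤ, ∃ c : ℝ, ∀ α ∈ C₁, g w α ≤ c := by
    intro w
    obtain ⟨c, hc⟩ := (hC.image (hgc w)).bddAbove
    exact ⟨c, fun α hα => hc ⟨α, hα, rfl⟩⟩
  choose cl hcl0 hcl using hlow
  choose cu hcu using hupp
  let W : Finset (β 2 → ℤ) := Fintype.piFinset fun _ => Icc (-(K : ℤ)) K
  have hW0 : W.Nonempty := ⟨0, by
    rw [Fintype.mem_piFinset]
    intro k
    rw [mem_Icc, Pi.zero_apply]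
    omega⟩
  have hW : ∀ w : β 2 → ℤ, (∀ k, |w k| ≤ (K : ℤ)) → w ∈ W := by
    intro w hw
    rw [Fintype.mem_piFinset]
    intro k
    rw [mem_Icc]
    exact abs_le.1 (hw k)
  obtain ⟨w₁, _, hw₁⟩ := W.exists_min_image cl hW0
  obtain ⟨w₂, _, hw₂⟩ := W.exists_max_image cu hW0
  set N : ℝ := (Fintype.card (β 1) : ℝ) + 1 with hNdef
  have hNpos : 0 < N := by positivity
  set c₁ : ℝ := cl w₁ / N with hc₁
  have hc₁pos : 0 < c₁ := div_pos (hcl0 w₁) hNpos
  set c₂ : ℝ := max (cu w₂) 0 with hc₂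
  have hc₂0 : 0 ≤ c₂ := le_max_right _ _
  have hrow : ∀ w : β 2 → ℤ, w ≠ 0 → (∀ k, |w k| ≤ (K : ℤ)) → ∀ α ∈ C₁, ∃ j₀,
      c₁ ≤ |∑ i, (Mw b w j₀ i : ℝ) * α i| := by
    intro w hw hwK α hα
    by_contra hcon
    push Not at hcon
    have h1 : cl w₁ ≤ g w α := (hw₁ w (hW w hwK)).trans (hcl w hw α hα)
    have h2 : g w α ≤ ∑ _j : β 1, c₁ := Finset.sum_le_sum fun j _ => (hcon j).le
    rw [Finset.sum_const, card_univ, nsmul_eq_mul] at h2
    have h3 : cl w₁ = N * c₁ := by rw [hc₁]; field_simp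
    rw [h3, hNdef] at h1
    nlinarith
  have hupb : ∀ w : β 2 → ℤ, (∀ k, |w k| ≤ (K : ℤ)) → ∀ α ∈ C₁, ∀ j,
      |∑ i, (Mw b w j i : ℝ) * α i| ≤ c₂ := by
    intro w hwK α hα j
    exact ((hgle w α j).trans (hcu w α hα)).trans ((hw₂ w (hW w hwK)).trans (le_max_left _ _))
  obtain ⟨B₀, hB₀⟩ := exists_nat_gt (((B : ℝ) + 1) * c₂ / c₁)
  have hscale : ∀ (M : β 1 → β 1 → ℤ) (j : β 1) (p : ℕ) (α : β 1 → ℝ),
      |∑ i, (M j i : ℝ) * ((p : ℝ) * α i)| = (p : ℝ) * |∑ i, (M j i : ℝ) * α i| := by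
    intro M j p α
    have h1 : ∑ i, (M j i : ℝ) * ((p : ℝ) * α i) = (p : ℝ) * ∑ i, (M j i : ℝ) * α i := by
      rw [Finset.mul_sum]
      exact Finset.sum_congr rfl fun i _ => by ring
    rw [h1, abs_mul, Nat.abs_cast]
  refine ⟨B₀ + 1, Nat.succ_pos _, fun p q hq hpq α hα α' hα' w hw hwK c => ?_⟩
  have hqR : (0 : ℝ) < q := by exact_mod_cast hq
  have hp : 0 < p := lt_of_lt_of_le (Nat.mul_pos (Nat.succ_pos _) hq) hpq
  have hpR : ((B₀ : ℝ) + 1) * q ≤ p := by exact_mod_cast hpq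
  have hfun : (fun r : ℕ => ∃ z : ℤ, c + Psi (Mw b' w)
      (Sum.elim (fun j => (p : ℝ) * α j) (fun j => (q : ℝ) * α' j) : prβ β 1 → ℝ) r = z) =
      fun r : ℕ => ∃ z : ℤ, c + (Psi (Mw b fun k => w (Sum.inl k)) (fun j => (p : ℝ) * α j) r +
        Psi (Mw b fun k => w (Sum.inr k)) (fun j => (q : ℝ) * α' j) r) = z := by
    funext r
    rw [hPsi]
  rw [hfun]
  have hwl : ∀ k, |w (Sum.inl k)| ≤ (K : ℤ) := fun k => hwK (Sum.inl k)
  have hwr : ∀ k, |w (Sum.inr k)| ≤ (K : ℤ) := fun k => hwK (Sum.inr k)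
  by_cases hl : (fun k => w (Sum.inl k)) = 0
  · have hr : (fun k => w (Sum.inr k)) ≠ 0 := by
      intro hr
      apply hw
      funext k
      rcases k with k | k
      · exact congrFun hl k
      · exact congrFun hr k
    obtain ⟨j₀, hj₀⟩ := hrow _ hr hwr α' hα'
    have h := hB (fun j => (q : ℝ) * α' j) (fun j => (p : ℝ) * α j) (nri_mul (hNR α' hα') hq)
      (nri_mul (hNR α hα) hp) (fun k => w (Sum.inr k)) (fun k => w (Sum.inl k)) hwr hwl j₀ (by
        intro j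
        rw [hl, hscale, hscale]
        have h0 : ∑ i, (Mw b (0 : β 2 → ℤ) j i : ℝ) * α i = 0 := by
          simp [Mw]
        rw [h0, abs_zero, mul_zero, mul_zero]
        exact mul_pos hqR (lt_of_lt_of_le hc₁pos hj₀)) c
    refine h.mono le_rfl fun r _ hr => ?_
    obtain ⟨z, hz⟩ := hr
    exact ⟨z, by rw [← hz]; ring⟩
  · obtain ⟨j₀, hj₀⟩ := hrow _ hl hwl α hα
    have h := hB (fun j => (p : ℝ) * α j) (fun j => (q : ℝ) * α' j) (nri_mul (hNR α hα) hp)
      (nri_mul (hNR α' hα') hq) (fun k => w (Sum.inl k)) (fun k => w (Sum.inr k)) hwl hwr j₀ (by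
        intro j
        rw [hscale, hscale]
        have h1 := hupb _ hwr α' hα' j
        have h2 : ((B : ℝ) + 1) * c₂ < B₀ * c₁ := by
          rwa [div_lt_iff₀ hc₁pos] at hB₀
        calc (B : ℝ) * ((q : ℝ) * |∑ i, (Mw b (fun k => w (Sum.inr k)) j i : ℝ) * α' i|)
            ≤ (B : ℝ) * ((q : ℝ) * c₂) := by gcongr
          _ ≤ (q : ℝ) * (((B : ℝ) + 1) * c₂) := by nlinarith [mul_nonneg hqR.le hc₂0]
          _ < (q : ℝ) * (B₀ * c₁) := by gcongr
          _ ≤ (((B₀ : ℝ) + 1) * q) * c₁ := by nlinarith [mul_pos hqR hc₁pos]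
          _ ≤ (p : ℝ) * c₁ := by gcongr
          _ ≤ (p : ℝ) * |∑ i, (Mw b (fun k => w (Sum.inl k)) j₀ i : ℝ) * α i| := by gcongr) c
    refine h.mono le_rfl fun r _ hr => ?_
    obtain ⟨z, hz⟩ := hr
    exact ⟨z, by rw [← hz]; ring⟩

end Pool.Agent.Lib.MP_663568_nt.E
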