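import Pool.Agent.Lib.MP_663568_e.E11
import Pool.Agent.Lib.MP_663568_e.E13

/-!
Row E14: correlations of dilated orbits with distant factors, uniformly near a compact set.
-/

set_option autoImplicit false
open Finset

namespace Pool.Agent.Lib.MP_663568_nt.E

open Katai Tw Fib Nul T3

variable {G : Type} [Group G] [TopologicalSpace G] [IsTopologicalGroup G] {A : ℕ → Subgroup G}
  {Γ : Subgroup G}
  {β : ℕ → Type} [∀ s, Fintype (β s)] [∀ s, DecidableEq (β s)]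
  {π : (s : ℕ) → G → β s → ℝ} {e : (s : ℕ) → β s → ℝ → G}

private lemma e14_min {X : Type} (t : Finset X) (f : X → ℝ) (hf : ∀ x, 0 < f x) :
    ∃ r > 0, ∀ x ∈ t, r ≤ f x := by
  classical
  induction t using Finset.induction_on with
  | empty => exact ⟨1, one_pos, by simp⟩
  | insert a t _ ih =>
    obtain ⟨r, hr, h⟩ := ih
    refine ⟨min r (f a), lt_min hr (hf a), fun x hx => ?_⟩
    rcases mem_insert.1 hx with rfl | hx
    · exact min_le_right _ _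
    · exact (min_le_left _ _).trans (h x hx)

/-- `Loc` holds uniformly on compact sets -/
private lemma e14_loc {H : Type} [Group H] {β₁ : Type} [Fintype β₁] (p : H → β₁ → ℝ) (F : H → ℂ)
    (η : ℝ) (S : Set (β₁ → ℝ)) (hS : IsCompact S) (h : ∀ θ ∈ S, Loc p F θ η) :
    ∃ ρ : ℝ, 0 < ρ ∧ ∃ L₀ : ℕ, ∀ L : ℕ, L₀ ≤ L → ∀ θ ∈ S, ∀ g x : H, (∀ j, |p g j - θ j| < ρ) →
      ‖∑ l ∈ Icc 1 L, F (g ^ l * x)‖ ≤ η * L := by
  have h1 : ∀ θ : β₁ → ℝ, ∃ ρ : ℝ, 0 < ρ ∧ ∃ L₀ : ℕ, θ ∈ S → ∀ L : ℕ, L₀ ≤ L → ∀ g x : H,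
      (∀ j, |p g j - θ j| < ρ) → ‖∑ l ∈ Icc 1 L, F (g ^ l * x)‖ ≤ η * L := by
    intro θ
    by_cases hθ : θ ∈ S
    · obtain ⟨ρ, hρ, L₀, hL⟩ := h θ hθ
      exact ⟨ρ, hρ, L₀, fun _ => hL⟩
    · exact ⟨1, one_pos, 0, fun h' => absurd h' hθ⟩
  choose ρ hρ L₀ hL using h1
  obtain ⟨t, ht, hcov⟩ := hS.elim_nhds_subcover
    (fun θ => Metric.ball θ (ρ θ / 2)) (fun θ _ => Metric.ball_mem_nhds θ (half_pos (hρ θ)))
  obtain ⟨r, hr, hmin⟩ := e14_min t (fun θ => ρ θ / 2) (fun θ => half_pos (hρ θ))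
  refine ⟨r, hr, t.sup L₀, fun L hLt θ hθ g x hg => ?_⟩
  obtain ⟨θ', hθt, hθ'⟩ := Set.mem_iUnion₂.1 (hcov hθ)
  refine hL θ' (ht θ' hθt) L ((Finset.le_sup hθt).trans hLt) g x fun j => ?_
  have h3 := (dist_pi_lt_iff (half_pos (hρ θ'))).1 (Metric.mem_ball.1 hθ') j
  rw [Real.dist_eq] at h3
  have h4 := hg j
  have h5 := hmin θ' hθt
  calc |p g j - θ' j| = |(p g j - θ j) + (θ j - θ' j)| := by congr 1; ring
    _ ≤ |p g j - θ j| + |θ j - θ' j| := abs_add_le _ _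
    _ < ρ θ' := by linarith

/-- RECIPE.  `hF2, hG2 := lev_pr s F hF hG`, `b'` from `comm_form (ns_prod hN)`; `eg_all s hs` for the
product (as in `T3.corr_nil`, file `TCorr.lean`) gives `K`, `δ`.  `C₁ = π 1 '' C` is compact
(`pi_one_cont`) and all its elements are `NRI` (`T3.erg_irr`: `∑ k j * π 1 a j = hf π k a` is
irrational for `k ≠ 0`).  `B` from `gg_pair … C₁ K δ`.  So for `p, q ∈ P` with `B * q ≤ p` and
`α, α' ∈ C₁`: `Loc (prπ π 1) (fun x => F x.1 * conj (F x.2)) (p α, q α') η` by `tt_pair`, `gg_pair`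
(`p > 0` and `q > 0` because `p, q ∈ P`).  Compactness of `C₁ ×ˢ C₁` for each of the finitely many
pairs: choose `ρ (α, α')`, `L₀ (α, α')`; the open sets `{(x, x') | |p x j - p α j| < ρ / 2 ∧
|q x' j - q α' j| < ρ / 2 for all j}` cover, take a finite subcover, `ρ₀` the minimum of the
`ρ / 2`, `L₀` the maximum (over the pairs and the subcover; `L = L₀ + 1`).  With
`δ' = ρ₀ / (2 * (1 + max P))`-small, `U = ⋃ a ∈ C, {g | ∀ j, |π 1 g j - π 1 a j| < δ'}` (open as in the proof of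
`T3.char_eps`).  For `u, u' ∈ U`, near `a, a' ∈ C`, `w, w' ∈ A 2`: `π 1 ((u * w) ^ p) = p • π 1 u`
(`pi_pow`, `pi_mul`, `π 1 w = 0`) is within `ρ₀` of `p • π 1 a`, hence within `ρ` of `p • α` for the
centre `(α, α')` of the subcover for `(π 1 a, π 1 a')`, and `Loc` applies to
`g = ((u w) ^ p, (u' w') ^ q)`, base point `((u w) ^ (p j) x, (u' w') ^ (q j) x')`, because
`(u w) ^ (p (j + l)) x = ((u w) ^ p) ^ l ((u w) ^ (p j) x)`. -/
theorem corr_far (hN : NS A Γ π e) (s : ℕ) (hs : 2 ≤ s) (F : G → ℂ) (hF : LevN A Γ e s F)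
    (hG : GoodN e s F) (C : Set G) (hC : IsCompact C) (hCe : ∀ a ∈ C, Erg Γ a)
    (η : ℝ) (hη : 0 < η) :
    ∃ B : ℕ, 0 < B ∧ ∀ P : Finset ℕ, (∀ p ∈ P, 0 < p) → ∃ (L : ℕ) (U : Set G), 0 < L ∧ IsOpen U ∧
      C ⊆ U ∧ ∀ p ∈ P, ∀ q ∈ P, B * q ≤ p → ∀ u ∈ U, ∀ u' ∈ U, ∀ w ∈ A 2, ∀ w' ∈ A 2,
      ∀ (x x' : G) (j : ℕ),
        ‖∑ l ∈ Icc 1 L, F ((u * w) ^ (p * (j + l)) * x) *
          (starRingEnd ℂ) (F ((u' * w') ^ (q * (j + l)) * x'))‖ ≤ η * L := by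
  classical
  obtain ⟨hF2, hG2⟩ := lev_pr s F hF hG
  obtain ⟨b', hb', -⟩ := comm_form (ns_prod hN)
  obtain ⟨K, δ, hδ, hEG⟩ := eg_all s hs (G × G) (prA A) (Γ.prod Γ) (prβ β) (prπ π) (pre e)
    (ns_prod hN) b' hb' _ hF2 hG2 η hη
  have hπc : Continuous (π 1) := pi_one_cont hN
  have hC₁ : IsCompact (π 1 '' C) := hC.image hπc
  have hNRI : ∀ α ∈ π 1 '' C, NRI α := by
    rintro _ ⟨a, ha, rfl⟩ K k hk _ z
    exact (erg_irr hN (hCe a ha) hk).ne_int z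
  obtain ⟨B, hB, hGG⟩ := gg_pair hN b' hb' (π 1 '' C) hC₁ hNRI K δ hδ
  refine ⟨B, hB, fun P hP => ?_⟩
  -- one pair
  have hpair : ∀ pq : ℕ × ℕ, ∃ ρ : ℝ, 0 < ρ ∧ ∃ L₀ : ℕ, pq.1 ∈ P → pq.2 ∈ P → B * pq.2 ≤ pq.1 →
      ∀ L : ℕ, L₀ ≤ L → ∀ a ∈ C, ∀ a' ∈ C, ∀ g x : G × G,
      (∀ j, |prπ π 1 g j - (Sum.elim (fun j => (pq.1 : ℝ) * π 1 a j)
        (fun j => (pq.2 : ℝ) * π 1 a' j) : prβ β 1 → ℝ) j| < ρ) →
      ‖∑ l ∈ Icc 1 L, F (g ^ l * x).1 * (starRingEnd ℂ) (F (g ^ l * x).2)‖ ≤ η * L := by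
    rintro ⟨p, q⟩
    by_cases h : p ∈ P ∧ q ∈ P ∧ B * q ≤ p
    swap
    · exact ⟨1, one_pos, 0, fun h1 h2 h3 => absurd ⟨h1, h2, h3⟩ h⟩
    obtain ⟨hp, hq, hpq⟩ := h
    set Θ : (β 1 → ℝ) × (β 1 → ℝ) → (prβ β 1 → ℝ) := fun v =>
      Sum.elim (fun j => (p : ℝ) * v.1 j) (fun j => (q : ℝ) * v.2 j) with hΘ
    have hΘc : Continuous Θ := by
      refine continuous_pi fun j => ?_
      rcases j with j | j
      · exact continuous_const.mul ((continuous_apply j).comp continuous_fst)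
      · exact continuous_const.mul ((continuous_apply j).comp continuous_snd)
    obtain ⟨ρ, hρ, L₀, hL⟩ := e14_loc (prπ π 1)
      (fun x : G × G => F x.1 * (starRingEnd ℂ) (F x.2)) η (Θ '' ((π 1 '' C) ×ˢ (π 1 '' C)))
      ((hC₁.prod hC₁).image hΘc) (by
        rintro _ ⟨⟨α, α'⟩, ⟨hα, hα'⟩, rfl⟩
        exact hEG _ (tt_pair hN s K p q (hP p hp) (hP q hq) α α' (hNRI α hα) (hNRI α' hα'))
          (hGG p q (hP q hq) hpq α hα α' hα'))
    refine ⟨ρ, hρ, L₀, fun _ _ _ L hLL a ha a' ha' g x hg => ?_⟩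
    exact hL L hLL _ ⟨(π 1 a, π 1 a'), ⟨⟨a, ha, rfl⟩, ⟨a', ha', rfl⟩⟩, rfl⟩ g x hg
  choose ρ hρ L₀ hL using hpair
  obtain ⟨r, hr, hmin⟩ := e14_min (P ×ˢ P) ρ hρ
  set δ' : ℝ := r / ((P.sup id : ℕ) + 1) with hδ'
  have hM0 : (0 : ℝ) < (P.sup id : ℕ) + 1 := by positivity
  have hδ'0 : 0 < δ' := by positivity
  have hmul : ∀ p ∈ P, (p : ℝ) * δ' ≤ r := by
    intro p hp
    have h1 : (p : ℝ) ≤ (P.sup id : ℕ) := by exact_mod_cast Finset.le_sup (f := id) hp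
    rw [hδ', mul_div_assoc', div_le_iff₀ hM0, mul_comm]
    exact mul_le_mul_of_nonneg_left (by linarith) hr.le
  refine ⟨(P ×ˢ P).sup L₀ + 1, ⋃ a ∈ C, {g : G | ∀ j, |π 1 g j - π 1 a j| < δ'}, by omega,
    ?_, ?_, ?_⟩
  · refine isOpen_biUnion fun a _ => ?_
    have : {g : G | ∀ j, |π 1 g j - π 1 a j| < δ'} =
        ⋂ j, {g : G | |π 1 g j - π 1 a j| < δ'} := by ext; simp
    rw [this]
    refine isOpen_iInter_of_finite fun j => ?_
    have hc : Continuous fun g : G => |π 1 g j - π 1 a j| :=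
      continuous_abs.comp (((continuous_apply j).comp hπc).sub continuous_const)
    exact isOpen_lt hc continuous_const
  · intro a ha
    simp only [Set.mem_iUnion]
    exact ⟨a, ha, fun j => by simpa using hδ'0⟩
  · intro p hp q hq hpq u hu u' hu' w hw w' hw' x x' j
    simp only [Set.mem_iUnion] at hu hu'
    obtain ⟨a, ha, hua⟩ := hu
    obtain ⟨a', ha', hua'⟩ := hu'
    have hA1 : ∀ x : G, x ∈ A 1 := fun x => by rw [hN.A1]; trivial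
    have hpi : ∀ (u w : G), w ∈ A 2 → ∀ (n : ℕ) (i : β 1), π 1 ((u * w) ^ n) i = n * π 1 u i := by
      intro u w hw n i
      have hw0 : π 1 w = 0 := (hN.pi_ker 1 le_rfl w (hA1 w)).2 hw
      rw [pi_pow hN, hN.pi_mul 1 le_rfl _ (hA1 _) _ (hA1 _), hw0, add_zero]
    have hnear : ∀ (u a : G) (n : ℕ), n ∈ P → (∀ i, |π 1 u i - π 1 a i| < δ') → ∀ i,
        |(n : ℝ) * π 1 u i - n * π 1 a i| < r := by
      intro u a n hn hu i
      have hn0 : (0 : ℝ) < n := by exact_mod_cast hP n hn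
      rw [← mul_sub, abs_mul, abs_of_pos hn0]
      exact (mul_lt_mul_of_pos_left (hu i) hn0).trans_le (hmul n hn)
    have hmem : (p, q) ∈ P ×ˢ P := mem_product.2 ⟨hp, hq⟩
    have hr2 : r ≤ ρ (p, q) := hmin _ hmem
    have h1 := hL (p, q) hp hq hpq ((P ×ˢ P).sup L₀ + 1)
      ((Finset.le_sup (f := L₀) hmem).trans (Nat.le_succ _)) a ha a' ha'
      ((u * w) ^ p, (u' * w') ^ q) ((u * w) ^ (p * j) * x, (u' * w') ^ (q * j) * x') (by
        intro i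
        rcases i with i | i
        · change |π 1 ((u * w) ^ p) i - (p : ℝ) * π 1 a i| < ρ (p, q)
          rw [hpi u w hw]
          exact (hnear u a p hp hua i).trans_le hr2
        · change |π 1 ((u' * w') ^ q) i - (q : ℝ) * π 1 a' i| < ρ (p, q)
          rw [hpi u' w' hw']
          exact (hnear u' a' q hq hua' i).trans_le hr2)
    refine le_trans (le_of_eq ?_) h1
    congr 1
    refine sum_congr rfl fun l _ => ?_
    have e1 : ∀ (g : G) (p : ℕ) (x : G), g ^ (p * (j + l)) * x = (g ^ p) ^ l * (g ^ (p * j) * x) := by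
      intro g p x
      rw [← mul_assoc, ← pow_mul, ← pow_add]
      congr 2; ring
    rw [e1, e1]
    rfl

end Pool.Agent.Lib.MP_663568_nt.E
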