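import Pool.Agent.Lib.MP_663568_e.EDefs

/-!
Row E15: blocks of primes which are far from each other.
-/

set_option autoImplicit false
open Finset

namespace Pool.Agent.Lib.MP_663568_nt.E

open Katai Nul T3

/-- the pairs which are not far from each other, with weights `1 / p`, `1 / q` -/
noncomputable def nearSum (B : ℕ) (P : Finset ℕ) : ℝ :=
  ∑ p ∈ P, ∑ q ∈ P, if B * q ≤ p ∨ B * p ≤ q then 0 else (1 / (p : ℝ)) * (1 / (q : ℝ))

private lemma e15_union {P Q : Finset ℕ} (h : Disjoint P Q) : WW (P ∪ Q) = WW P + WW Q := by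
  unfold WW
  exact sum_union h

private lemma e15_near_union {B : ℕ} {P Q : Finset ℕ} (h : Disjoint P Q)
    (hPQ : ∀ p ∈ P, ∀ q ∈ Q, B * p ≤ q) :
    nearSum B (P ∪ Q) = nearSum B P + nearSum B Q := by
  unfold nearSum
  rw [sum_union h]
  congr 1
  · refine sum_congr rfl fun p hp => ?_
    rw [sum_union h]
    rw [sum_eq_zero (s := Q) fun q hq => if_pos (Or.inr (hPQ p hp q hq)), add_zero]
  · refine sum_congr rfl fun p hp => ?_
    rw [sum_union h]
    rw [sum_eq_zero (s := P) fun q hq => if_pos (Or.inl (hPQ q hq p hp)), zero_add]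

private lemma e15_near_le (B : ℕ) (P : Finset ℕ) : nearSum B P ≤ WW P ^ 2 := by
  unfold nearSum WW
  rw [sq, sum_mul_sum]
  refine sum_le_sum fun p _ => sum_le_sum fun q _ => ?_
  split_ifs
  · positivity
  · exact le_rfl

private lemma e15_not_summable (N : ℕ) :
    ¬ Summable ({p : ℕ | p.Prime ∧ N ≤ p}.indicator (fun p : ℕ => (1 : ℝ) / p)) := by
  intro h
  apply not_summable_one_div_on_primes
  rw [← summable_nat_add_iff N] at h ⊢
  refine h.congr fun n => ?_
  by_cases hp : (n + N).Prime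
  · rw [Set.indicator_of_mem (show n + N ∈ {p : ℕ | p.Prime ∧ N ≤ p} from ⟨hp, by omega⟩),
      Set.indicator_of_mem (show n + N ∈ {p : ℕ | p.Prime} from hp)]
  · rw [Set.indicator_of_notMem (show n + N ∉ {p : ℕ | p.Prime ∧ N ≤ p} from fun h => hp h.1),
      Set.indicator_of_notMem (show n + N ∉ {p : ℕ | p.Prime} from hp)]

private lemma e15_block (N : ℕ) :
    ∃ Q : Finset ℕ, (∀ q ∈ Q, q.Prime ∧ N ≤ q) ∧ 1 ≤ WW Q ∧ WW Q ≤ 2 := by
  classical
  obtain ⟨Q₀, hQ₀, h1⟩ := exists_finset_WW _ (e15_not_summable N) 1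
  obtain ⟨Q, hQ, hmin⟩ := exists_min_image (Q₀.powerset.filter fun Q => 1 ≤ WW Q) card
    ⟨Q₀, mem_filter.2 ⟨mem_powerset_self Q₀, h1⟩⟩
  rw [mem_filter, mem_powerset] at hQ
  have hQp : ∀ q ∈ Q, q.Prime ∧ N ≤ q := fun q hq => hQ₀ (mem_coe.2 (hQ.1 hq))
  refine ⟨Q, hQp, hQ.2, ?_⟩
  have hne : Q.Nonempty := by
    rw [nonempty_iff_ne_empty]
    rintro rfl
    have := hQ.2
    simp only [WW, sum_empty] at this
    linarith
  obtain ⟨a, ha⟩ := hne
  have h2 : WW (Q.erase a) < 1 := by
    by_contra hcon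
    push Not at hcon
    have h3 := hmin (Q.erase a)
      (mem_filter.2 ⟨mem_powerset.2 ((erase_subset _ _).trans hQ.1), hcon⟩)
    rw [card_erase_of_mem ha] at h3
    have h4 : 0 < Q.card := card_pos.2 ⟨a, ha⟩
    omega
  have h3 : WW Q = 1 / (a : ℝ) + WW (Q.erase a) := by
    unfold WW
    rw [← add_sum_erase Q (fun p : ℕ => (1 : ℝ) / p) ha]
  have h4 : 1 / (a : ℝ) ≤ 1 := by
    have h5 : (1 : ℝ) ≤ a := by exact_mod_cast (hQp a ha).1.one_lt.le
    rw [div_le_one (by linarith)]
    exact h5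
  linarith

/-- RECIPE: induction on `n`: there is `P` with `n ≤ WW P` and the bound.  Step: let `M` be an upper
bound of `P`; the primes larger than `(B + 1) * M` have a divergent sum of reciprocals
(`Nat.Primes.not_summable_one_div` or `not_summable_one_div_on_primes`, minus finitely many terms), so
`Katai.exists_finset_WW` (file `MP_663568_nt/Log.lean`) gives a finite set `Q` of such primes with
`1 ≤ WW Q`; among the subsets with `1 ≤ WW` take one of minimal cardinality; removing one element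
gives `WW < 1`, so `WW Q ≤ 2`.  `P ∪ Q` is a disjoint union (if `P` is not empty then `M ≥ 2`; for
`P = ∅` nothing to prove), for `p ∈ P`, `q ∈ Q` we have `B * p ≤ q`, so the cross terms vanish and
`nearSum B (P ∪ Q) = nearSum B P + nearSum B Q ≤ 2 * WW P + WW Q ^ 2 ≤ 2 * WW (P ∪ Q)`. -/
theorem blocks (B : ℕ) (x : ℝ) :
    ∃ P : Finset ℕ, (∀ p ∈ P, p.Prime) ∧ x ≤ WW P ∧ nearSum B P ≤ 2 * WW P := by
  have key : ∀ n : ℕ, ∃ P : Finset ℕ, (∀ p ∈ P, p.Prime) ∧ (n : ℝ) ≤ WW P ∧
      nearSum B P ≤ 2 * WW P := by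
    intro n
    induction n with
    | zero => exact ⟨∅, by simp, by simp [WW], by simp [nearSum, WW]⟩
    | succ n ih =>
      obtain ⟨P, hP, h1, h2⟩ := ih
      obtain ⟨Q, hQ, h3, h4⟩ := e15_block ((B + 1) * P.sup id + 1)
      have hPQ : ∀ p ∈ P, ∀ q ∈ Q, (B + 1) * p < q := by
        intro p hp q hq
        have h5 : p ≤ P.sup id := le_sup (f := id) hp
        have h6 := (hQ q hq).2
        have h7 : (B + 1) * p ≤ (B + 1) * P.sup id := Nat.mul_le_mul_left _ h5
        omega
      have hd : Disjoint P Q := by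
        rw [disjoint_left]
        intro p hp hq
        have h5 := hPQ p hp p hq
        have h6 : p ≤ (B + 1) * p := Nat.le_mul_of_pos_left p (Nat.succ_pos B)
        omega
      refine ⟨P ∪ Q, ?_, ?_, ?_⟩
      · intro p hp
        rcases mem_union.1 hp with h | h
        · exact hP p h
        · exact (hQ p h).1
      · rw [e15_union hd]
        push_cast
        linarith
      · rw [e15_union hd, e15_near_union hd]
        · have h5 := e15_near_le B Q
          have h6 : WW Q ^ 2 ≤ 2 * WW Q := by nlinarith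
          linarith
        · intro p hp q hq
          have h5 := hPQ p hp q hq
          have h6 : B * p ≤ (B + 1) * p := Nat.mul_le_mul_right p (Nat.le_succ B)
          omega
  obtain ⟨n, hn⟩ := exists_nat_ge x
  obtain ⟨P, hP, h1, h2⟩ := key n
  exact ⟨P, hP, hn.trans h1, h2⟩

end Pool.Agent.Lib.MP_663568_nt.E
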