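import Pool.Agent.Lib.MP_663568_e.EDefs

/-!
Row E16: duality with weights `1 / p`.
-/

set_option autoImplicit false
open Finset

namespace Pool.Agent.Lib.MP_663568_nt.E

open Katai Nul T3

private lemma duality_w0 (Q : Finset ℕ) (L : ℕ) (η : ℝ) (hη : 0 ≤ η) (a : ℕ → ℂ)
    (ha : ∀ n, ‖a n‖ ≤ 1) (F : ℕ → ℕ → ℂ) (hF : ∀ p n, ‖F p n‖ ≤ 1) (B : ℕ)
    (horth : ∀ p ∈ Q, ∀ q ∈ Q, B * q ≤ p →
      ‖∑ l ∈ Icc 1 L, F p l * (starRingEnd ℂ) (F q l)‖ ≤ η * L) :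
    ∑ p ∈ Q, (1 / (p : ℝ)) * ‖∑ l ∈ Icc 1 L, F p l * a l‖ ≤
      L * √((∑ p ∈ Q, ∑ q ∈ Q, if B * q ≤ p ∨ B * p ≤ q then 0 else
        (1 / (p : ℝ)) * (1 / (q : ℝ))) + η * (∑ p ∈ Q, 1 / (p : ℝ)) ^ 2) := by
  choose u hu1 hu2 using exists_unit
  set v : ℕ → ℂ := fun p => ∑ l ∈ Icc 1 L, F p l * a l with hv
  set U : ℕ → ℂ := fun p => ((1 / (p : ℝ) : ℝ) : ℂ) * u (v p) with hU
  set D : ℝ := (∑ p ∈ Q, ∑ q ∈ Q, if B * q ≤ p ∨ B * p ≤ q then 0 else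
        (1 / (p : ℝ)) * (1 / (q : ℝ))) with hD
  have hD0 : 0 ≤ D := sum_nonneg fun p _ => sum_nonneg fun q _ => by split_ifs <;> positivity
  have hUn : ∀ p, ‖U p‖ ≤ 1 / (p : ℝ) := by
    intro p
    have h1 : ‖((1 / (p : ℝ) : ℝ) : ℂ)‖ = 1 / (p : ℝ) := by
      rw [Complex.norm_real, Real.norm_of_nonneg (by positivity)]
    rw [hU]
    simp only [norm_mul]
    rw [h1]
    exact mul_le_of_le_one_right (by positivity) (hu1 _)
  have h1 : ((∑ p ∈ Q, (1 / (p : ℝ)) * ‖v p‖ : ℝ) : ℂ) = ∑ l ∈ Icc 1 L, a l * ∑ p ∈ Q, U p * F p l := by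
    have e0 : ((∑ p ∈ Q, (1 / (p : ℝ)) * ‖v p‖ : ℝ) : ℂ) =
        ∑ p ∈ Q, ((1 / (p : ℝ) : ℝ) : ℂ) * (u (v p) * v p) := by
      rw [Complex.ofReal_sum]
      apply sum_congr rfl
      intro p _
      rw [hu2 (v p), ← Complex.ofReal_mul]
    rw [e0]
    simp only [hv, mul_sum]
    rw [sum_comm]
    apply sum_congr rfl; intro l _
    apply sum_congr rfl; intro p _
    simp only [hU, hv]; ring
  have h2 : ∑ p ∈ Q, (1 / (p : ℝ)) * ‖v p‖ ≤ ∑ l ∈ Icc 1 L, ‖∑ p ∈ Q, U p * F p l‖ := by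
    have h0 : 0 ≤ ∑ p ∈ Q, (1 / (p : ℝ)) * ‖v p‖ := sum_nonneg (fun _ _ => by positivity)
    calc ∑ p ∈ Q, (1 / (p : ℝ)) * ‖v p‖ = ‖((∑ p ∈ Q, (1 / (p : ℝ)) * ‖v p‖ : ℝ) : ℂ)‖ := by
          rw [Complex.norm_real, Real.norm_of_nonneg h0]
      _ = ‖∑ l ∈ Icc 1 L, a l * ∑ p ∈ Q, U p * F p l‖ := by rw [h1]
      _ ≤ ∑ l ∈ Icc 1 L, ‖a l * ∑ p ∈ Q, U p * F p l‖ := norm_sum_le _ _
      _ ≤ ∑ l ∈ Icc 1 L, ‖∑ p ∈ Q, U p * F p l‖ := by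
          apply sum_le_sum; intro l _
          rw [norm_mul]
          exact mul_le_of_le_one_left (norm_nonneg _) (ha l)
  have h3 : ∑ l ∈ Icc 1 L, ‖∑ p ∈ Q, U p * F p l‖ ^ 2
      ≤ (L : ℝ) * (D + η * (∑ p ∈ Q, 1 / (p : ℝ)) ^ 2) := by
    have e1 : ((∑ l ∈ Icc 1 L, ‖∑ p ∈ Q, U p * F p l‖ ^ 2 : ℝ) : ℂ)
        = ∑ p ∈ Q, ∑ q ∈ Q, (U p * (starRingEnd ℂ) (U q)) *
          ∑ l ∈ Icc 1 L, F p l * (starRingEnd ℂ) (F q l) := by
      push_cast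
      have : ∀ l, ((‖∑ p ∈ Q, U p * F p l‖ : ℂ)) ^ 2
          = ∑ p ∈ Q, ∑ q ∈ Q, (U p * (starRingEnd ℂ) (U q)) * (F p l * (starRingEnd ℂ) (F q l)) := by
        intro l
        rw [← Complex.mul_conj', map_sum, sum_mul_sum]
        apply sum_congr rfl; intro p _
        apply sum_congr rfl; intro q _
        rw [map_mul]; ring
      rw [sum_congr rfl (fun l _ => this l), sum_comm]
      apply sum_congr rfl; intro p _
      rw [sum_comm]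
      apply sum_congr rfl; intro q _
      rw [mul_sum]
    have h0 : 0 ≤ ∑ l ∈ Icc 1 L, ‖∑ p ∈ Q, U p * F p l‖ ^ 2 :=
      sum_nonneg (fun _ _ => by positivity)
    calc ∑ l ∈ Icc 1 L, ‖∑ p ∈ Q, U p * F p l‖ ^ 2
        = ‖((∑ l ∈ Icc 1 L, ‖∑ p ∈ Q, U p * F p l‖ ^ 2 : ℝ) : ℂ)‖ := by
          rw [Complex.norm_real, Real.norm_of_nonneg h0]
      _ ≤ ∑ p ∈ Q, ∑ q ∈ Q, ‖(U p * (starRingEnd ℂ) (U q)) *
          ∑ l ∈ Icc 1 L, F p l * (starRingEnd ℂ) (F q l)‖ := by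
          rw [e1]
          exact (norm_sum_le _ _).trans (sum_le_sum (fun p _ => norm_sum_le _ _))
      _ ≤ ∑ p ∈ Q, ∑ q ∈ Q, (((if B * q ≤ p ∨ B * p ≤ q then 0 else
            (1 / (p : ℝ)) * (1 / (q : ℝ))) * L + (1 / (p : ℝ)) * (1 / (q : ℝ)) * (η * L))) := by
          apply sum_le_sum; intro p hp
          apply sum_le_sum; intro q hq
          have hUU : ‖U p * (starRingEnd ℂ) (U q)‖ ≤ (1 / (p : ℝ)) * (1 / (q : ℝ)) := by
            rw [norm_mul, RCLike.norm_conj]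
            exact mul_le_mul (hUn p) (hUn q) (norm_nonneg _) (by positivity)
          rw [norm_mul]
          by_cases hpq : B * q ≤ p ∨ B * p ≤ q
          · rw [if_pos hpq, zero_mul, zero_add]
            have h5 : ‖∑ l ∈ Icc 1 L, F p l * (starRingEnd ℂ) (F q l)‖ ≤ η * L := by
              rcases hpq with hpq | hpq
              · exact horth p hp q hq hpq
              · have h6 := horth q hq p hp hpq
                have h7 : (starRingEnd ℂ) (∑ l ∈ Icc 1 L, F q l * (starRingEnd ℂ) (F p l)) =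
                    ∑ l ∈ Icc 1 L, F p l * (starRingEnd ℂ) (F q l) := by
                  rw [map_sum]
                  apply sum_congr rfl; intro l _
                  rw [map_mul, Complex.conj_conj]; ring
                rw [← h7, RCLike.norm_conj]
                exact h6
            exact mul_le_mul hUU h5 (norm_nonneg _) (by positivity)
          · rw [if_neg hpq]
            have : ‖∑ l ∈ Icc 1 L, F p l * (starRingEnd ℂ) (F q l)‖ ≤ L := by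
              calc _ ≤ ∑ l ∈ Icc 1 L, ‖F p l * (starRingEnd ℂ) (F q l)‖ := norm_sum_le _ _
                _ ≤ ∑ l ∈ Icc 1 L, (1 : ℝ) := by
                    apply sum_le_sum; intro l _
                    rw [norm_mul, RCLike.norm_conj]
                    exact mul_le_one₀ (hF _ _) (norm_nonneg _) (hF _ _)
                _ = L := by simp
            have h8 : 0 ≤ (1 / (p : ℝ)) * (1 / (q : ℝ)) * (η * L) := by positivity
            have h9 := mul_le_mul hUU this (norm_nonneg _) (by positivity)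
            linarith
      _ = (L : ℝ) * (D + η * (∑ p ∈ Q, 1 / (p : ℝ)) ^ 2) := by
          simp only [sum_add_distrib, ← sum_mul]
          rw [← hD]
          have : (∑ p ∈ Q, ∑ q ∈ Q, (1 / (p : ℝ)) * (1 / (q : ℝ))) = (∑ p ∈ Q, 1 / (p : ℝ)) ^ 2 := by
            rw [sq, sum_mul_sum]
          rw [this]
          ring
  have h4 : (∑ l ∈ Icc 1 L, ‖∑ p ∈ Q, U p * F p l‖) ^ 2
      ≤ (L : ℝ) * ∑ l ∈ Icc 1 L, ‖∑ p ∈ Q, U p * F p l‖ ^ 2 := by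
    have := sq_sum_le_card_mul_sum_sq (s := Icc 1 L) (f := fun l => ‖∑ p ∈ Q, U p * F p l‖)
    simpa using this
  have h5 : (∑ p ∈ Q, (1 / (p : ℝ)) * ‖v p‖) ^ 2 ≤
      (L : ℝ) ^ 2 * (D + η * (∑ p ∈ Q, 1 / (p : ℝ)) ^ 2) := by
    have h0 : 0 ≤ ∑ p ∈ Q, (1 / (p : ℝ)) * ‖v p‖ := sum_nonneg (fun _ _ => by positivity)
    calc (∑ p ∈ Q, (1 / (p : ℝ)) * ‖v p‖) ^ 2 ≤ (∑ l ∈ Icc 1 L, ‖∑ p ∈ Q, U p * F p l‖) ^ 2 := by gcongr
      _ ≤ (L : ℝ) * ∑ l ∈ Icc 1 L, ‖∑ p ∈ Q, U p * F p l‖ ^ 2 := h4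
      _ ≤ (L : ℝ) * ((L : ℝ) * (D + η * (∑ p ∈ Q, 1 / (p : ℝ)) ^ 2)) := by gcongr
      _ = _ := by ring
  have h6 := Real.le_sqrt_of_sq_le h5
  rwa [Real.sqrt_mul (by positivity), Real.sqrt_sq (by positivity)] at h6

/-- RECIPE: copy `Katai.duality` and `Katai.duality_iSup` (file `MP_663568_nt/Katai.lean`) with the
weights `1 / p`: with `v p = ∑ l, F p l * a l` and unimodular `U p` one has
`∑ p, (1 / p) ‖v p‖ ≤ ∑ l, ‖∑ p, (1 / p) U p F p l‖`, and by Cauchy-Schwarz the square is at most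
`L * ∑ p, ∑ q, (1 / p) (1 / q) ‖∑ l, F p l conj (F q l)‖`; the inner norm is at most `L` always and
at most `η L` if `far p q` or `far q p` (take conjugates), so the double sum is at most
`L * ((sum over the pairs with ¬ (far p q ∨ far q p)) + η * WW Q ^ 2)`. -/
theorem duality_w {ι : Type} (Q : Finset ℕ) (L : ℕ) (η : ℝ) (hη : 0 ≤ η) (a : ℕ → ℂ)
    (ha : ∀ n, ‖a n‖ ≤ 1) (F : ι → ℕ → ℕ → ℂ) (hF : ∀ i p n, ‖F i p n‖ ≤ 1) (B : ℕ)
    (horth : ∀ p ∈ Q, ∀ q ∈ Q, B * q ≤ p → ∀ i i',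
      ‖∑ l ∈ Icc 1 L, F i p l * (starRingEnd ℂ) (F i' q l)‖ ≤ η * L) :
    ∑ p ∈ Q, (1 / (p : ℝ)) * ⨆ i, ‖∑ l ∈ Icc 1 L, F i p l * a l‖ ≤
      L * √((∑ p ∈ Q, ∑ q ∈ Q, if B * q ≤ p ∨ B * p ≤ q then 0 else
        (1 / (p : ℝ)) * (1 / (q : ℝ))) + η * WW Q ^ 2) := by
  rcases isEmpty_or_nonempty ι with hι | hι
  · simp only [Real.iSup_of_isEmpty, mul_zero, sum_const_zero]; positivity
  apply le_of_forall_pos_le_add
  intro δ hδ
  have hex : ∀ p : ℕ, ∃ i : ι, (⨆ i, ‖∑ l ∈ Icc 1 L, F i p l * a l‖) - δ / ((∑ p ∈ Q, 1 / (p : ℝ)) + 1)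
      < ‖∑ l ∈ Icc 1 L, F i p l * a l‖ := by
    intro p
    apply exists_lt_of_lt_ciSup
    have h0 : 0 ≤ ∑ p ∈ Q, 1 / (p : ℝ) := sum_nonneg fun _ _ => by positivity
    have : 0 < δ / ((∑ p ∈ Q, 1 / (p : ℝ)) + 1) := by positivity
    linarith
  choose i hi using hex
  have h1 := duality_w0 Q L η hη a ha (fun p => F (i p) p) (fun p n => hF _ _ _) B
    (fun p hp q hq hpq => horth p hp q hq hpq _ _)
  have h0 : 0 ≤ ∑ p ∈ Q, 1 / (p : ℝ) := sum_nonneg fun _ _ => by positivity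
  calc ∑ p ∈ Q, (1 / (p : ℝ)) * ⨆ i, ‖∑ l ∈ Icc 1 L, F i p l * a l‖
      ≤ ∑ p ∈ Q, ((1 / (p : ℝ)) * ‖∑ l ∈ Icc 1 L, F (i p) p l * a l‖ +
          (1 / (p : ℝ)) * (δ / ((∑ p ∈ Q, 1 / (p : ℝ)) + 1))) := by
        apply sum_le_sum; intro p _
        rw [← mul_add]
        exact mul_le_mul_of_nonneg_left (by linarith [hi p]) (by positivity)
    _ = ∑ p ∈ Q, (1 / (p : ℝ)) * ‖∑ l ∈ Icc 1 L, F (i p) p l * a l‖ +
        (∑ p ∈ Q, 1 / (p : ℝ)) * (δ / ((∑ p ∈ Q, 1 / (p : ℝ)) + 1)) := by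
        rw [sum_add_distrib, ← sum_mul]
    _ ≤ _ := by
        have : (∑ p ∈ Q, 1 / (p : ℝ)) * (δ / ((∑ p ∈ Q, 1 / (p : ℝ)) + 1)) ≤ δ := by
          rw [mul_div_assoc', div_le_iff₀ (by positivity)]
          nlinarith
        have h2 : WW Q = ∑ p ∈ Q, 1 / (p : ℝ) := rfl
        rw [h2]
        linarith

end Pool.Agent.Lib.MP_663568_nt.E
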