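import Pool.Agent.Lib.MP_663568_e.E14
import Pool.Agent.Lib.MP_663568_e.E17

/-!
Row E18: the uniform estimate for functions of level at least two, near every compact set of
ergodic elements.
-/

set_option autoImplicit false
open Finset

namespace Pool.Agent.Lib.MP_663568_nt.E

open Katai Tw Fib Nul T3

variable {G : Type} [Group G] [TopologicalSpace G] [IsTopologicalGroup G] {A : ℕ → Subgroup G}
  {Γ : Subgroup G}
  {β : ℕ → Type} [∀ s, Fintype (β s)] [∀ s, DecidableEq (β s)]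
  {π : (s : ℕ) → G → β s → ℝ} {e : (s : ℕ) → β s → ℝ → G}

private theorem char_ge2_norm (hN : NS A Γ π e) (hΓ : IsClosed (Γ : Set G)) (s : ℕ) (hs : 2 ≤ s)
    (F : G → ℂ) (hF : LevN A Γ e s F) (hG : GoodN e s F) (hF1 : ∀ x, ‖F x‖ ≤ 1) (C : Set G)
    (hC : IsCompact C) (hCe : ∀ a ∈ C, Erg Γ a) (ε : ℝ) (hε : 0 < ε) : UEps (A 2) F C ε := by
  classical
  obtain ⟨η, hη, hk⟩ := klog muC norm_muC muC_mul (ε / 10) (by positivity)
  obtain ⟨B, hB, hcf⟩ := corr_far hN s hs F hF hG C hC hCe η hη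
  obtain ⟨P, hP, hkP⟩ := hk B
  obtain ⟨L, U₁, hL, hU₁, hCU₁, horth⟩ := hcf P (fun p hp => (hP p hp).pos)
  obtain ⟨H, hH, N₀, hN₀⟩ := hkP L hL (Idx (A 2) U₁) (orb (A 2) U₁ F) (fun i n => hF1 _) (by
    rintro p hp q hq hpq ⟨⟨g, u, hu, w, hw, rfl⟩, x⟩ ⟨⟨g', u', hu', w', hw', rfl⟩, x'⟩ j
    exact horth p hp q hq hpq u hu u' hu' w hw w' hw' x x' j)
  obtain ⟨U₂, hU₂, hCU₂, H₁, hH₁⟩ := single_near hN hΓ s (by omega) F hF hG hF1 C hC hCe
    (ε / 10) (by positivity)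
  set U : Set G := U₁ ∩ U₂ with hU
  have hmono : ∀ H n, GG (orb (A 2) U F) muC H n ≤ GG (orb (A 2) U₁ F) muC H n := by
    intro H n
    refine Real.iSup_le ?_ (GG_nonneg _ _ _ _)
    rintro ⟨⟨g, u, hu, w, hw, rfl⟩, x⟩
    exact le_GG (orb (A 2) U₁ F) muC (fun i m => hF1 _) norm_muC H n
      ⟨⟨u * w, u, hu.1, w, hw, rfl⟩, x⟩
  obtain ⟨H₀, h3⟩ := up_scale (GG (orb (A 2) U F) muC) (GG_nonneg _ _)
    (GG_le _ muC (fun i n => hF1 _) norm_muC)
    (fun H L n hL => GG_sub _ muC (fun i n => hF1 _) norm_muC H L n hL) (ε / 10) (by positivity)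
    H hH N₀ (by
      intro N hN
      refine le_trans (sum_le_sum fun n _ => ?_) (hN₀ N hN)
      exact mul_le_mul_of_nonneg_left (hmono H n) (by positivity)) H₁ (by
      intro H n hH hn
      refine Real.iSup_le ?_ (by positivity)
      rintro ⟨⟨g, u, hu, w, hw, rfl⟩, x⟩
      exact hH₁ u hu.2 w hw x H n hH hn)
  exact ⟨U, hU₁.inter hU₂, Set.subset_inter hCU₁ hCU₂, H₀,
    fun M H h1 h2 => (h3 M H h1 h2).trans (le_of_eq (by ring))⟩

/-- The uniform estimate for functions of level at least two. -/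
theorem char_ge2 (hN : NS A Γ π e) (hΓ : IsClosed (Γ : Set G)) (s : ℕ) (hs : 2 ≤ s) (F : G → ℂ)
    (hF : LevN A Γ e s F) (hG : GoodN e s F) (C : Set G) (hC : IsCompact C)
    (hCe : ∀ a ∈ C, Erg Γ a) (ε : ℝ) (hε : 0 < ε) : UEps (A 2) F C ε := by
  have hCo : Cocompact' Γ := by
    obtain ⟨C, hC1, _, hC3⟩ := hN.coc 0
    exact ⟨C, hC1, fun x => hC3 x (by rw [hN.A0]; trivial)⟩
  obtain ⟨B, hB0, hB⟩ := reg_bdd hCo hF.1
  set F' : G → ℂ := fun x => (B : ℂ)⁻¹ * F x with hF'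
  have hF'L : LevN A Γ e s F' := by
    refine ⟨reg_const_mul hF.1 _, fun z hz x => ?_, fun j => ?_⟩
    · simp only [hF']; rw [hF.2.1 z hz x]
    · obtain ⟨m, hm⟩ := hF.2.2 j
      exact ⟨m, hm.mul_const _⟩
  have hF'1 : ∀ x, ‖F' x‖ ≤ 1 := by
    intro x
    simp only [hF']
    rw [norm_mul, norm_inv, Complex.norm_real, Real.norm_eq_abs, abs_of_pos hB0,
      inv_mul_le_iff₀ hB0, mul_one]
    exact hB x
  have hF'G : GoodN e s F' := by
    obtain ⟨j, m, hm, h⟩ := hG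
    exact ⟨j, m, hm, h.mul_const _⟩
  have h1 := (char_ge2_norm hN hΓ s hs F' hF'L hF'G hF'1 C hC hCe (ε / B)
    (by positivity)).const_mul (B : ℂ)
  have e1 : (fun x => (B : ℂ) * F' x) = F := by
    funext x
    simp only [hF']
    have : (B : ℂ) ≠ 0 := by exact_mod_cast hB0.ne'
    field_simp
  rw [e1, Complex.norm_real, Real.norm_eq_abs, abs_of_pos hB0] at h1
  have e2 : B * (ε / B) = ε := by field_simp
  rwa [e2] at h1

end Pool.Agent.Lib.MP_663568_nt.E
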