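import Pool.Agent.Lib.MP_663568_e.EDefs

/-!
Row E19: the decomposition into functions with a vertical frequency, inside a class of functions.
-/

set_option autoImplicit false
open Finset MeasureTheory

namespace Pool.Agent.Lib.MP_663568_nt.E

open Katai Fib

variable {G : Type} [Group G] [TopologicalSpace G] [IsTopologicalGroup G]

/-- RECIPE: copy the proof of `Fib.level_decomp` (file `MP_663568_nt_h86/FDecomp.lean`) with the class
`fun φ => Reg Γ φ ∧ Inv (A (s + 1 + 1)) φ ∧ Q φ` given to `fourier_list`; the induction hypothesis is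
applied to the sum over `bad`, which is in `Q` by `hQsum`. -/
theorem level_decomp_Q (A : ℕ → Subgroup G) (hanti : Antitone A)
    (hcomm : ∀ i j, ⁅A i, A j⁆ ≤ A (i + j)) (h1 : A 1 = ⊤)
    (Γ : Subgroup G) (hC : Cocompact' Γ) (es : ℕ → List (ℝ → G))
    (hes : ∀ s, 1 ≤ s → ∀ e ∈ es s, IsOneP e ∧ e 1 ∈ Γ ∧ ∀ r, e r ∈ A s)
    (hgen : ∀ s, 1 ≤ s → A s ≤ Subgroup.closure {x | ∃ e ∈ es s, ∃ r, x = e r} ⊔ A (s + 1))
    (Q : (G → ℂ) → Prop)
    (hQpop : ∀ φ, Reg Γ φ → Q φ → ∀ s, 1 ≤ s → ∀ e ∈ es s, ∀ m : ℤ, Q (Pop e m φ))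
    (hQmul : ∀ φ, Reg Γ φ → Q φ → ∀ c : ℂ, Q fun x => c * φ x)
    (hQsum : ∀ (ι : Type) (t : Finset ι) (F : ι → G → ℂ), (∀ i ∈ t, Reg Γ (F i) ∧ Q (F i)) →
      Q fun x => ∑ i ∈ t, F i x)
    (s : ℕ) (f : G → ℂ) (hf : Reg Γ f) (hinv : Inv (A (s + 1)) f) (hQf : Q f) (ε : ℝ)
    (hε : 0 < ε) :
    ∃ (ι : Type) (_ : Fintype ι) (lev : ι → ℕ) (F : ι → G → ℂ) (c : ℂ),
      (∀ i, 1 ≤ lev i ∧ Lev A Γ es (lev i) (F i) ∧ Good es (lev i) (F i) ∧ Q (F i)) ∧
      ∀ x, ‖f x - ∑ i, F i x - c‖ ≤ ε := by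
  classical
  induction s generalizing f ε with
  | zero =>
    refine ⟨Empty, inferInstance, fun i => i.elim, fun i => i.elim, f 1, fun i => i.elim, fun x => ?_⟩
    have : f x = f 1 := by
      have := hinv x (by rw [zero_add, h1]; trivial) 1
      rwa [mul_one] at this
    rw [this]
    simp [hε.le]
  | succ s ih =>
    obtain ⟨ι, hι, Fs, hFs, happ⟩ := fourier_list Γ hC (es (s + 1))
      (fun e he => (hes (s + 1) (by omega) e he).1)
      (fun φ => Reg Γ φ ∧ Inv (A (s + 1 + 1)) φ ∧ Q φ) (fun φ h => h.1)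
      (fun φ h e he x => gamma_act A hcomm h1 h.1 h.2.1 (hes (s + 1) (by omega) e he).2.1
        ((hes (s + 1) (by omega) e he).2.2 1) x)
      (fun φ h e he e' he' r r' x => swap_eq A hcomm hanti (by omega) h.2.1
        ((hes (s + 1) (by omega) e he).2.2 r) ((hes (s + 1) (by omega) e' he').2.2 r') x)
      (fun φ h e he m => ⟨reg_Pop Γ φ h.1 e (hes (s + 1) (by omega) e he).1.1 m,
        FDec.inv_Pop A hanti hcomm h1 h.2.1 e m, hQpop φ h.1 h.2.2 (s + 1) (by omega) e he m⟩)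
      (fun φ h c => ⟨reg_const_mul h.1 c, fun z hz x => by
        show c * φ (z * x) = c * φ x
        rw [h.2.1 z hz x], hQmul φ h.1 h.2.2 c⟩)
      f ⟨hf, hinv, hQf⟩ (ε / 2) (by positivity)
    set bad : Finset ι := univ.filter fun i => ¬ Good es (s + 1) (Fs i) with hbad
    have hbadinv : ∀ i ∈ bad, Inv (A (s + 1)) (Fs i) := by
      intro i hi
      have hng : ¬ Good es (s + 1) (Fs i) := (Finset.mem_filter.1 hi).2
      refine FDec.inv_zero_freq A (es (s + 1)) (s + 1) (hgen (s + 1) (by omega))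
        (hFs i).1.2.1 ?_
      intro e he
      obtain ⟨m, hm⟩ := (hFs i).2 e he
      by_cases hm0 : m = 0
      · rwa [hm0] at hm
      · exact absurd ⟨e, he, m, hm0, hm⟩ hng
    obtain ⟨ι', hι', lev', F', c, hF', happ'⟩ := ih (fun x => ∑ i ∈ bad, Fs i x)
      (FDec.reg_sum bad Fs fun i _ => (hFs i).1.1) (FDec.inv_sum bad Fs hbadinv)
      (hQsum ι bad Fs fun i _ => ⟨(hFs i).1.1, (hFs i).1.2.2⟩)
      (ε / 2) (by positivity)
    refine ⟨{i : ι // Good es (s + 1) (Fs i)} ⊕ ι', inferInstance,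
      Sum.elim (fun _ => s + 1) lev', Sum.elim (fun i => Fs i.1) F', c, ?_, ?_⟩
    · rintro (i | i)
      · exact ⟨by simp, ⟨(hFs i.1).1.1, (hFs i.1).1.2.1, (hFs i.1).2⟩, i.2, (hFs i.1).1.2.2⟩
      · exact hF' i
    · intro x
      rw [Fintype.sum_sum_type]
      simp only [Sum.elim_inl, Sum.elim_inr]
      have hsplit : ∑ i, Fs i x = ∑ i : {i : ι // Good es (s + 1) (Fs i)}, Fs i.1 x
          + ∑ i ∈ bad, Fs i x := by
        rw [← Finset.sum_filter_add_sum_filter_not univ (fun i => Good es (s + 1) (Fs i))]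
        congr 1
        exact (Finset.sum_subtype _ (fun i => by simp) _)
      have e1 : f x - (∑ i : {i : ι // Good es (s + 1) (Fs i)}, Fs i.1 x + ∑ i, F' i x) - c =
          (f x - ∑ i, Fs i x) + (∑ i ∈ bad, Fs i x - ∑ i, F' i x - c) := by
        rw [hsplit]; ring
      rw [e1]
      refine (norm_add_le _ _).trans ?_
      have := happ x
      have := happ' x
      linarith

end Pool.Agent.Lib.MP_663568_nt.E
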