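import Pool.Agent.Lib.MP_663568_e.EDefs

/-!
Row E20: the spectrum of the components of a function.
-/

set_option autoImplicit false
open Finset MeasureTheory

namespace Pool.Agent.Lib.MP_663568_nt.E

open Katai Tw Fib Nul T3

variable {G : Type} [Group G] [TopologicalSpace G] [IsTopologicalGroup G] {A : ℕ → Subgroup G}
  {Γ : Subgroup G}
  {β : ℕ → Type} [∀ s, Fintype (β s)] [∀ s, DecidableEq (β s)]
  {π : (s : ℕ) → G → β s → ℝ} {e : (s : ℕ) → β s → ℝ → G}

/-- The character `k` of the horizontal torus is in the spectrum of `f`. -/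
def InSp (hN : NS A Γ π e) [MeasurableSpace (G ⧸ Γ)] (m : Measure (G ⧸ Γ)) (f : G ⧸ Γ → ℂ)
    (k : β 1 → ℤ) : Prop :=
  ∃ φ : G ⧸ Γ → ℂ, (∀ g : G, φ g = (chi hN k g : ℂ)) ∧
    ∫ x, f x * (starRingEnd ℂ) (φ x) ∂m ≠ 0

/-- The spectrum of `F` is contained in the spectrum of `f`. -/
def SpQ (hN : NS A Γ π e) [MeasurableSpace (G ⧸ Γ)] (m : Measure (G ⧸ Γ)) (f : G ⧸ Γ → ℂ)
    (F : G → ℂ) : Prop :=
  ∀ (k : β 1 → ℤ) (F' : G ⧸ Γ → ℂ), (∀ g : G, F' g = F g) → InSp hN m F' k → InSp hN m f k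

omit [IsTopologicalGroup G] in
private lemma e20_compact (hN : NS A Γ π e) : CompactSpace (G ⧸ Γ) := by
  obtain ⟨C, hC1, hC2⟩ := coc_prime hN
  refine ⟨?_⟩
  have : (Set.univ : Set (G ⧸ Γ)) = (fun g : G => (g : G ⧸ Γ)) '' C := by
    ext x
    simp only [Set.mem_univ, true_iff]
    obtain ⟨g, rfl⟩ := QuotientGroup.mk_surjective x
    obtain ⟨c, hc, γ, hγ, e⟩ := hC2 g
    exact ⟨c, hc, (coe_eq_of_mul Γ _ _ _ hγ e).symm⟩
  rw [this]
  exact hC1.image QuotientGroup.continuous_mk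

omit [IsTopologicalGroup G] in
private lemma e20_bdd (hN : NS A Γ π e) {φ : G ⧸ Γ → ℂ} (hφ : Continuous φ) :
    ∃ B : ℝ, ∀ x, ‖φ x‖ ≤ B := by
  have := e20_compact hN
  have h1 : IsCompact (Set.range fun x => ‖φ x‖) := isCompact_range (by fun_prop)
  obtain ⟨B, hB⟩ := h1.bddAbove
  exact ⟨B, fun x => hB ⟨x, rfl⟩⟩

private lemma e20_phi (hN : NS A Γ π e) {k : β 1 → ℤ} {φ : G ⧸ Γ → ℂ}
    (hφ : ∀ g : G, φ g = (chi hN k g : ℂ)) : Continuous φ := by
  rw [← (QuotientGroup.isOpenQuotientMap_mk (G := G) (N := Γ)).continuous_comp_iff]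
  have : (φ ∘ fun g : G => (g : G ⧸ Γ)) = fun g : G => ((chi hN k g : Circle) : ℂ) := by
    funext g
    exact hφ g
  rw [this]
  exact continuous_subtype_val.comp (chi_cont hN k)

omit [IsTopologicalGroup G] in
private lemma e20_norm (hN : NS A Γ π e) {k : β 1 → ℤ} {φ : G ⧸ Γ → ℂ}
    (hφ : ∀ g : G, φ g = (chi hN k g : ℂ)) (x : G ⧸ Γ) : ‖φ x‖ = 1 := by
  obtain ⟨y, rfl⟩ := QuotientGroup.mk_surjective x
  rw [hφ]
  exact Circle.norm_coe _

variable [MeasurableSpace (G ⧸ Γ)] [BorelSpace (G ⧸ Γ)] (m : Measure (G ⧸ Γ))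
  [IsProbabilityMeasure m]

theorem spq_self (hN : NS A Γ π e) (f : G ⧸ Γ → ℂ) : SpQ hN m f fun x : G => f (x : G ⧸ Γ) := by
  intro k F' hF' h
  have : F' = f := by
    funext x
    obtain ⟨y, rfl⟩ := QuotientGroup.mk_surjective x
    exact hF' y
  rwa [this] at h

omit [IsTopologicalGroup G] in
private lemma e20_int (hN : NS A Γ π e) {φ : G ⧸ Γ → ℂ} (hφ : Continuous φ) :
    Integrable φ m := by
  obtain ⟨B, hB⟩ := e20_bdd hN hφ
  exact Integrable.of_bound hφ.aestronglyMeasurable B (Filter.Eventually.of_forall hB)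

/-- RECIPE: `F'` is a descent of `c * F`; let `F₁` be a descent of `F` (`Fib.exists_descend`),
then `F' = c * F₁` and the integral for `F'` is `c` times the integral for `F₁`, so the latter does
not vanish. -/
theorem spq_mul (hN : NS A Γ π e) (f : G ⧸ Γ → ℂ) (F : G → ℂ) (hF : Reg Γ F)
    (h : SpQ hN m f F) (c : ℂ) : SpQ hN m f fun x => c * F x := by
  rintro k F' hF' ⟨φ, hφ, hne⟩
  obtain ⟨F₁, _, hF₁⟩ := exists_descend hF
  have e1 : F' = fun x => c * F₁ x := by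
    funext x
    obtain ⟨y, rfl⟩ := QuotientGroup.mk_surjective x
    rw [hF₁]
    exact hF' y
  refine h k F₁ hF₁ ⟨φ, hφ, fun h0 => hne ?_⟩
  rw [e1]
  have e2 : ∀ x, c * F₁ x * (starRingEnd ℂ) (φ x) = c * (F₁ x * (starRingEnd ℂ) (φ x)) :=
    fun x => mul_assoc _ _ _
  simp only [e2]
  rw [integral_const_mul, h0, mul_zero]

/-- RECIPE: descend all `F i`, `i ∈ t`; the functions are bounded and continuous (`G ⧸ Γ` is compact, see the
proof of `T3.mean_eps`), so the integral of the sum is the sum of the integrals, and one of them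
does not vanish. -/
theorem spq_sum (hN : NS A Γ π e) (f : G ⧸ Γ → ℂ) (ι : Type) (t : Finset ι)
    (F : ι → G → ℂ) (h : ∀ i ∈ t, Reg Γ (F i) ∧ SpQ hN m f (F i)) :
    SpQ hN m f fun x => ∑ i ∈ t, F i x := by
  rintro k F' hF' ⟨φ, hφ, hne⟩
  have hφc := e20_phi hN hφ
  have hd : ∀ i, ∃ F₁ : G ⧸ Γ → ℂ, i ∈ t → Continuous F₁ ∧ ∀ x : G, F₁ (x : G ⧸ Γ) = F i x := by
    intro i
    by_cases hi : i ∈ t
    · obtain ⟨F₁, h1⟩ := exists_descend (h i hi).1
      exact ⟨F₁, fun _ => h1⟩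
    · exact ⟨0, fun h => absurd h hi⟩
  choose F₁ hF₁ using hd
  have e1 : F' = fun x => ∑ i ∈ t, F₁ i x := by
    funext x
    obtain ⟨y, rfl⟩ := QuotientGroup.mk_surjective x
    rw [hF' y]
    exact sum_congr rfl fun i hi => ((hF₁ i hi).2 y).symm
  by_contra hcon
  apply hne
  rw [e1]
  have e2 : ∀ x, (∑ i ∈ t, F₁ i x) * (starRingEnd ℂ) (φ x)
      = ∑ i ∈ t, F₁ i x * (starRingEnd ℂ) (φ x) := fun x => sum_mul _ _ _
  simp only [e2]
  have hi : ∀ i ∈ t, Integrable (fun x => F₁ i x * (starRingEnd ℂ) (φ x)) m := fun i hi =>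
    e20_int m hN ((hF₁ i hi).1.mul (Complex.continuous_conj.comp hφc))
  rw [integral_finsetSum t hi]
  refine sum_eq_zero fun i hi => ?_
  by_contra h0
  exact hcon ((h i hi).2 k (F₁ i) (hF₁ i hi).2 ⟨φ, hφ, h0⟩)

/-- RECIPE: let `F₁` be a descent of `F`, `χ` a descent of `chi hN k`; then
`F' x = ∫ r in 0..1, ee (-(n * r)) * F₁ (e' r • x)`.  By Fubini (the integrand is continuous and
bounded on `ℝ × G ⧸ Γ`; `SecondCountableTopologyEither` holds because of `ℝ`, so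
`Continuous.aestronglyMeasurable` applies on the product) the integral of `F' * conj χ` is
`∫ r in 0..1, ee (-(n * r)) * ∫ x, F₁ (e' r • x) * conj (χ x) ∂m`, and by the invariance of `m`
(`integral_map`, as in `Fib.mean_zero`) `∫ x, F₁ (e' r • x) * conj (χ x) ∂m =
∫ y, F₁ y * conj (χ ((e' r)⁻¹ • y)) ∂m = conj (chi hN k (e' r)⁻¹) * ∫ y, F₁ y * conj (χ y) ∂m`.  So if the
integral for `F'` does not vanish, the one for `F₁` does not vanish. -/
theorem spq_pop (hN : NS A Γ π e) (hm : ∀ g : G, m.map (fun x => g • x) = m)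
    (f : G ⧸ Γ → ℂ) (F : G → ℂ) (hF : Reg Γ F) (h : SpQ hN m f F) (e' : ℝ → G)
    (he' : IsOneP e') (n : ℤ) : SpQ hN m f (Pop e' n F) := by
  rintro k F' hF' ⟨φ, hφ, hne⟩
  have hφc := e20_phi hN hφ
  obtain ⟨F₁, hF₁c, hF₁⟩ := exists_descend hF
  have hact : ∀ (g : G) (x : G ⧸ Γ), φ (g • x) = (chi hN k g : ℂ) * φ x := by
    intro g x
    obtain ⟨y, rfl⟩ := QuotientGroup.mk_surjective x
    have : g • (y : G ⧸ Γ) = ((g * y : G) : G ⧸ Γ) := rfl
    rw [this, hφ, hφ, map_mul, Circle.coe_mul]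
  refine h k F₁ hF₁ ⟨φ, hφ, fun h0 => hne ?_⟩
  have e1 : ∀ x, F' x * (starRingEnd ℂ) (φ x) =
      ∫ r in (0 : ℝ)..1, ee (-(n * r)) * F₁ (e' r • x) * (starRingEnd ℂ) (φ x) := by
    intro x
    rw [intervalIntegral.integral_mul_const]
    congr 1
    obtain ⟨y, rfl⟩ := QuotientGroup.mk_surjective x
    rw [hF' y]
    unfold Pop
    refine intervalIntegral.integral_congr fun r _ => ?_
    have : e' r • (y : G ⧸ Γ) = ((e' r * y : G) : G ⧸ Γ) := rfl
    rw [this, hF₁]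
  simp only [e1]
  have hcont : Continuous fun p : ℝ × (G ⧸ Γ) =>
      ee (-(n * p.1)) * F₁ (e' p.1 • p.2) * (starRingEnd ℂ) (φ p.2) := by
    have c1 : Continuous fun p : ℝ × (G ⧸ Γ) => ee (-(n * p.1)) := by
      unfold ee
      fun_prop
    have c2 : Continuous fun p : ℝ × (G ⧸ Γ) => e' p.1 • p.2 :=
      (he'.1.comp continuous_fst).smul continuous_snd
    exact (c1.mul (hF₁c.comp c2)).mul (Complex.continuous_conj.comp (hφc.comp continuous_snd))
  obtain ⟨B, hB⟩ := e20_bdd hN hF₁c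
  have hfin : IsFiniteMeasure (volume.restrict (Set.uIoc (0 : ℝ) 1)) := by
    rw [Set.uIoc_of_le zero_le_one]
    infer_instance
  have hint : Integrable (Function.uncurry fun (r : ℝ) (x : G ⧸ Γ) =>
      ee (-(n * r)) * F₁ (e' r • x) * (starRingEnd ℂ) (φ x))
      ((volume.restrict (Set.uIoc (0 : ℝ) 1)).prod m) := by
    refine Integrable.of_bound hcont.aestronglyMeasurable B (Filter.Eventually.of_forall ?_)
    rintro ⟨r, x⟩
    simp only [Function.uncurry_apply_pair, norm_mul, norm_ee, RCLike.norm_conj,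
      e20_norm hN hφ, one_mul, mul_one]
    exact hB _
  rw [← intervalIntegral_integral_swap hint]
  have e2 : ∀ r : ℝ, ∫ x, ee (-(n * r)) * F₁ (e' r • x) * (starRingEnd ℂ) (φ x) ∂m = 0 := by
    intro r
    have e3 : ∫ x, F₁ (e' r • x) * (starRingEnd ℂ) (φ x) ∂m
        = ∫ y, F₁ y * (starRingEnd ℂ) (φ ((e' r)⁻¹ • y)) ∂m := by
      conv_rhs => rw [← hm (e' r)]
      rw [integral_map]
      · simp only [inv_smul_smul]
      · exact (continuous_const_smul (e' r)).measurable.aemeasurable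
      · exact (hF₁c.mul (Complex.continuous_conj.comp
          (hφc.comp (continuous_const_smul _)))).aestronglyMeasurable
    have e4 : ∀ x, ee (-(n * r)) * F₁ (e' r • x) * (starRingEnd ℂ) (φ x)
        = ee (-(n * r)) * (F₁ (e' r • x) * (starRingEnd ℂ) (φ x)) := fun x => mul_assoc _ _ _
    simp only [e4]
    rw [integral_const_mul, e3]
    have e5 : ∀ y, F₁ y * (starRingEnd ℂ) (φ ((e' r)⁻¹ • y))
        = (starRingEnd ℂ) (chi hN k (e' r)⁻¹ : ℂ) * (F₁ y * (starRingEnd ℂ) (φ y)) := by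
      intro y
      rw [hact, map_mul]
      ring
    simp only [e5]
    rw [integral_const_mul, h0, mul_zero, mul_zero]
  simp only [e2]
  simp

/-- RECIPE: by `T3.lev_act` with `s = 1` (`A 1 = ⊤`) `F x = ee (∑ j, k j * π 1 x j) * F 1`, i.e.
`F x = F 1 * chi hN k x` (`chi_apply`, `ee`, `Circle.coe_exp`), and `F 1 ≠ 0`.  For the descent `F'`
of `F` (which exists by `exists_descend`) and `φ = (F 1)⁻¹ * F'` the integral of `F' * conj φ` is
`F 1 ≠ 0` because `|φ| = 1`; apply `SpQ`. -/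
theorem spq_one (hN : NS A Γ π e) (f : G ⧸ Γ → ℂ) (F : G → ℂ) (hF : LevN A Γ e 1 F)
    (k : β 1 → ℤ) (hk : ∀ j, Freq (e 1 j) (k j) F) (hF0 : ∃ x, F x ≠ 0) (h : SpQ hN m f F) :
    InSp hN m f k := by
  have h1 : ∀ x, F x = (chi hN k x : ℂ) * F 1 := by
    intro x
    have h2 := lev_act hN le_rfl hF.2.1 k hk (x := x) (by rw [hN.A1]; trivial) 1
    rw [mul_one] at h2
    rw [h2, chi_apply, Circle.coe_exp]
    congr 1
    unfold ee hf
    congr 1
    push_cast
    ring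
  have h10 : F 1 ≠ 0 := by
    intro h0
    obtain ⟨x, hx⟩ := hF0
    apply hx
    rw [h1, h0, mul_zero]
  obtain ⟨F', _, hF'⟩ := exists_descend hF.1
  have hφ : ∀ g : G, (fun x => (F 1)⁻¹ * F' x) (g : G ⧸ Γ) = (chi hN k g : ℂ) := by
    intro g
    beta_reduce
    rw [hF', h1 g, mul_comm, mul_assoc, mul_inv_cancel₀ h10, mul_one]
  refine h k F' hF' ⟨fun x => (F 1)⁻¹ * F' x, hφ, ?_⟩
  have h3 : ∀ x, F' x * (starRingEnd ℂ) ((F 1)⁻¹ * F' x) = F 1 := by
    intro x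
    obtain ⟨y, rfl⟩ := QuotientGroup.mk_surjective x
    have h4 := hφ y
    beta_reduce at h4
    rw [h4, hF', h1 y, mul_right_comm, Complex.mul_conj, Circle.normSq_coe, Complex.ofReal_one,
      one_mul]
  simp only [h3]
  rw [integral_const]
  simpa using h10

end Pool.Agent.Lib.MP_663568_nt.E
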