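import Pool.Agent.Lib.MP_663568_e.EDefs

/-!
Row E21: functions of level one.
-/

set_option autoImplicit false
open Finset MeasureTheory

namespace Pool.Agent.Lib.MP_663568_nt.E

open Katai Tw Fib Nul T3

variable {G : Type} [Group G] [TopologicalSpace G] [IsTopologicalGroup G] {A : ℕ → Subgroup G}
  {Γ : Subgroup G}
  {β : ℕ → Type} [∀ s, Fintype (β s)] [∀ s, DecidableEq (β s)]
  {π : (s : ℕ) → G → β s → ℝ} {e : (s : ℕ) → β s → ℝ → G}

private lemma geo_corr (α β : ℝ) (c c' : ℂ) (hc : ‖c‖ ≤ 1) (hc' : ‖c'‖ ≤ 1) (κ η : ℝ) (hκ : 0 < κ)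
    (hη : 0 < η) (hnd : κ ≤ nd α) (L : ℕ) (hL : ⌈1 / (κ * η)⌉₊ ≤ L) :
    ‖∑ l ∈ Icc 1 L, ee (α * l + β) * (c * c')‖ ≤ η * L := by
  rw [← Finset.sum_mul, norm_mul]
  have h1 := geom_bound α β L
  have h2 := nd_le_norm_one_sub_ee α
  have hS0 := norm_nonneg (∑ l ∈ Icc 1 L, ee (α * l + β))
  have h3 : κ * ‖∑ l ∈ Icc 1 L, ee (α * l + β)‖ ≤ 1 := by
    have h4 : 2 * κ ≤ ‖1 - ee α‖ := by linarith
    have h5 : 2 * κ * ‖∑ l ∈ Icc 1 L, ee (α * l + β)‖ ≤ 2 :=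
      (mul_le_mul_of_nonneg_right h4 hS0).trans h1
    linarith
  have h6 : 1 / (κ * η) ≤ L := (Nat.le_ceil _).trans (by exact_mod_cast hL)
  rw [div_le_iff₀ (by positivity)] at h6
  have h7 : ‖c * c'‖ ≤ 1 := by
    rw [norm_mul]; exact mul_le_one₀ hc (norm_nonneg _) hc'
  have h8 : ‖∑ l ∈ Icc 1 L, ee (α * l + β)‖ ≤ η * L := by
    have h9 : κ * ‖∑ l ∈ Icc 1 L, ee (α * l + β)‖ ≤ κ * (η * L) := by
      calc _ ≤ 1 := h3
        _ ≤ L * (κ * η) := h6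
        _ = _ := by ring
    exact le_of_mul_le_mul_left h9 hκ
  calc _ ≤ ‖∑ l ∈ Icc 1 L, ee (α * l + β)‖ * 1 := mul_le_mul_of_nonneg_left h7 hS0
    _ ≤ _ := by rw [mul_one]; exact h8

omit [IsTopologicalGroup G] in
private theorem char_one_bdd (hN : NS A Γ π e) (F : G → ℂ) (hF : LevN A Γ e 1 F) (k : β 1 → ℤ)
    (hk : ∀ j, Freq (e 1 j) (k j) F) (hk0 : k ≠ 0) (hF1 : ∀ x, ‖F x‖ ≤ 1) (ε : ℝ) (hε : 0 < ε) :
    ∃ v : ℝ, 0 < v ∧ ∀ C : Set G, IsCompact C → (∀ a ∈ C, Erg Γ a) →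
      (volume ((fun x : ℝ => (x : UnitAddCircle)) '' (hf π k '' C))).toReal < v →
      UEps (A 2) F C ε := by
  classical
  set cst : ℝ := ε / 10 / 4 / (8 * (MM (ε / 10) : ℕ)) with hcst
  have hMM : (0 : ℝ) < (MM (ε / 10) : ℕ) := by
    have : 0 < MM (ε / 10) := by rw [MM]; omega
    exact_mod_cast this
  have hcst0 : 0 < cst := by positivity
  refine ⟨cst / 2, by positivity, fun C hC hCe hvol => ?_⟩
  -- the family
  obtain ⟨F', hF'⟩ : ∃ F' : G × G → ℕ → ℂ, F' = fun i m => F (i.1 ^ m * i.2) := ⟨_, rfl⟩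
  obtain ⟨ld, hld⟩ : ∃ ld : G × G → Unit → ℝ, ld = fun i _ => hf π k i.1 := ⟨_, rfl⟩
  obtain ⟨Φ, hΦ⟩ : ∃ Φ : G → Unit → ℝ, Φ = fun a _ => hf π k a := ⟨_, rfl⟩
  have hF'v : ∀ i m, F' i m = ee (m * hf π k i.1) * F i.2 := by
    intro i m
    rw [hF']
    have hgl : i.1 ^ m ∈ A 1 := by rw [hN.A1]; exact Subgroup.mem_top _
    beta_reduce
    rw [lev_act hN le_rfl hF.2.1 k hk hgl i.2, ← hf_pow hN, hf]
  have hF'1 : ∀ i m, ‖F' i m‖ ≤ 1 := fun i m => by rw [hF']; exact hF1 _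
  have hΦc : Continuous Φ := by rw [hΦ]; exact continuous_pi fun _ => hf_cont hN k
  obtain ⟨Ks, hKs⟩ : ∃ Ks : Set (Unit → ℝ), Ks = Φ '' C := ⟨_, rfl⟩
  have hKsc : IsCompact Ks := by rw [hKs]; exact hC.image hΦc
  have hcoord : (⋃ b : Unit, (fun α : Unit → ℝ => α b) '' Ks) = hf π k '' C := by
    have h0 : (⋃ b : Unit, (fun α : Unit → ℝ => α b) '' Ks) = (fun α : Unit → ℝ => α ()) '' Ks :=
      iSup_unique _
    rw [h0, hKs, Set.image_image, hΦ]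
  have hvolU : ((Fintype.card Unit : ℝ) + 1) * (volume ((fun x : ℝ => (x : UnitAddCircle)) ''
      (⋃ b, (fun α : Unit → ℝ => α b) '' Ks))).toReal < cst := by
    rw [hcoord, Fintype.card_unit]
    push_cast
    linarith
  -- the geometric sums
  have hgeo : ∀ (κ η : ℝ), 0 < κ → 0 < η → ∀ (L : ℕ), ⌈1 / (κ * η)⌉₊ ≤ L → ∀ i i' : G × G,
      ∀ p q j : ℕ, κ ≤ nd ((p : ℝ) * hf π k i.1 - (q : ℝ) * hf π k i'.1) →
      ‖∑ l ∈ Icc 1 L, F' i (p * (j + l)) * (starRingEnd ℂ) (F' i' (q * (j + l)))‖ ≤ η * L := by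
    intro κ η hκ hη L hL i i' p q j hsep
    have h1 := geo_corr ((p : ℝ) * hf π k i.1 - (q : ℝ) * hf π k i'.1)
      (((p : ℝ) * hf π k i.1 - (q : ℝ) * hf π k i'.1) * j) (F i.2) ((starRingEnd ℂ) (F i'.2))
      (hF1 _) (by rw [RCLike.norm_conj]; exact hF1 _) κ η hκ hη hsep L hL
    refine le_trans (le_of_eq ?_) h1
    congr 1
    refine sum_congr rfl fun l _ => ?_
    rw [hF'v, hF'v, map_mul]
    have e1 : ee (((p : ℝ) * hf π k i.1 - (q : ℝ) * hf π k i'.1) * l +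
        ((p : ℝ) * hf π k i.1 - (q : ℝ) * hf π k i'.1) * j) =
        ee (((p * (j + l) : ℕ) : ℝ) * hf π k i.1) *
          (starRingEnd ℂ) (ee (((q * (j + l) : ℕ) : ℝ) * hf π k i'.1)) := by
      rw [← ee_sub]
      congr 1
      push_cast
      ring
    rw [e1]
    ring
  have hcorr : CorrJ F' ld (AAJ ld Ks 1) ((ε / 10 / 16) ^ 2 / 2) := by
    intro κ hκ Dm
    refine ⟨⌈1 / (κ * ((ε / 10 / 16) ^ 2 / 2))⌉₊, fun L hL i _ i' _ p q j _ _ hsep => ?_⟩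
    refine hgeo κ _ hκ (by positivity) L hL i i' p q j ?_
    have h1 := hsep.2.2 () ()
    rw [hld] at h1
    exact h1
  have hirr : ∀ α ∈ Ks, ∀ b, Irrational (α b) := by
    rw [hKs, hΦ]
    rintro _ ⟨a, ha, rfl⟩ b
    exact erg_irr hN (hCe a ha) hk0
  have hsingle : ∃ δ : ℝ, 0 < δ ∧ ∃ H₁ : ℕ, ∀ i ∈ AAJ ld Ks δ, ∀ H n : ℕ, H₁ ≤ H → n ≤ H →
      ws (F' i) muC n H ≤ ε / 10 * H := by
    obtain ⟨δ, hδ, H₁, h⟩ := single_small F' (fun i => hf π k i.1) 1 le_rfl muC hF'1 norm_muC muC_mul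
      (by
        intro η hη
        refine ⟨1, le_rfl, fun κ hκ => ⟨⌈1 / (κ * η)⌉₊, fun L hL i i' p q j hsep => ?_⟩⟩
        refine hgeo κ η hκ hη L hL i i' p q j ?_
        have h1 := hsep 1 (by simp)
        simpa using h1) (hf π k '' C) (hC.image (hf_cont hN k)) (by
        rintro _ ⟨a, ha, rfl⟩
        exact erg_irr hN (hCe a ha) hk0) (ε / 10) (by positivity)
    refine ⟨δ, hδ, H₁, fun i hi H n hH hn => h i ?_ H n hH hn⟩
    obtain ⟨α, hα, h1⟩ := hi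
    rw [hKs, hΦ] at hα
    obtain ⟨a, ha, rfl⟩ := hα
    refine ⟨hf π k a, ⟨a, ha, rfl⟩, ?_⟩
    have h2 := h1 ()
    rw [hld] at h2
    exact h2
  obtain ⟨δ, hδ, H₀, hmain⟩ := scales_vec F' ld muC hF'1 norm_muC muC_mul ε hε Ks hKsc hirr hvolU
    hcorr hsingle
  refine ⟨⋃ a ∈ C, {g : G | |hf π k g - hf π k a| < δ}, ?_, ?_, H₀, fun M H h1 h2 => ?_⟩
  · refine isOpen_biUnion fun a _ => ?_
    have hc : Continuous fun g : G => |hf π k g - hf π k a| :=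
      continuous_abs.comp ((hf_cont hN k).sub continuous_const)
    exact isOpen_lt hc continuous_const
  · intro a ha
    simp only [Set.mem_iUnion]
    exact ⟨a, ha, by simpa using hδ⟩
  · refine le_trans (sum_le_sum fun m _ => ?_) (hmain M H h1 h2)
    refine mul_le_mul_of_nonneg_left ?_ (by positivity)
    refine Real.iSup_le ?_ (GG_nonneg _ _ _ _)
    rintro ⟨⟨g, u, hu, w, hw, rfl⟩, x⟩
    simp only [Set.mem_iUnion] at hu
    obtain ⟨a, ha, hua⟩ := hu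
    have hA1 : ∀ x : G, x ∈ A 1 := fun x => by rw [hN.A1]; trivial
    have hw0 : π 1 w = 0 := (hN.pi_ker 1 le_rfl w (hA1 w)).2 hw
    have hmem : ((u * w, x) : G × G) ∈ AAJ ld Ks δ := by
      refine ⟨Φ a, by rw [hKs]; exact ⟨a, ha, rfl⟩, fun b => ?_⟩
      rw [hld, hΦ]
      have e1 : hf π k w = 0 := by rw [hf, hw0]; simp
      have e2 : hf π k (u * w) = hf π k u := by rw [hf_mul hN, e1, add_zero]
      change |hf π k (u * w) - hf π k a| < δ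
      rw [e2]
      exact hua
    have h3 := le_GG (FAJ F' ld Ks δ) muC (fun i m => hF'1 _ _) norm_muC H m ⟨_, hmem⟩
    refine le_trans (le_of_eq ?_) h3
    rw [FAJ, hF']
    rfl

/-- RECIPE: reduce to `‖F‖ ≤ 1` as in `T3.char_eps'` (file `TFinal.lean`).  Then follow
`T3.char_eps` (file `TChar.lean`) with `J = Unit` and the single frequency `ld i _ = hf π k i.1`,
`F' i n = F (i.1 ^ n * i.2) = ee (n * hf π k i.1) * F i.2` (`T3.lev_act` with `s = 1`, `A 1 = ⊤`,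
`hf_pow`).  `CorrJ`: the correlation is a number of modulus at most one times
`∑ l, ee (l * (p * ld i - q * ld i'))`, a geometric sum of modulus at most
`2 / ‖1 - ee (p * ld i - q * ld i')‖ ≤ 1 / (2 * κ)` (`Nul.nd_le_norm_one_sub_ee`).  `hsingle`:
`Nul.single_small` (file `MP_663568_nul/Single.lean`) with `t = 1` and the frequency `hf π k i.1`; its
`Corr` is the same geometric sum.  `scales_vec` gives `δ`, and
`U = ⋃ a ∈ C, {g | |hf π k g - hf π k a| < δ}` is open (`hf_cont`); `hf π k (u * w) = hf π k u` for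
`w ∈ A 2`.  `hf π k a` is irrational for ergodic `a` by `T3.erg_irr`.  `v = cst / 2` with the constant
of `scales_vec` for `Fintype.card Unit = 1`. -/
theorem char_one (hN : NS A Γ π e) (F : G → ℂ) (hF : LevN A Γ e 1 F) (k : β 1 → ℤ)
    (hk : ∀ j, Freq (e 1 j) (k j) F) (hk0 : k ≠ 0) (ε : ℝ) (hε : 0 < ε) :
    ∃ v : ℝ, 0 < v ∧ ∀ C : Set G, IsCompact C → (∀ a ∈ C, Erg Γ a) →
      (volume ((fun x : ℝ => (x : UnitAddCircle)) '' (hf π k '' C))).toReal < v →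
      UEps (A 2) F C ε := by
  obtain ⟨B, hB0, hB⟩ := reg_bdd (coc_prime hN) hF.1
  obtain ⟨F', hF'⟩ : ∃ F' : G → ℂ, F' = fun x => (B : ℂ)⁻¹ * F x := ⟨_, rfl⟩
  have hF'L : LevN A Γ e 1 F' := by
    refine ⟨?_, fun z hz x => ?_, fun j => ?_⟩
    · rw [hF']; exact reg_const_mul hF.1 _
    · rw [hF']; beta_reduce; rw [hF.2.1 z hz x]
    · obtain ⟨m, hm⟩ := hF.2.2 j
      rw [hF']
      exact ⟨m, hm.mul_const _⟩
  have hF'1 : ∀ x, ‖F' x‖ ≤ 1 := by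
    intro x
    rw [hF']
    beta_reduce
    rw [norm_mul, norm_inv, Complex.norm_real, Real.norm_eq_abs, abs_of_pos hB0,
      inv_mul_le_iff₀ hB0, mul_one]
    exact hB x
  have hF'k : ∀ j, Freq (e 1 j) (k j) F' := by
    intro j
    rw [hF']
    exact (hk j).mul_const _
  obtain ⟨v, hv, h⟩ := char_one_bdd hN F' hF'L k hF'k hk0 hF'1 (ε / B) (by positivity)
  refine ⟨v, hv, fun C hC hCe hvol => ?_⟩
  have h1 := (h C hC hCe hvol).const_mul (B : ℂ)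
  have e1 : (fun x => (B : ℂ) * F' x) = F := by
    funext x
    rw [hF']
    have : (B : ℂ) ≠ 0 := by exact_mod_cast hB0.ne'
    field_simp
  rw [e1, Complex.norm_real, Real.norm_eq_abs, abs_of_pos hB0] at h1
  have e2 : B * (ε / B) = ε := by field_simp
  rwa [e2] at h1

end Pool.Agent.Lib.MP_663568_nt.E
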