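import Pool.Agent.Lib.MP_663568_e.E18
import Pool.Agent.Lib.MP_663568_e.E19
import Pool.Agent.Lib.MP_663568_e.E20
import Pool.Agent.Lib.MP_663568_e.E21

/-!
Row E22: the uniform estimate for functions of mean zero.
-/

set_option autoImplicit false
open Finset MeasureTheory

namespace Pool.Agent.Lib.MP_663568_nt.E

open Katai Tw Fib Nul T3

variable {G : Type} [Group G] [TopologicalSpace G] [IsTopologicalGroup G] {A : ℕ → Subgroup G}
  {Γ : Subgroup G}
  {β : ℕ → Type} [∀ s, Fintype (β s)] [∀ s, DecidableEq (β s)]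
  {π : (s : ℕ) → G → β s → ℝ} {e : (s : ℕ) → β s → ℝ → G}

omit [IsTopologicalGroup G] in
private lemma ueps_zero (F : G → ℂ) (hF : ∀ x, F x = 0) (C : Set G) (ε : ℝ) (hε : 0 < ε) :
    UEps (A 2) F C ε := by
  refine ⟨Set.univ, isOpen_univ, Set.subset_univ _, 0, fun M H _ _ => ?_⟩
  have hGG : ∀ n, GG (orb (A 2) Set.univ F) muC H n = 0 := by
    intro n
    refine le_antisymm (Real.iSup_le (fun i => ?_) le_rfl) (GG_nonneg _ _ _ _)
    have : ∑ h ∈ Icc 1 H, orb (A 2) Set.univ F i (n + h) * muC (n + h) = 0 :=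
      sum_eq_zero fun h _ => by simp only [orb]; rw [hF, zero_mul]
    rw [this, norm_zero]
  simp only [hGG, mul_zero, sum_const_zero]
  have h5 : 0 ≤ (H : ℝ) * Real.log M := mul_nonneg (by positivity) (Real.log_natCast_nonneg M)
  calc (0 : ℝ) ≤ ε * (H * Real.log M) := mul_nonneg hε.le h5
    _ = _ := by ring

private lemma chi_ee (hN : NS A Γ π e) (k : β 1 → ℤ) (x : G) :
    (chi hN k x : ℂ) = ee (hf π k x) := by
  rw [chi_apply, Circle.coe_exp, ee]
  congr 1
  push_cast
  ring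

private lemma lev_one_eq (hN : NS A Γ π e) (F : G → ℂ) (hF : LevN A Γ e 1 F)
    (k : β 1 → ℤ) (hk : ∀ j, Freq (e 1 j) (k j) F) (x : G) : F x = F 1 * (chi hN k x : ℂ) := by
  have h := lev_act hN le_rfl hF.2.1 k hk (x := x) (by rw [hN.A1]; trivial) 1
  rw [mul_one] at h
  rw [h, chi_ee hN, hf, mul_comm]

/-- The estimate for functions of mean zero. -/
theorem mean_spec (hN : NS A Γ π e) (hΓ : IsClosed (Γ : Set G)) (t : ℕ) (ht : A (t + 1) = ⊥)
    [MeasurableSpace (G ⧸ Γ)] [BorelSpace (G ⧸ Γ)] (m : Measure (G ⧸ Γ)) [IsProbabilityMeasure m]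
    (hm : ∀ g : G, m.map (fun x => g • x) = m)
    (f : G ⧸ Γ → ℂ) (hf : Continuous f) (hf0 : ∫ x, f x ∂m = 0) (ε : ℝ) (hε : 0 < ε) :
    ∃ S : Finset (β 1 → ℤ), (∀ k ∈ S, k ≠ 0 ∧ InSp hN m f k) ∧
      ∃ v : ℝ, 0 < v ∧ ∀ C : Set G, IsCompact C → (∀ a ∈ C, Erg Γ a) →
        (∀ k ∈ S, (volume ((fun x : ℝ => (x : UnitAddCircle)) '' (T3.hf π k '' C))).toReal < v ∨
          UEps (A 2) (fun x : G => (chi hN k x : ℂ)) C v) →
        UEps (A 2) (fun x : G => f (x : G ⧸ Γ)) C ε := by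
  classical
  have hCo := coc_prime hN
  set F0 : G → ℂ := fun x : G => f (x : G ⧸ Γ) with hF0
  have hF0r : Reg Γ F0 := ⟨hf.comp QuotientGroup.continuous_mk, fun x γ hγ => by
    simp only [hF0]
    rw [QuotientGroup.mk_mul_of_mem x hγ]⟩
  obtain ⟨ι, hι, lev, F, c, hF1, hF2⟩ := level_decomp_Q A hN.anti hN.comm hN.A1 Γ hCo (esL e)
    (esL_onep hN) (esL_gen hN) (SpQ hN m f)
    (fun φ hφ hQ s hs e' he' n => spq_pop m hN hm f φ hφ hQ e' (esL_onep hN s hs e' he').1 n)
    (fun φ hφ hQ c => spq_mul m hN f φ hφ hQ c)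
    (fun ι t F h => spq_sum m hN f ι t F h)
    t F0 hF0r
    (by
      rw [ht]
      intro z hz x
      rw [Subgroup.mem_bot.mp hz, one_mul]) (spq_self m hN f) (ε / 8) (by positivity)
  have hc : ‖c‖ ≤ ε / 8 := by
    have hd : ∀ i, ∃ F' : G ⧸ Γ → ℂ, Continuous F' ∧ ∀ x : G, F' (x : G ⧸ Γ) = F i x := fun i =>
      exists_descend (hF1 i).2.1.1
    choose F' hF'c hF' using hd
    have hz : ∀ i, ∫ x, F' i x ∂m = 0 := by
      intro i
      obtain ⟨z, hz, k, hk, hzk⟩ := (hF1 i).2.2.1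
      refine mean_zero Γ m hm (F' i) (hF'c i) z k hk ?_
      intro r x
      obtain ⟨y, rfl⟩ := QuotientGroup.mk_surjective x
      have : z r • (y : G ⧸ Γ) = ((z r * y : G) : G ⧸ Γ) := rfl
      rw [this, hF', hF', hzk]
    have hcpt : CompactSpace (G ⧸ Γ) := by
      obtain ⟨C, hC1, hC2⟩ := hCo
      refine ⟨?_⟩
      have : (Set.univ : Set (G ⧸ Γ)) = (fun g : G => (g : G ⧸ Γ)) '' C := by
        ext x
        simp only [Set.mem_univ, true_iff]
        obtain ⟨g, rfl⟩ := QuotientGroup.mk_surjective x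
        obtain ⟨c, hc, γ, hγ, e⟩ := hC2 g
        exact ⟨c, hc, (coe_eq_of_mul Γ _ _ _ hγ e).symm⟩
      rw [this]
      exact hC1.image QuotientGroup.continuous_mk
    have hint : ∀ {φ : G ⧸ Γ → ℂ}, Continuous φ → Integrable φ m := fun {φ} hφ => by
      obtain ⟨B, hB⟩ : ∃ B : ℝ, ∀ x, ‖φ x‖ ≤ B := by
        have h1 : IsCompact (Set.range fun x => ‖φ x‖) := isCompact_range (by fun_prop)
        obtain ⟨B, hB⟩ := h1.bddAbove
        exact ⟨B, fun x => hB ⟨x, rfl⟩⟩
      exact Integrable.of_bound hφ.aestronglyMeasurable B (Filter.Eventually.of_forall hB)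
    have e1 : ∫ x, (f x - ∑ i, F' i x - c) ∂m = -c := by
      have i1 : Integrable (fun x => ∑ i, F' i x) m :=
        integrable_finsetSum _ fun i _ => hint (hF'c i)
      have i2 : Integrable (fun x => f x - ∑ i, F' i x) m := (hint hf).sub i1
      rw [integral_sub i2 (integrable_const _), integral_sub (hint hf) i1,
        hf0, integral_finsetSum _ (fun i _ => hint (hF'c i))]
      simp [hz]
    have e2 : ‖∫ x, (f x - ∑ i, F' i x - c) ∂m‖ ≤ ε / 8 := by
      have := norm_integral_le_of_norm_le_const (μ := m) (f := fun x => f x - ∑ i, F' i x - c)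
        (C := ε / 8) (Filter.Eventually.of_forall fun x => by
          obtain ⟨y, rfl⟩ := QuotientGroup.mk_surjective x
          have := hF2 y
          simpa only [hF'] using this)
      simpa using this
    rw [e1, norm_neg] at e2
    exact e2
  -- the pieces
  have hpiece : ∀ i, ∃ (S : Finset (β 1 → ℤ)) (v : ℝ), (∀ k ∈ S, k ≠ 0 ∧ InSp hN m f k) ∧
      0 < v ∧ ∀ C : Set G, IsCompact C → (∀ a ∈ C, Erg Γ a) →
        (∀ k ∈ S, (volume ((fun x : ℝ => (x : UnitAddCircle)) '' (T3.hf π k '' C))).toReal < v ∨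
          UEps (A 2) (fun x : G => (chi hN k x : ℂ)) C v) →
        UEps (A 2) (F i) C (ε / (2 * (Fintype.card ι + 1))) := by
    intro i
    have hL := (lev_iff (lev i) (F i)).1 (hF1 i).2.1
    have hGd := (good_iff (lev i) (F i)).1 (hF1 i).2.2.1
    by_cases h2 : 2 ≤ lev i
    · exact ⟨∅, 1, by simp, one_pos, fun C hC hCe _ =>
        char_ge2 hN hΓ (lev i) h2 (F i) hL hGd C hC hCe _ (by positivity)⟩
    · have h1 : lev i = 1 := by
        have := (hF1 i).1
        omega
      rw [h1] at hL hGd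
      by_cases h0 : ∃ x, F i x ≠ 0
      · obtain ⟨k, hk0, hk⟩ := exists_freq hL hGd
        obtain ⟨v, hv, h⟩ := char_one hN (F i) hL k hk hk0 (ε / (2 * (Fintype.card ι + 1)))
          (by positivity)
        set c₁ : ℝ := ε / (2 * (Fintype.card ι + 1)) / (‖F i 1‖ + 1) with hc₁
        have hc₁0 : 0 < c₁ := by positivity
        refine ⟨{k}, min v c₁, ?_, lt_min hv hc₁0, fun C hC hCe hvol => ?_⟩
        · intro k' hk'
          rw [mem_singleton] at hk'
          subst hk'
          exact ⟨hk0, spq_one m hN f (F i) hL k' hk h0 (hF1 i).2.2.2⟩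
        · rcases hvol k (mem_singleton_self k) with h3 | h3
          · exact h C hC hCe (h3.trans_le (min_le_left _ _))
          · have h4 := h3.const_mul (F i 1)
            have e1 : (fun x => F i 1 * (chi hN k x : ℂ)) = F i := by
              funext x
              exact (lev_one_eq hN (F i) hL k hk x).symm
            rw [e1] at h4
            refine h4.mono ?_
            calc ‖F i 1‖ * min v c₁ ≤ (‖F i 1‖ + 1) * c₁ := by
                  apply mul_le_mul (by linarith) (min_le_right _ _) (lt_min hv hc₁0).le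
                  positivity
              _ = ε / (2 * (Fintype.card ι + 1)) := by rw [hc₁]; field_simp
      · push Not at h0
        exact ⟨∅, 1, by simp, one_pos, fun C _ _ _ => ueps_zero (F i) h0 C _ (by positivity)⟩
  choose S vf hS hvf hmain using hpiece
  have hv0 : 0 ≤ ∑ i, 1 / vf i := sum_nonneg fun i _ => (one_div_pos.2 (hvf i)).le
  refine ⟨univ.biUnion S, ?_, 1 / (1 + ∑ i, 1 / vf i), by positivity, fun C hC hCe hvol => ?_⟩
  · intro k hk
    obtain ⟨i, _, hi⟩ := mem_biUnion.1 hk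
    exact hS i k hi
  refine ueps_approx (A 2) F0 C ε hε ι F (fun i => ?_) (fun i => ?_) (fun x => ?_)
  · obtain ⟨B, _, hB⟩ := reg_bdd hCo (hF1 i).2.1.1
    exact ⟨B, hB⟩
  · refine hmain i C hC hCe fun k hk => ?_
    have h2 : 1 / (1 + ∑ i, 1 / vf i) ≤ vf i := by
      have h1 : 1 / vf i ≤ ∑ i, 1 / vf i :=
        single_le_sum (f := fun i => 1 / vf i) (fun i _ => (one_div_pos.2 (hvf i)).le)
          (mem_univ i)
      rw [one_div_le (by positivity) (hvf i)]
      linarith
    rcases hvol k (mem_biUnion.2 ⟨i, mem_univ i, hk⟩) with h3 | h3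
    · exact Or.inl (h3.trans_le h2)
    · exact Or.inr (h3.mono h2)
  · calc _ = ‖(F0 x - ∑ i, F i x - c) + c‖ := by congr 1; ring
      _ ≤ ε / 8 + ε / 8 := (norm_add_le _ _).trans (add_le_add (hF2 x) hc)
      _ = ε / 4 := by ring

end Pool.Agent.Lib.MP_663568_nt.E
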