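import Mathlib
import Pool.Agent.Lib.MP_663568_t3.TFinal

/-!
# The non-abelian part: definitions
-/

set_option autoImplicit false
open Finset MeasureTheory

namespace Pool.Agent.Lib.MP_663568_nt.E

open Katai Tw Fib Nul T3

open Classical in
/-- The natural numbers with the property `P` have upper density at most `δ`, in the strong sense
that the counting function is at most `δ R` for all large `R`. -/
def Rare (δ : ℝ) (P : ℕ → Prop) : Prop :=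
  ∃ R₀ : ℕ, ∀ R : ℕ, R₀ ≤ R → (((Icc 1 R).filter fun r => P r).card : ℝ) ≤ δ * R

/-- the bracket function `∑ M j i ⌊r θ j⌋ θ i` -/
noncomputable def Psi {β : Type} [Fintype β] (M : β → β → ℤ) (θ : β → ℝ) (r : ℕ) : ℝ :=
  ∑ j, ∑ i, (M j i : ℝ) * (⌊(r : ℝ) * θ j⌋ : ℝ) * θ i

/-- the combination of the forms `b k` with the coefficients `w k` -/
def Mw {β β₂ : Type} [Fintype β₂] (b : β₂ → β → β → ℤ) (w : β₂ → ℤ) : β → β → ℤ :=
  fun j i => ∑ k, w k * b k j i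

/-- no integer relation at all between `1` and the `θ j` -/
def NRI {β : Type} [Fintype β] (θ : β → ℝ) : Prop := ∀ K : ℕ, NR K θ

/-- the bracket functions of all forms with coefficients at most `K` are rarely integral -/
def GGd {β β₂ : Type} [Fintype β] [Fintype β₂] (b : β₂ → β → β → ℤ) (K : ℕ) (δ : ℝ)
    (θ : β → ℝ) : Prop :=
  ∀ w : β₂ → ℤ, w ≠ 0 → (∀ k, |w k| ≤ (K : ℤ)) → ∀ c : ℝ,
    Rare δ fun r => ∃ z : ℤ, c + Psi (Mw b w) θ r = z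

/-- the horizontal coordinates of the element of the square for the shift `r` -/
noncomputable def ths {β β₂ : Type} [Fintype β] (b : β₂ → β → β → ℤ) (θ : β → ℝ) (r : ℕ) :
    β ⊕ β₂ → ℝ := Sum.elim θ fun k => Psi (b k) θ r

section

variable {G : Type} [Group G] {β : ℕ → Type} [∀ s, Fintype (β s)]

/-- the coordinates of the commutator of `e t j 1` and `e 1 i 1` -/
def comc (π : (s : ℕ) → G → β s → ℝ) (e : (s : ℕ) → β s → ℝ → G) (t : ℕ) (j : β t) (i : β 1) :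
    β (t + 1) → ℝ := π (t + 1) (e t j 1 * e 1 i 1 * (e t j 1)⁻¹ * (e 1 i 1)⁻¹)

/-- `b` is the commutator form -/
def CF (π : (s : ℕ) → G → β s → ℝ) (b : β 2 → β 1 → β 1 → ℤ) : Prop :=
  ∀ x y k, π 2 (x * y * x⁻¹ * y⁻¹) k = ∑ j, ∑ i, (b k j i : ℝ) * π 1 x j * π 1 y i

/-- no resonance of the rows of the forms in the levels `3, …, n` -/
def TT (π : (s : ℕ) → G → β s → ℝ) (e : (s : ℕ) → β s → ℝ → G) (n K : ℕ) (θ : β 1 → ℝ) : Prop :=
  ∀ t : ℕ, 2 ≤ t → t + 1 ≤ n → ∀ w : β (t + 1) → ℤ, w ≠ 0 → (∀ k, |w k| ≤ (K : ℤ)) →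
    ∃ j : β t, ∀ m : ℕ, 1 ≤ m → m ≤ K → ∀ z : ℤ,
      (m : ℝ) * ∑ i, (∑ k, (w k : ℝ) * comc π e t j i k) * θ i ≠ z

/-- the averages of `F` along the orbits of all `g` with horizontal coordinates near `θ` are at
most `ε` -/
def Loc {β₁ : Type} (p : G → β₁ → ℝ) (F : G → ℂ) (θ : β₁ → ℝ) (ε : ℝ) : Prop :=
  ∃ ρ : ℝ, 0 < ρ ∧ ∃ L₀ : ℕ, ∀ L : ℕ, L₀ ≤ L → ∀ g x : G, (∀ j, |p g j - θ j| < ρ) →
    ‖∑ l ∈ Icc 1 L, F (g ^ l * x)‖ ≤ ε * L

end

/-- **The statement of the induction on the level.** -/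
def EG (s : ℕ) : Prop :=
  ∀ (G : Type) [Group G] [TopologicalSpace G] [IsTopologicalGroup G]
    (A : ℕ → Subgroup G) (Γ : Subgroup G)
    (β : ℕ → Type) [∀ s, Fintype (β s)] [∀ s, DecidableEq (β s)]
    (π : (s : ℕ) → G → β s → ℝ) (e : (s : ℕ) → β s → ℝ → G), NS A Γ π e →
    ∀ b : β 2 → β 1 → β 1 → ℤ, CF π b →
    ∀ F : G → ℂ, LevN A Γ e s F → GoodN e s F → ∀ ε : ℝ, 0 < ε →
    ∃ (K : ℕ) (δ : ℝ), 0 < δ ∧ ∀ θ : β 1 → ℝ, TT π e s K θ → GGd b K δ θ → Loc (π 1) F θ ε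

section

variable {α α' : Type} [Fintype α] [Fintype α']

/-- The numbers `θ' j`, `j ∉ J`, are rational combinations of `1`, the `θ i` and the `θ' i`,
`i ∈ J`, with denominator `D` and coefficients at most `K`. -/
def Bas (K : ℕ) (θ : α → ℝ) (θ' : α' → ℝ) (J : Finset α') (D : ℕ) (a : α' → α → ℤ)
    (a' : α' → α' → ℤ) (w : α' → ℤ) : Prop :=
  1 ≤ D ∧ D ≤ K ∧ (∀ j i, |a j i| ≤ (K : ℤ)) ∧ (∀ j i, |a' j i| ≤ (K : ℤ)) ∧
    (∀ j i, i ∉ J → a' j i = 0) ∧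
    ∀ j, j ∉ J → (D : ℝ) * θ' j = ∑ i, (a j i : ℝ) * θ i + ∑ i, (a' j i : ℝ) * θ' i + w j

/-- no relation with coefficients at most `K` between the `θ i` and the `θ' j`, `j ∈ J` -/
def NRJ (K : ℕ) (θ : α → ℝ) (θ' : α' → ℝ) (J : Finset α') : Prop :=
  NR K (Sum.elim θ fun j : {j // j ∈ J} => θ' j)

/-- the reduced coefficients at the `θ i` -/
noncomputable def red1 [DecidableEq α'] (J : Finset α') (D : ℕ) (a : α' → α → ℤ) (ζ : α → ℝ)
    (ζ' : α' → ℝ) (i : α) : ℝ := D * ζ i + ∑ j ∈ univ \ J, ζ' j * a j i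

/-- the reduced coefficients at the `θ' i`, `i ∈ J` -/
noncomputable def red2 [DecidableEq α'] (J : Finset α') (D : ℕ) (a' : α' → α' → ℤ)
    (ζ' : α' → ℝ) (i : α') : ℝ := D * ζ' i + ∑ j ∈ univ \ J, ζ' j * a' j i

/-- the only obstruction for the general bracket lemma -/
def Bad [DecidableEq α'] (K : ℕ) (θ : α → ℝ) (θ' : α' → ℝ) (lam : ℝ) (ζ : α → ℝ) (ζ' : α' → ℝ) :
    Prop :=
  ∃ (J : Finset α') (D : ℕ) (a : α' → α → ℤ) (a' : α' → α' → ℤ) (w : α' → ℤ),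
    Bas K θ θ' J D a a' w ∧
    ∃ (m : ℕ) (k : α → ℤ) (k' : α' → ℤ) (w₀ : ℤ), 1 ≤ m ∧ m ≤ K ∧
      (∀ i, |k i| ≤ (K : ℤ)) ∧ (∀ i, |k' i| ≤ (K : ℤ)) ∧
      (m : ℝ) * (D * lam) + ∑ i, (k i : ℝ) * θ i + ∑ i ∈ J, (k' i : ℝ) * θ' i = w₀ ∧
      (∀ i, (m : ℝ) * red1 J D a ζ ζ' i = k i) ∧ ∀ i ∈ J, (m : ℝ) * red2 J D a' ζ' i = k' i

end

/-! ### Lemmas on `Rare` -/

lemma Rare.mono {δ δ' : ℝ} {P Q : ℕ → Prop} (h : Rare δ P) (hδ : δ ≤ δ')
    (hPQ : ∀ r, 1 ≤ r → Q r → P r) : Rare δ' Q := by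
  classical
  obtain ⟨R₀, h⟩ := h
  refine ⟨R₀, fun R hR => ?_⟩
  have h1 : (((Icc 1 R).filter fun r => Q r).card : ℝ) ≤ (((Icc 1 R).filter fun r => P r).card : ℝ) := by
    exact_mod_cast card_le_card fun r hr => by
      rw [mem_filter] at hr ⊢
      exact ⟨hr.1, hPQ r (mem_Icc.1 hr.1).1 hr.2⟩
  exact h1.trans ((h R hR).trans (mul_le_mul_of_nonneg_right hδ (Nat.cast_nonneg _)))

lemma Rare.bunion {I : Type} (t : Finset I) {δ : I → ℝ} {P : I → ℕ → Prop}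
    (h : ∀ i ∈ t, Rare (δ i) (P i)) : Rare (∑ i ∈ t, δ i) fun r => ∃ i ∈ t, P i r := by
  classical
  have h' : ∀ i, ∃ R₀ : ℕ, i ∈ t → ∀ R : ℕ, R₀ ≤ R →
      (((Icc 1 R).filter fun r => P i r).card : ℝ) ≤ δ i * R := by
    intro i
    by_cases hi : i ∈ t
    · obtain ⟨R₀, hR⟩ := h i hi
      exact ⟨R₀, fun _ => hR⟩
    · exact ⟨0, fun h => absurd h hi⟩
  choose R₀ hR₀ using h'
  obtain ⟨Q, hQ⟩ : ∃ Q : ℕ → Prop, Q = fun r => ∃ i ∈ t, P i r := ⟨_, rfl⟩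
  rw [← hQ]
  refine ⟨t.sup R₀, fun R hR => ?_⟩
  have hsub : ((Icc 1 R).filter fun r => Q r) ⊆
      t.biUnion fun i => (Icc 1 R).filter fun r => P i r := by
    intro r hr
    rw [mem_filter, hQ] at hr
    obtain ⟨h1, i, hi, h2⟩ := hr
    exact mem_biUnion.2 ⟨i, hi, mem_filter.2 ⟨h1, h2⟩⟩
  have h1 : ((Icc 1 R).filter fun r => Q r).card ≤
      ∑ i ∈ t, ((Icc 1 R).filter fun r => P i r).card := (card_le_card hsub).trans card_biUnion_le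
  have h2 : (((Icc 1 R).filter fun r => Q r).card : ℝ) ≤
      ∑ i ∈ t, (((Icc 1 R).filter fun r => P i r).card : ℝ) := by
    have h3 := (Nat.cast_le (α := ℝ)).2 h1
    push_cast at h3
    exact h3
  rw [sum_mul]
  exact h2.trans (sum_le_sum fun i hi => hR₀ i hi R ((Finset.le_sup hi).trans hR))

lemma Rare.or {δ δ' : ℝ} {P Q : ℕ → Prop} (h : Rare δ P) (h' : Rare δ' Q) :
    Rare (δ + δ') fun r => P r ∨ Q r := by
  have h1 := Rare.bunion (univ : Finset Bool) (δ := fun b => if b then δ else δ')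
    (P := fun b => if b then P else Q) (by
      intro b _
      cases b
      · exact h'
      · exact h)
  refine h1.mono (by simp) ?_
  rintro r _ (hr | hr)
  · exact ⟨true, mem_univ _, hr⟩
  · exact ⟨false, mem_univ _, hr⟩

lemma Rare.of_forall_not {δ : ℝ} (hδ : 0 ≤ δ) {P : ℕ → Prop} (h : ∀ r, 1 ≤ r → ¬ P r) :
    Rare δ P := by
  classical
  refine ⟨0, fun R _ => ?_⟩
  rw [filter_eq_empty_iff.2 fun r hr => h r (mem_Icc.1 hr).1]
  simp only [card_empty, Nat.cast_zero]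
  positivity

end Pool.Agent.Lib.MP_663568_nt.E
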